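import Pool.Agent.TRX.C5c
import Pool.Agent.TTS.P5
import Pool.Agent.TTS.NF
import Pool.Agent.MP_9ab903_nt.FinalDefs2

set_option autoImplicit false

open NumberField Ideal IsDedekindDomain
open scoped Classical

/-!
# [TRY] The formula side: the conjecture of Birch and Swinnerton-Dyer over quadratic extensions of `L` and of `M = L(√-7)`

`L` totally real, `D : Dat L M`; `d ∈ L` with `SP L d V` (or `NF L d (classNumber M) t c V`), `a ∈ L` with `SP L a T`; `F = L(√a)` (`QF : QS L F`, `QF.e = a`), `N = M(√a) = F(√-7)` (`Q : QS M N`, `Q.e = algebraMap L M a`, `Q' : QS F N`, `Q'.e = -7`, `Q'.s = algebraMap M N D.r`).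
-/

namespace TRY

open TR TU TTS TRX

/-- the number of the real embeddings for which `x` is negative -/
noncomputable def nneg {L : Type} [Field L] [NumberField L] (x : L) : ℕ :=
  (Finset.univ.filter fun j : L →+* ℝ => j x < 0).card

/-- the product of the norms of the elements of `S` -/
noncomputable def NS {L : Type} [Field L] [NumberField L] (S : Finset (HeightOneSpectrum (𝓞 L))) : ℕ :=
  ∏ v ∈ S, absNorm v.asIdeal

/-- The conjecture for `E` over `F` up to the primes `≠ 2`, with `|Ш(E)[2^∞]| = 2 ^ e` -/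
def TwoPart {F : Type} [Field F] [NumberField F] (E : WeierstrassCurve F) (e : ℕ) : Prop :=
  E.IsElliptic ∧ Finite E.toAffine.Point ∧
    ∃ L : ℂ → ℂ, SBSD2.IsEntireLSeries E L ∧
      analyticOrderAt L 1 = Module.finrank ℤ E.toAffine.Point ∧ L 1 ≠ 0 ∧
      (∀ (x : SBSD.Sha E) (k : ℕ), 2 ^ k • x = 0 → 2 • x = 0) ∧
      Nat.card {x : SBSD.Sha E // 2 • x = 0} = 2 ^ e ∧
      ∃ q : ℚ, q ≠ 0 ∧ padicValRat 2 q = e ∧ SBSD2.bsdQuotient E (L 1) = q

end TRY
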