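import Pool.Agent.TRY.E0a
import Pool.Agent.TR.A7e

set_option autoImplicit false

open NumberField Ideal IsDedekindDomain
open scoped Classical

/-! # [TRY-E0] the discriminant of a quadratic extension -/

namespace TRY

open TR TU TTS TRX

section
variable {K K' : Type} [Field K] [NumberField K] [Field K'] [NumberField K'] [Algebra K K'] (Q : QS K K')

/-- the prime below -/
theorem e0_under (P : HeightOneSpectrum (𝓞 K')) :
    ∃ v : HeightOneSpectrum (𝓞 K), P.asIdeal.comap (algebraMap (𝓞 K) (𝓞 K')) = v.asIdeal := by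
  have := P.isPrime
  refine ⟨⟨P.asIdeal.comap (algebraMap (𝓞 K) (𝓞 K')), inferInstance, ?_⟩, rfl⟩
  intro h
  exact P.ne_bot (Ideal.eq_bot_of_comap_eq_bot h)

/-- [TRY-E0] PROOF. For `v ∈ R` let `P_v` be the unique prime above `v` (`QS.ram`; `N P_v = N v`; injective: the prime below). The different is `∏_{v ∈ R} P_v`: it is not `⊥` (`differentIdeal_ne_bot`), a product of primes (`UniqueFactorizationMonoid`, `normalizedFactors`, or compare the ideals prime by prime:
`Ideal.finprod_heightOneSpectrum_factorization`, `Associates.count`), by `diff_ur`, `diff_od` the exponent of `P` is `1` for `P = P_v` and `0` otherwise; simplest: `∏ P_v ∣ 𝔇` (`Finset.prod_dvd_of_coprime` or `Finset.prod_primes_dvd`), `𝔇 = (∏ P_v) * J`, and a prime `P ∣ J` would give `P = P_v` (`diff_ur`), `P² ∣ 𝔇`, contradiction; so `J = ⊤`. -/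
theorem different_eq {R : Finset (HeightOneSpectrum (𝓞 K))} (h2 : ∀ v ∈ R, (2 : 𝓞 K) ∉ v.asIdeal)
    (hod : ∀ v ∈ R, Od v Q.e) (hur : ∀ v ∉ R, Ur v Q.e) :
    absNorm (differentIdeal (𝓞 K) (𝓞 K')) = ∏ v ∈ R, absNorm v.asIdeal := by
  choose P hP1 hP2 hP3 using fun v : R => Q.ram v.1 (hod v.1 v.2)
  have hPv : ∀ v : R, (P v).asIdeal.comap (algebraMap (𝓞 K) (𝓞 K')) = v.1.asIdeal :=
    fun v => (hP1 v (P v)).2 rfl
  have hinj : Function.Injective P := by
    intro v w h
    apply Subtype.ext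
    apply HeightOneSpectrum.ext
    rw [← hPv v, ← hPv w, h]
  have hdvd : (∏ v ∈ R.attach, (P v).asIdeal) ∣ differentIdeal (𝓞 K) (𝓞 K') := by
    apply Finset.prod_dvd_of_coprime
    · intro v _ w _ hvw
      apply Ideal.isCoprime_of_isMaximal
      intro h
      exact hvw (hinj (HeightOneSpectrum.ext h))
    · intro v _
      exact (diff_od Q (h2 v.1 v.2) (hod v.1 v.2) (hPv v)).1
  obtain ⟨J, hJ⟩ := hdvd
  have hJt : J = ⊤ := by
    by_contra hJ1
    obtain ⟨M, hM, hJM⟩ := Ideal.exists_le_maximal J hJ1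
    have hJ0 : J ≠ ⊥ := by
      intro h0
      apply differentIdeal_ne_bot (A := 𝓞 K) (B := 𝓞 K')
      rw [hJ, h0]
      exact Ideal.mul_bot _
    have hM0 : M ≠ ⊥ := by
      intro h0
      rw [h0, le_bot_iff] at hJM
      exact hJ0 hJM
    let P0 : HeightOneSpectrum (𝓞 K') := ⟨M, hM.isPrime, hM0⟩
    obtain ⟨v, hv⟩ := e0_under (K := K) P0
    have hMJ : P0.asIdeal ∣ J := Ideal.dvd_iff_le.2 hJM
    by_cases hvR : v ∈ R
    · have h1 : P0 = P ⟨v, hvR⟩ := (hP1 ⟨v, hvR⟩ P0).1 hv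
      apply (diff_od Q (h2 v hvR) (hod v hvR) hv).2
      rw [hJ, pow_two]
      apply mul_dvd_mul _ hMJ
      rw [h1]
      exact Finset.dvd_prod_of_mem (fun v => (P v).asIdeal) (Finset.mem_attach _ _)
    · apply diff_ur Q (hur v hvR) hv
      rw [hJ]
      exact Dvd.dvd.mul_left hMJ _
  rw [hJ, hJt, Ideal.mul_top, map_prod]
  rw [← Finset.prod_attach R]
  exact Finset.prod_congr rfl fun v _ => hP2 v

/-- [TRY-E0] the discriminant. PROOF. Mathlib `NumberField.natAbs_discr_eq_absNorm_differentIdeal_mul_natAbs_discr_pow K (𝓞 K) K' (𝓞 K')` (see `TR.Dat.discr_eq`, TR/A7e.lean), `different_eq`, `QS.finrank_eq`. -/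
theorem discr_QS {R : Finset (HeightOneSpectrum (𝓞 K))} (h2 : ∀ v ∈ R, (2 : 𝓞 K) ∉ v.asIdeal)
    (hod : ∀ v ∈ R, Od v Q.e) (hur : ∀ v ∉ R, Ur v Q.e) :
    (discr K').natAbs = (∏ v ∈ R, absNorm v.asIdeal) * (discr K).natAbs ^ 2 := by
  rw [NumberField.natAbs_discr_eq_absNorm_differentIdeal_mul_natAbs_discr_pow K (𝓞 K) K' (𝓞 K'),
    different_eq Q h2 hod hur, Q.finrank_eq]

end

end TRY
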