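import Pool.Agent.TRX.C0
import Pool.Agent.TU.Q3

set_option autoImplicit false

open NumberField Ideal IsDedekindDomain
open scoped Classical

/-! # [TRY-E0a] the different of a quadratic extension at a prime -/

namespace TRY

open TR TU TTS TRX

section
variable {K K' : Type} [Field K] [NumberField K] [Field K'] [NumberField K'] [Algebra K K'] (Q : QS K K')
include Q

/-- a zero of `X² - t X - c` outside of `K` gives an element of the different -/
theorem e0a_mem (Θ : 𝓞 K') (t c : 𝓞 K)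
    (hroot : Θ ^ 2 - algebraMap (𝓞 K) (𝓞 K') t * Θ - algebraMap (𝓞 K) (𝓞 K') c = 0) {α β : K} (hβ : β ≠ 0)
    (hΘ : (Θ : K') = algebraMap K K' α + algebraMap K K' β * Q.s) :
    2 * Θ - algebraMap (𝓞 K) (𝓞 K') t ∈ differentIdeal (𝓞 K) (𝓞 K') := by
  have hmonic : (Polynomial.X ^ 2 - Polynomial.C t * Polynomial.X - Polynomial.C c : Polynomial (𝓞 K)).Monic := by
    monicity!
  have hdeg : (Polynomial.X ^ 2 - Polynomial.C t * Polynomial.X - Polynomial.C c :
      Polynomial (𝓞 K)).natDegree = 2 := by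
    compute_degree!
  have hint : IsIntegral (𝓞 K) Θ := by
    refine ⟨Polynomial.X ^ 2 - Polynomial.C t * Polynomial.X - Polynomial.C c, hmonic, ?_⟩
    simp only [Polynomial.eval₂_sub, Polynomial.eval₂_mul, Polynomial.eval₂_X_pow, Polynomial.eval₂_X,
      Polynomial.eval₂_C]
    exact hroot
  have hdvd : minpoly (𝓞 K) Θ ∣ (Polynomial.X ^ 2 - Polynomial.C t * Polynomial.X - Polynomial.C c) := by
    apply minpoly.isIntegrallyClosed_dvd hint
    simp only [map_sub, map_mul, map_pow, Polynomial.aeval_X, Polynomial.aeval_C]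
    exact hroot
  have h2 : 2 ≤ (minpoly (𝓞 K) Θ).natDegree := by
    rw [minpoly.two_le_natDegree_iff hint]
    rintro ⟨a, ha⟩
    have h3 : algebraMap K K' (a : K) + algebraMap K K' 0 * Q.s =
        algebraMap K K' α + algebraMap K K' β * Q.s := by
      rw [← hΘ, ← ha, map_zero, zero_mul, add_zero]
      rfl
    exact hβ (Q.repr_unique h3).2.symm
  have hmin : minpoly (𝓞 K) Θ = Polynomial.X ^ 2 - Polynomial.C t * Polynomial.X - Polynomial.C c :=
    (Polynomial.eq_of_monic_of_dvd_of_natDegree_le (minpoly.monic hint) hmonic hdvd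
      (by rw [hdeg]; exact h2)).symm
  have hL : Algebra.adjoin K {algebraMap (𝓞 K') K' Θ} = ⊤ := by
    rw [eq_top_iff]
    intro x _
    obtain ⟨a, b, hx⟩ := Q.gen x
    have hβ' : algebraMap K K' β ≠ 0 := (map_ne_zero _).2 hβ
    have h1 : x = algebraMap K K' (a - b * α / β) + algebraMap K K' (b / β) * algebraMap (𝓞 K') K' Θ := by
      have h4 : algebraMap (𝓞 K') K' Θ = (Θ : K') := rfl
      rw [h4, hΘ, hx]
      simp only [map_sub, map_mul, map_div₀]
      field_simp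
      ring
    rw [h1]
    exact add_mem (Subalgebra.algebraMap_mem _ _) (mul_mem (Subalgebra.algebraMap_mem _ _)
      (Algebra.subset_adjoin rfl))
  have h := aeval_derivative_mem_differentIdeal (𝓞 K) K K' Θ hL
  rw [hmin] at h
  have h5 : Polynomial.aeval Θ (Polynomial.derivative
      (Polynomial.X ^ 2 - Polynomial.C t * Polynomial.X - Polynomial.C c)) =
      2 * Θ - algebraMap (𝓞 K) (𝓞 K') t := by
    simp only [Polynomial.derivative_sub, Polynomial.derivative_mul, Polynomial.derivative_X_pow,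
      Polynomial.derivative_X, Polynomial.derivative_C, map_sub, map_mul, Polynomial.aeval_X,
      map_pow, map_one, map_zero, Polynomial.aeval_C, zero_mul, zero_add, mul_one, sub_zero]
    norm_num
    exact Or.inl (map_ofNat _ 2)
  rwa [h5] at h

omit Q in
theorem e0a_int {t c : 𝓞 K} {θ : K'}
    (hroot : θ ^ 2 - algebraMap K K' (t : K) * θ - algebraMap K K' (c : K) = 0) : IsIntegral ℤ θ := by
  have h1 : IsIntegral (𝓞 K) θ := by
    refine ⟨Polynomial.X ^ 2 - Polynomial.C t * Polynomial.X - Polynomial.C c, ?_, ?_⟩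
    · monicity!
    · simp only [Polynomial.eval₂_sub, Polynomial.eval₂_pow, Polynomial.eval₂_mul, Polynomial.eval₂_X,
        Polynomial.eval₂_C]
      exact hroot
  exact isIntegral_trans _ h1

/-- [TRY-E0a] the different at a prime where `Q.e` is unramified -/
theorem diff_ur {v : HeightOneSpectrum (𝓞 K)} (h : Ur v Q.e) {P : HeightOneSpectrum (𝓞 K')}
    (hP : P.asIdeal.comap (algebraMap (𝓞 K) (𝓞 K')) = v.asIdeal) : ¬ P.asIdeal ∣ differentIdeal (𝓞 K) (𝓞 K') := by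
  obtain ⟨x, t, c, hx, he, hD⟩ := h
  have hx' : algebraMap K K' x ≠ 0 := (map_ne_zero _).2 hx
  obtain ⟨θ, hθ⟩ : ∃ θ : K', θ = (algebraMap K K' (t : K) + Q.s / algebraMap K K' x) / 2 := ⟨_, rfl⟩
  have hs : (Q.s / algebraMap K K' x) ^ 2 = algebraMap K K' (t : K) ^ 2 + 4 * algebraMap K K' (c : K) := by
    rw [div_pow, Q.hs, he, map_mul, map_pow]
    rw [mul_div_cancel_left₀ _ (pow_ne_zero 2 hx')]
    simp only [map_add, map_mul, map_pow, map_ofNat]
  have hroot : θ ^ 2 - algebraMap K K' (t : K) * θ - algebraMap K K' (c : K) = 0 := by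
    rw [hθ]
    linear_combination (1 / 4 : K') * hs
  obtain ⟨Θ, hΘ⟩ : ∃ Θ : 𝓞 K', (Θ : K') = θ := ⟨⟨θ, e0a_int hroot⟩, rfl⟩
  have hΘr : Θ ^ 2 - algebraMap (𝓞 K) (𝓞 K') t * Θ - algebraMap (𝓞 K) (𝓞 K') c = 0 := by
    apply RingOfIntegers.ext
    rw [← hΘ] at hroot
    exact hroot
  have hmem := e0a_mem Q Θ t c hΘr (α := (t : K) / 2) (β := x⁻¹ / 2) (by
    exact div_ne_zero (inv_ne_zero hx) two_ne_zero) (by
    rw [hΘ, hθ, map_div₀, map_div₀, map_inv₀, map_ofNat]
    field_simp)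
  intro hdvd
  rw [Ideal.dvd_iff_le] at hdvd
  have h1 := P.isPrime.mem_of_pow_mem 2 (I := P.asIdeal) (r := 2 * Θ - algebraMap (𝓞 K) (𝓞 K') t)
  have h2 : (2 * Θ - algebraMap (𝓞 K) (𝓞 K') t) ^ 2 ∈ P.asIdeal := Ideal.pow_mem_of_mem _ (hdvd hmem) 2 (by norm_num)
  have h3 : (2 * Θ - algebraMap (𝓞 K) (𝓞 K') t) ^ 2 = algebraMap (𝓞 K) (𝓞 K') (t ^ 2 + 4 * c) := by
    rw [map_add, map_mul, map_pow, map_ofNat]
    linear_combination 4 * hΘr
  rw [h3] at h2
  apply hD
  rw [← hP]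
  exact h2

/-- [TRY-E0a] the different at a tamely ramified prime -/
theorem diff_od {v : HeightOneSpectrum (𝓞 K)} (h2 : (2 : 𝓞 K) ∉ v.asIdeal) (h : Od v Q.e) {P : HeightOneSpectrum (𝓞 K')}
    (hP : P.asIdeal.comap (algebraMap (𝓞 K) (𝓞 K')) = v.asIdeal) :
    P.asIdeal ∣ differentIdeal (𝓞 K) (𝓞 K') ∧ ¬ P.asIdeal ^ 2 ∣ differentIdeal (𝓞 K) (𝓞 K') := by
  obtain ⟨P0, hu, -, hval⟩ := Q.ram v h
  obtain rfl : P = P0 := (hu P).1 hP
  have h2P : (2 : 𝓞 K') ∉ P.asIdeal := by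
    have := q3_not_mem hP h2
    rwa [map_ofNat] at this
  constructor
  · have h3 : P.asIdeal ^ 2 ∣ v.asIdeal.map (algebraMap (𝓞 K) (𝓞 K')) := by
      rw [Ideal.dvd_iff_le, Ideal.map_le_iff_le_comap]
      intro y hy
      rw [Ideal.mem_comap, ← q3_pow, q3_coe, hval]
      have h4 : v.valuation K (y : K) ≤ WithZero.exp (-(1 : ℕ) : ℤ) := by
        rw [q3_pow, pow_one]
        exact hy
      calc v.valuation K (y : K) ^ 2 ≤ (WithZero.exp (-(1 : ℕ) : ℤ)) ^ 2 := pow_le_pow_left' h4 2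
        _ = WithZero.exp (-(2 : ℕ) : ℤ) := by
          rw [← WithZero.exp_nsmul]
          norm_num
    have := v.isMaximal
    have h5 := pow_sub_one_dvd_differentIdeal (A := 𝓞 K) (B := 𝓞 K') P.asIdeal 2 v.ne_bot h3
    rwa [show 2 - 1 = 1 from rfl, pow_one] at h5
  · obtain ⟨x, b, hx, he, hb, hb2⟩ := h
    have hx' : algebraMap K K' x ≠ 0 := (map_ne_zero _).2 hx
    obtain ⟨θ, hθ⟩ : ∃ θ : K', θ = Q.s / algebraMap K K' x := ⟨_, rfl⟩
    have hs : θ ^ 2 = algebraMap K K' (b : K) := by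
      rw [hθ, div_pow, Q.hs, he, map_mul, map_pow]
      rw [mul_div_cancel_left₀ _ (pow_ne_zero 2 hx')]
    have hroot : θ ^ 2 - algebraMap K K' ((0 : 𝓞 K) : K) * θ - algebraMap K K' (b : K) = 0 := by
      rw [hs]
      simp
    obtain ⟨Θ, hΘ⟩ : ∃ Θ : 𝓞 K', (Θ : K') = θ := ⟨⟨θ, e0a_int hroot⟩, rfl⟩
    have hΘr : Θ ^ 2 - algebraMap (𝓞 K) (𝓞 K') 0 * Θ - algebraMap (𝓞 K) (𝓞 K') b = 0 := by
      apply RingOfIntegers.ext
      rw [← hΘ] at hroot
      exact hroot
    have hmem := e0a_mem Q Θ 0 b hΘr (α := 0) (β := x⁻¹) (inv_ne_zero hx) (by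
      rw [hΘ, hθ, map_inv₀, map_zero]
      field_simp
      ring)
    rw [map_zero, sub_zero] at hmem
    intro hdvd
    rw [Ideal.dvd_iff_le] at hdvd
    have h3 := hdvd hmem
    rw [← q3_pow] at h3
    have h4 : ((2 * Θ : 𝓞 K') : K') = 2 * θ := by
      rw [← hΘ]
      change algebraMap (𝓞 K') K' (2 * Θ) = _
      rw [map_mul, map_ofNat]
    have h5 : P.valuation K' (2 : K') = 1 := by
      have := (q3_one (v := P) (2 : 𝓞 K')).2 h2P
      have e : ((2 : 𝓞 K') : K') = 2 := map_ofNat (algebraMap (𝓞 K') K') 2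
      rwa [e] at this
    rw [h4, map_mul, h5, one_mul] at h3
    have h6 : P.valuation K' θ ^ 2 = v.valuation K (b : K) ^ 2 := by
      rw [← map_pow, hs, hval]
    have h7 : ¬ v.valuation K (b : K) ≤ WithZero.exp (-(2 : ℕ) : ℤ) := by
      rw [q3_pow]
      exact hb2
    apply h7
    have h8 : v.valuation K (b : K) ^ 2 ≤ (WithZero.exp (-(2 : ℕ) : ℤ)) ^ 2 := by
      rw [← h6]
      exact pow_le_pow_left' h3 2
    exact (pow_le_pow_iff_left₀ zero_le zero_le two_ne_zero).1 h8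

end

end TRY
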