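import Pool.Agent.TRY.Defs
import Pool.Agent.TRY.E0
import Pool.Agent.TRX.C1b

set_option autoImplicit false

open NumberField Ideal IsDedekindDomain
open scoped Real Classical

/-! # [TRY-E0b] the discriminants of `F = L(√a)` and of `N = M(√a)` -/

namespace TRY

open TR TU TTS TRX

section
variable {L M : Type} [Field L] [NumberField L] [Field M] [NumberField M] [Algebra L M] [IsTotallyReal L] (D : Dat L M)
  {a : L} {T : Finset (HeightOneSpectrum (𝓞 L))}
include D

/-- [TRY-E0b] signs. PROOF. `exists_admH D ha.nice` (TRX/C1b.lean): `AdmH (classNumber M) t c T`, `star_of_admH`, `Star.unique`: `a (t² + 4c)` (first case) is a square, so `j a < 0` iff `j (t² + 4c) < 0`, and the number of these `j` is even (`TTS.even_neg`, TTS/N2.lean). Second case: the same for `-7 a`: `j a < 0` iff `j (-7a) > 0` (all `≠ 0`):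
`nneg a = g - nneg (-7 a)`, `g = Module.finrank ℚ L = #(L →+* ℝ)` (`TR.card_real`; see the end of `TTS.period_L`, TTS/P5.lean). -/
theorem nneg_parity (ha : SP L a T) : (Star T a → Even (nneg a)) ∧
    (Star T (-7 * a) → ∃ m : ℕ, nneg a + 2 * m = Module.finrank ℚ L) := by
  obtain ⟨t, c, hA⟩ := exists_admH D ha.nice
  have hS := star_of_admH D hA
  set δ : L := ((t ^ 2 + 4 * c : 𝓞 L) : L) with hδ
  have hδ0 : δ ≠ 0 := hS.ne
  have hev := even_neg hA
  have hja : ∀ j : L →+* ℝ, j a ≠ 0 := fun j => (map_ne_zero j).2 ha.ne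
  have hjd : ∀ j : L →+* ℝ, j δ ≠ 0 := fun j => (map_ne_zero j).2 hδ0
  constructor
  · intro h1
    obtain ⟨s, hs⟩ := Star.unique D ha.nice h1 hS
    have hiff : ∀ j : L →+* ℝ, j a < 0 ↔ j δ < 0 := by
      intro j
      have h2 : j a * j δ = j s * j s := by rw [← map_mul, hs, map_mul]
      have h3 : 0 < j a * j δ := lt_of_le_of_ne (by rw [h2]; exact mul_self_nonneg _)
        (mul_ne_zero (hja j) (hjd j)).symm
      constructor
      · intro h4
        by_contra h5
        have h6 := mul_nonpos_of_nonpos_of_nonneg h4.le (not_lt.1 h5)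
        linarith
      · intro h4
        by_contra h5
        have h6 := mul_nonpos_of_nonneg_of_nonpos (not_lt.1 h5) h4.le
        linarith
    unfold nneg
    rw [Finset.filter_congr fun j _ => hiff j]
    exact hev
  · intro h1
    obtain ⟨s, hs⟩ := Star.unique D ha.nice h1 hS
    have hiff : ∀ j : L →+* ℝ, j a < 0 ↔ ¬ j δ < 0 := by
      intro j
      have h2 : -7 * j a * j δ = j s * j s := by
        rw [← map_mul, ← hs, map_mul, map_mul, map_neg, map_ofNat]
      have h3 : 0 < -7 * j a * j δ := lt_of_le_of_ne (by rw [h2]; exact mul_self_nonneg _)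
        (mul_ne_zero (mul_ne_zero (by norm_num) (hja j)) (hjd j)).symm
      constructor
      · intro h4 h5
        have h6 := mul_pos_of_neg_of_neg h4 h5
        linarith
      · intro h4
        by_contra h5
        have h6 := mul_nonneg (not_lt.1 h5) (not_lt.1 h4)
        linarith
    obtain ⟨m, hm⟩ := hev
    refine ⟨m, ?_⟩
    unfold nneg
    rw [Finset.filter_congr fun j _ => hiff j, two_mul, ← hm, add_comm, ← TR.card_real,
      ← Finset.card_univ]
    exact Finset.card_filter_add_card_filter_not (s := (Finset.univ : Finset (L →+* ℝ)))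
      (fun j : L →+* ℝ => j δ < 0)

omit D [NumberField L] [Field M] [NumberField M] [Algebra L M] [IsTotallyReal L] in
theorem e0b_seven (m : ℕ) : padicValRat 2 ((7 : ℚ) ^ m) = 0 := by
  have h2 : ((7 ^ m : ℕ) : ℚ) = 7 ^ m := by push_cast; rfl
  rw [← h2, padicValRat.of_nat, padicValNat.eq_zero_of_not_dvd]
  · rfl
  · exact (((by decide : Odd 7).pow : Odd (7 ^ m))).not_two_dvd_nat

variable {F : Type} [Field F] [NumberField F] [Algebra L F]

/-- [TRY-E0b] PROOF. `star_of_SP D ha` (TRX/C5c.lean). If `Star T Q.e`: `discr_QS` with `R = T` (`ha.nice.two`). If `Star T (-7 Q.e)`: `R = insert v₀ T`, `v₀ = (7)` the prime above 7 (`c5c_seven D`; `v₀ ∉ T` by `n1_seven D`), `Od v₀ Q.e`: `Q.e = (-7)⁻² (-7) (-7 Q.e)`, `Ur v₀ (-7 Q.e)` (`Star.ur`), `Od v₀ (-7)`, `Ur.mul_od`, `od_sq_mul`;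
`v ∉ R`: `ha.ur`. `absNorm v₀ = 7^g` (`TR`/`TRX` or `Ideal.absNorm_span_singleton`, `Algebra.norm_algebraMap`, as in `TRX.c1_seven`, TRX/C1.lean). So `|d_F| = (7^g)^ρ N_T |d_L|²` with `ρ = 0, 1`; with `nneg_parity`: `√7^(g ρ) = q √7^(nneg a)`, `q` a power of `7` (positive or negative exponent). `√(N_T) = √(NS T)`, `√(|d_L|²) = |d_L|`. -/
theorem sqrt_discr_F (Q : QS L F) (ha : SP L Q.e T) : ∃ q : ℚ, 0 < q ∧ padicValRat 2 q = 0 ∧
    √|(discr F : ℝ)| = (q : ℝ) * √7 ^ nneg Q.e * √(NS T : ℝ) * |(discr L : ℝ)| := by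
  have h7p : (0 : ℝ) < √7 := Real.sqrt_pos.2 (by norm_num)
  have h7s : √(7 : ℝ) ^ 2 = 7 := Real.sq_sqrt (by norm_num)
  have hdL : √((|(discr L : ℝ)|) ^ 2) = |(discr L : ℝ)| := Real.sqrt_sq (abs_nonneg _)
  have hF : |(discr F : ℝ)| = ((discr F).natAbs : ℝ) := by
    rw [Nat.cast_natAbs, Int.cast_abs]
  have hL : |(discr L : ℝ)| = ((discr L).natAbs : ℝ) := by
    rw [Nat.cast_natAbs, Int.cast_abs]
  obtain ⟨hp1, hp2⟩ := nneg_parity D ha
  rcases star_of_SP D ha with hS | hS
  · obtain ⟨m, hm⟩ := hp1 hS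
    have hd := discr_QS Q (R := T) (fun v hv => ha.nice.two hv) hS.od hS.ur
    refine ⟨((7 : ℚ) ^ m)⁻¹, by positivity, ?_, ?_⟩
    · rw [padicValRat.inv, e0b_seven, neg_zero]
    · have h1 : √7 ^ nneg Q.e = 7 ^ m := by rw [hm, ← two_mul, pow_mul, h7s]
      have h2 : ((NS T * (discr L).natAbs ^ 2 : ℕ) : ℝ) = (NS T : ℝ) * |(discr L : ℝ)| ^ 2 := by
        rw [hL]
        push_cast
        rfl
      rw [hF, hd, h1]
      show √((NS T * (discr L).natAbs ^ 2 : ℕ) : ℝ) = _
      rw [h2, Real.sqrt_mul (by positivity), hdL]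
      push_cast
      have h3 : (7 : ℝ) ^ m ≠ 0 := by positivity
      rw [inv_mul_cancel₀ h3, one_mul]
  · obtain ⟨m, hm⟩ := hp2 hS
    -- the prime above `7`
    obtain ⟨w₀, huniq, hw2, hw7⟩ := c5c_seven D
    obtain ⟨ha7, -, habs, -⟩ := D.above_seven
    have hne : span {(7 : 𝓞 L)} ≠ ⊥ := by
      rw [Ne, span_singleton_eq_bot]
      norm_num
    have hw₀ : w₀.asIdeal = span {(7 : 𝓞 L)} := by
      have h1 := huniq ⟨span {(7 : 𝓞 L)}, D.h7, hne⟩ (mem_span_singleton_self _)
      rw [← h1]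
    have hmem : (7 : 𝓞 L) ∈ w₀.asIdeal := by
      rw [hw₀]
      exact mem_span_singleton_self _
    have hnT : w₀ ∉ T := fun h => n1_seven D (ha.seven w₀ h) hmem
    have hod₀ : Od w₀ Q.e := by
      have h1 := (hS.ur w₀ hnT).mul_od hw7
      have h2 : -7 * Q.e * -7 = (-7 : L) ^ 2 * Q.e := by ring
      rw [h2] at h1
      exact (od_sq_mul (by norm_num)).1 h1
    have hd := discr_QS Q (R := insert w₀ T)
      (fun v hv => by
        rcases Finset.mem_insert.1 hv with rfl | hv
        · exact hw2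
        · exact ha.nice.two hv)
      (fun v hv => by
        rcases Finset.mem_insert.1 hv with rfl | hv
        · exact hod₀
        · exact ha.od v hv)
      (fun v hv => by
        rw [Finset.mem_insert, not_or] at hv
        exact ha.ur v hv.2 fun h7 => hv.1 (huniq v h7))
    rw [Finset.prod_insert hnT, hw₀, habs] at hd
    refine ⟨(7 : ℚ) ^ m, by positivity, e0b_seven m, ?_⟩
    have h2 : ((7 ^ Module.finrank ℚ L * NS T * (discr L).natAbs ^ 2 : ℕ) : ℝ) =
        (7 : ℝ) ^ Module.finrank ℚ L * ((NS T : ℝ) * |(discr L : ℝ)| ^ 2) := by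
      rw [hL]
      push_cast
      ring
    rw [hF, hd]
    show √((7 ^ Module.finrank ℚ L * NS T * (discr L).natAbs ^ 2 : ℕ) : ℝ) = _
    have h9 : √((7 : ℝ) ^ Module.finrank ℚ L) = √7 ^ Module.finrank ℚ L := by
      rw [← Real.sqrt_sq (pow_nonneg h7p.le (Module.finrank ℚ L)), ← pow_mul, mul_comm, pow_mul,
        h7s]
    rw [h2, Real.sqrt_mul (by positivity), Real.sqrt_mul (by positivity), hdL, h9, ← hm, pow_add,
      pow_mul, h7s]
    push_cast
    ring

variable {N : Type} [Field N] [NumberField N] [Algebra M N]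

/-- [TRY-E0b] PROOF. `discr_QS` for `M`, `N`, `R` = the set of the primes of `M` above `T`: each `v ∈ T` has exactly one prime `P` of `M` above it (`TTS.exists_nice`, TTS/N1.lean), with `N P = (N v)²` (`QS.inert` or `QS.efg` for the extension `M/L`: `⟨-7, D.r, ..⟩ : QS L M`; `above_nice D` gives the valuations; `TU.Q3`; `c7 (N v) = -1`: look at `TTS.above_nice`, `TRX` for `absNorm`;
`ur_neg_seven`, not `Sq v (-7)`: otherwise `QS.split` gives two primes), `Od P a`: `2 ∉ P`, `ur_or_od`, `above_nice` (valuations are equal), `(ha.od v hv).val`. The other primes of `M`: above 7 `ur_seven_of_SP D ha` (TRX/C5c.lean), otherwise `Ur.up`. So `|d_N| = N_T² |d_M|²`, `|d_M| = 7^g |d_L|²` (`D.discr_eq`). -/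
theorem sqrt_discr_N (Q : QS M N) (ha : SP L a T) (hQ : Q.e = algebraMap L M a) :
    √|(discr N : ℝ)| = 7 ^ Module.finrank ℚ L * (NS T : ℝ) * |(discr L : ℝ)| ^ 2 := by
  have hN : |(discr N : ℝ)| = ((discr N).natAbs : ℝ) := by
    rw [Nat.cast_natAbs, Int.cast_abs]
  have hL : |(discr L : ℝ)| = ((discr L).natAbs : ℝ) := by
    rw [Nat.cast_natAbs, Int.cast_abs]
  have hex : ∀ v : T, ∃ P : HeightOneSpectrum (𝓞 M), ∀ R : HeightOneSpectrum (𝓞 M),
      R.asIdeal.comap (algebraMap (𝓞 L) (𝓞 M)) = v.1.asIdeal ↔ R = P := fun v =>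
    exists_nice D (ha.seven v.1 v.2)
  choose f hf using hex
  have hcom : ∀ v : T, (f v).asIdeal.comap (algebraMap (𝓞 L) (𝓞 M)) = v.1.asIdeal := fun v =>
    (hf v (f v)).2 rfl
  have hinj : Function.Injective f := by
    intro v w h
    apply Subtype.ext
    apply HeightOneSpectrum.ext
    rw [← hcom v, ← hcom w, h]
  have hab : ∀ v : T, absNorm (f v).asIdeal = absNorm v.1.asIdeal ^ 2 ∧
      ∀ x : L, (f v).valuation M (algebraMap L M x) = v.1.valuation L x := fun v => by
    obtain ⟨-, h1, h2⟩ := above_nice D (ha.seven v.1 v.2) (hcom v)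
    exact ⟨h1, h2⟩
  have hd := discr_QS Q (R := T.attach.image f)
    (fun P hP => by
      obtain ⟨v, -, rfl⟩ := Finset.mem_image.1 hP
      intro h2
      apply ha.nice.two v.2
      rw [← hcom v, mem_comap, map_ofNat]
      exact h2)
    (fun P hP => by
      obtain ⟨v, -, rfl⟩ := Finset.mem_image.1 hP
      rw [hQ]
      exact Od.up (hcom v) (hab v).2 (ha.od v.1 v.2))
    (fun P hP => by
      rw [hQ]
      by_cases h7 : D.rr ∈ P.asIdeal
      · exact ur_seven_of_SP D ha h7
      · rcases SP.trich D ha P with h | ⟨v, hv, h⟩ | h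
        · exact absurd h h7
        · exfalso
          apply hP
          rw [(hf ⟨v, hv⟩ P).1 h]
          exact Finset.mem_image_of_mem _ (Finset.mem_attach _ _)
        · exact h)
  rw [Finset.prod_image fun v _ w _ h => hinj h, Finset.prod_congr rfl fun v _ => (hab v).1,
    Finset.prod_attach T (fun v => absNorm v.asIdeal ^ 2), Finset.prod_pow, D.discr_eq] at hd
  rw [hN, hd, hL]
  show √(((NS T) ^ 2 * (7 ^ Module.finrank ℚ L * (discr L).natAbs ^ 2) ^ 2 : ℕ) : ℝ) = _
  push_cast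
  rw [← mul_pow, Real.sqrt_sq (by positivity)]
  ring

end

end TRY
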