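import Pool.Agent.TRY.Defs
import Pool.Agent.TTS.Z2

set_option autoImplicit false

open NumberField Ideal IsDedekindDomain ArithmeticFunction
open CM27 CMT GE
open scoped Real Classical

/-! # [TRY-E1] the `L`-functions over `F = L(√a)` -/

namespace TRY

open TR TT TK TU TTS TRX

section
variable {L M : Type} [Field L] [NumberField L] [Field M] [NumberField M] [Algebra L M] [IsTotallyReal L] (D : Dat L M)
  {d : L} {V : Finset (HeightOneSpectrum (𝓞 L))}
include D

/-- [TRY-E1] PROOF. `v ∋ 2`: `v ∉ V` (`H.nice.two`), `7 ∉ v`: `H.ur`. `v ∋ 7`: `u7_of_inert D.h7`. -/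
theorem ld_of_SP (H : SP L d V) : LD L d := by
  refine ⟨H.ne, fun v hv => ?_, fun v hv => Or.inl (u7_of_inert D.h7 v hv)⟩
  refine H.ur v (fun hV => H.nice.two hV hv) ?_
  intro h5
  have h6 : (1 : 𝓞 L) ∈ v.asIdeal := by
    have : (1 : 𝓞 L) = 7 - 3 * 2 := by norm_num
    rw [this]
    exact Ideal.sub_mem _ h5 (Ideal.mul_mem_left _ _ hv)
  exact v.isPrime.ne_top ((Ideal.eq_top_iff_one _).2 h6)

/-- [TRY-E1] PROOF. `H : SP L d V`: `DP L d` (`dp_of`), `exists_normal` as in `TRX.fin_M` (TRX/D3b.lean): `NF L d (classNumber M) t c S`, and `S = V`: `NF.sp D` gives `SP L d S`; `v ∈ V` iff `7 ∉ v` and `v.valuation L d` is not a square (`Od.val`, `Ur.val`, `n1_seven D`), the same for `S`. -/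
theorem nf_of_SP (H : SP L d V) : ∃ t c : 𝓞 L, NF L d (classNumber M) t c V := by
  have hdp : DP L d := by
    refine dp_of D.h7 H.ne ?_
    intro v h7
    by_cases hv : v ∈ V
    · exact Or.inr ⟨H.four v hv, H.seven v hv⟩
    · exact Or.inl (H.ur v hv h7)
  have key : ∀ (t c : 𝓞 L) (S : Finset (HeightOneSpectrum (𝓞 L))),
      NF L d (classNumber M) t c S → S = V := by
    intro t c S hN
    have hS := NF.sp D hN
    ext v
    constructor
    · intro hv
      by_contra hV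
      exact (hS.od v hv).val ((H.ur v hV (n1_seven D (hS.seven v hv))).val)
    · intro hv
      by_contra hV
      exact (H.od v hv).val ((hS.ur v hV (n1_seven D (H.seven v hv))).val)
  rcases hdp with h | h
  · obtain ⟨x, t, c, S, hx, hdx, hA⟩ := exists_normal D h
    have hN : NF L d (classNumber M) t c S := ⟨H.ne, hA, x, hx, Or.inl hdx⟩
    have hSV := key t c S hN
    rw [hSV] at hN
    exact ⟨t, c, hN⟩
  · obtain ⟨x, t, c, S, hx, hdx, hA⟩ := exists_normal D h
    have hN : NF L d (classNumber M) t c S := ⟨H.ne, hA, x, hx, Or.inr hdx⟩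
    have hSV := key t c S hN
    rw [hSV] at hN
    exact ⟨t, c, hN⟩

/-- [TRY-E1] `7` is unramified in `F`, `F` any number field: PROOF. as `TTS.z2_ld` -/
theorem ld_neg_seven {F : Type} [Field F] [NumberField F] (hU : U7 F) : LD F (-7 : F) := by
  refine ⟨by norm_num, fun v hv => ?_, fun v hv => Or.inl (hU v hv)⟩
  apply ur_neg_seven
  intro h5
  have h6 : (1 : 𝓞 F) ∈ v.asIdeal := by
    have : (1 : 𝓞 F) = 7 - 3 * 2 := by norm_num
    rw [this]
    exact Ideal.sub_mem _ h5 (Ideal.mul_mem_left _ _ hv)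
  exact v.isPrime.ne_top ((Ideal.eq_top_iff_one _).2 h6)

variable {F : Type} [Field F] [NumberField F] [Algebra L F] (Q : QS L F)

/-- [TRY-E1] PROOF. `TU.qbc Q (u7_of_inert D.h7)`, `LCW_congr (LD.up Q _ _)`. -/
theorem LCW_F (hd : LD L d) (he : LD L Q.e) (C : WeierstrassCurve.VariableChange F) :
    LCW F (C • Wd (algebraMap L F d)) = LCW L (Wd d) * LCW L (Wd (d * Q.e)) := by
  have hu := u7_of_inert D.h7
  rw [LCW_congr (LD.up Q hu hd), qbc Q hu hd he]

/-- [TRY-E1] PROOF. As `TTS.entire_M` (TTS/Z2.lean, complete) with `LCW_F`. -/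
theorem entire_F (hd : LD L d) (he : LD L Q.e) {Z Z' : ℂ → ℂ} (hZ : SBSD2.IsEntireLSeries (Wd d) Z)
    (hZ' : SBSD2.IsEntireLSeries (Wd (d * Q.e)) Z') (C : WeierstrassCurve.VariableChange F) :
    SBSD2.IsEntireLSeries (C • Wd (algebraMap L F d)) (fun s => Z s * Z' s) := by
  obtain ⟨hd1, hs1⟩ := hZ
  obtain ⟨hd2, hs2⟩ := hZ'
  have h1 := f1_LSeries_eq L (Wd d) rfl
  have h1' := f1_LSeries_eq L (Wd (d * Q.e)) rfl
  have h2 := f1_LSeries_eq F (C • Wd (algebraMap L F d)) (LCW_F D Q hd he C)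
  refine ⟨hd1.mul hd2, fun s hs' => ?_⟩
  obtain ⟨a1, b1⟩ := hs1 s hs'
  obtain ⟨a2, b2⟩ := hs2 s hs'
  have h3 : (Wd d).LSeries s = LSeries (⇑(LCW L (Wd d))) s := by
    rw [← h1]
    rfl
  have h3' : (Wd (d * Q.e)).LSeries s = LSeries (⇑(LCW L (Wd (d * Q.e)))) s := by
    rw [← h1']
    rfl
  have h4 : (C • Wd (algebraMap L F d)).LSeries s =
      LSeries (⇑(LCW L (Wd d) * LCW L (Wd (d * Q.e)))) s := by
    rw [← h2]
    rfl
  rw [h1] at a1
  rw [h1'] at a2
  refine ⟨?_, ?_⟩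
  · rw [h2]
    exact ArithmeticFunction.LSeriesSummable_mul a1 a2
  · rw [h4, ArithmeticFunction.LSeries_mul' a1 a2]
    show Z s * Z' s = _
    rw [b1, b2, h3, h3']

end

end TRY
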