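import Pool.Agent.TRY.Defs
import Pool.Agent.TRX.D14

set_option autoImplicit false

open NumberField Ideal IsDedekindDomain
open scoped Classical

/-! # [TRY-E1b] quadratic subfields of `N` -/

namespace TRY

open TR TU TTS TRX

open Polynomial in
theorem e1b_quad (L : Type) [Field L] [NumberField L] (e : L) (hno : ∀ v : L, v ^ 2 ≠ e) :
    ∃ (M : Type) (_ : Field M) (_ : NumberField M) (_ : Algebra L M) (r : M), r ^ 2 = algebraMap L M e ∧
      ∀ x : M, ∃ a b : L, x = algebraMap L M a + algebraMap L M b * r := by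
  set p : L[X] := X ^ 2 - C e with hp
  have hirr : Irreducible p := d14_irr e hno
  have : Fact (Irreducible p) := ⟨hirr⟩
  have hdeg : p.natDegree = 2 := by rw [hp]; exact natDegree_X_pow_sub_C
  let N : Type := AdjoinRoot p
  let _ : Field N := inferInstanceAs (Field (AdjoinRoot p))
  let _ : Algebra L N := inferInstanceAs (Algebra L (AdjoinRoot p))
  have : CharZero N := charZero_of_injective_algebraMap (algebraMap L N).injective
  have : FiniteDimensional L N := (AdjoinRoot.powerBasis hirr.ne_zero).finite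
  have : FiniteDimensional ℚ N := FiniteDimensional.trans ℚ L N
  have : NumberField N := { to_charZero := inferInstance, to_finiteDimensional := inferInstance }
  let v : N := AdjoinRoot.root p
  have hv : v ^ 2 = algebraMap L N e := by
    have h1 : Polynomial.aeval v p = 0 := by
      rw [AdjoinRoot.aeval_eq, AdjoinRoot.mk_self]
    rw [hp, map_sub, map_pow, aeval_X, aeval_C, sub_eq_zero] at h1
    exact h1
  refine ⟨N, inferInstance, inferInstance, inferInstance, v, hv, ?_⟩
  intro x
  obtain ⟨q, hq, hq2⟩ : ∃ q : L[X], q.degree < 2 ∧ AdjoinRoot.mk p q = x := by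
    obtain ⟨g, hg⟩ := AdjoinRoot.mk_surjective (g := p) x
    refine ⟨g %ₘ p, ?_, ?_⟩
    · have hm : p.Monic := by rw [hp]; exact monic_X_pow_sub_C _ two_ne_zero
      have := degree_modByMonic_lt g hm
      rwa [degree_eq_natDegree hm.ne_zero, hdeg] at this
    · rw [← hg, AdjoinRoot.mk_eq_mk]
      have := modByMonic_add_div g p
      refine ⟨-(g /ₘ p), ?_⟩
      linear_combination this
  refine ⟨q.coeff 0, q.coeff 1, ?_⟩
  have h2 : q = C (q.coeff 1) * X + C (q.coeff 0) := by
    apply eq_X_add_C_of_natDegree_le_one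
    by_cases hq0 : q = 0
    · rw [hq0]
      simp
    · rw [degree_eq_natDegree hq0] at hq
      have : q.natDegree < 2 := by exact_mod_cast hq
      omega
  rw [← hq2]
  conv_lhs => rw [h2]
  rw [map_add, map_mul]
  show AdjoinRoot.of p _ * v + AdjoinRoot.of p _ = AdjoinRoot.of p _ + AdjoinRoot.of p _ * v
  ring

theorem e1b_gen_of_finrank {L M : Type} [Field L] [Field M] [Algebra L M]
    (h : Module.finrank L M = 2) (r : M) (hr : ∀ a : L, algebraMap L M a ≠ r) (x : M) :
    ∃ a b : L, x = algebraMap L M a + algebraMap L M b * r := by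
  have : FiniteDimensional L M := Module.finite_of_finrank_pos (by omega)
  have hli : LinearIndependent L ![(1 : M), r] := by
    rw [LinearIndependent.pair_iff]
    intro a b hab
    have hb : b = 0 := by
      by_contra hb
      apply hr (-a / b)
      rw [Algebra.smul_def, Algebra.smul_def, mul_one] at hab
      have hb' : algebraMap L M b ≠ 0 := by rwa [Ne, map_eq_zero]
      rw [map_div₀, map_neg, div_eq_iff hb']
      linear_combination -hab
    refine ⟨?_, hb⟩
    rw [hb, zero_smul, add_zero, Algebra.smul_def, mul_one, map_eq_zero] at hab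
    exact hab
  have hspan := hli.span_eq_top_of_card_eq_finrank (by simp [h])
  have hx : x ∈ Submodule.span L (Set.range ![(1 : M), r]) := by
    rw [hspan]
    exact Submodule.mem_top
  rw [Matrix.range_cons, Matrix.range_cons, Matrix.range_empty, Set.union_empty,
    Set.singleton_union, Submodule.mem_span_pair] at hx
  obtain ⟨a, b, hab⟩ := hx
  refine ⟨a, b, ?_⟩
  rw [← hab, Algebra.smul_def, Algebra.smul_def, mul_one]

/-- [TRY-E1b] the field `F(√e)`. PROOF. `AdjoinRoot (X ^ 2 - C e)` as in `TRX.d14_quad` (TRX/D14.lean, complete, `e = -7`), `TRX.d14_irr`; `ns`: `algebraMap a = s` would give `a² = e`. -/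
theorem exists_QS_of {K : Type} [Field K] [NumberField K] (e : K) (he : ¬ IsSquare e) :
    ∃ (F : Type) (_ : Field F) (_ : NumberField F) (_ : Algebra K F) (Q : QS K F), Q.e = e := by
  obtain ⟨F, _, _, _, s, hs, hgen⟩ := e1b_quad K e (fun v hv => he ⟨v, by rw [← hv]; ring⟩)
  refine ⟨F, inferInstance, inferInstance, inferInstance, ⟨e, s, hs, hgen, ?_⟩, rfl⟩
  intro a ha
  apply he
  refine ⟨a, (algebraMap K F).injective ?_⟩
  rw [← hs, ← ha, map_mul]
  ring

section
variable {L M N : Type} [Field L] [NumberField L] [Field M] [NumberField M] [Field N] [NumberField N]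
  [Algebra L M] [Algebra M N] [IsTotallyReal L] (D : Dat L M) {a : L}
include D

/-- [TRY-E1b] the field `L(√c)` inside `N = M(√a)`, `a c` a square in `M`. PROOF. `c` is not a square in `M` (otherwise `algebraMap a = Q.e` is a square in `M`, contradiction to `Q.hs`, `Q.ns`), so not in `L`; `exists_QS_of c`: `QF'`. `ρ ∈ N` with `ρ² = c` (`a c = z²`, `z ≠ 0`: `ρ = z / Q.s`). `TRX.d14_lift QF' φ ρ` (`φ` = `L → M → N`) gives `ψ : F' →+* N`, the algebra structure.
`Q' = ⟨-7, algebraMap M N D.r, ..⟩`: `gen`: `x = m + m' Q.s` (`Q.gen`), `m, m' ∈ L + L r` (`D.gen`), `Q.s = z / ρ = z ρ / c`, `z ∈ M`: everything is in `L + L r + L ρ + L r ρ`. `ns`: `r = x + y ρ`, `x, y ∈ L` (`QF'.gen`): `-7 = x² + c y² + 2 x y ρ`, so `ρ ∈ L` (impossible) or `x y = 0`: `y = 0`: `r ∈ L`, impossible (`D.r_not_mem`);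
`x = 0`: `r = y ρ`, `ρ = r/y ∈ M`: `c` is a square in `M`, impossible. (Compare `TRX.exists_N`, TRX/D14.lean.) -/
theorem exists_sub (Q : QS M N) (hQ : Q.e = algebraMap L M a) {c : L} (hc : c ≠ 0)
    (hsq : IsSquare (algebraMap L M a * algebraMap L M c)) :
    ∃ (F' : Type) (_ : Field F') (_ : NumberField F') (_ : Algebra L F') (_ : Algebra F' N) (QF' : QS L F') (Q' : QS F' N),
      QF'.e = c ∧ Q'.e = -7 ∧ Q'.s = algebraMap M N D.r ∧
      ∀ x : L, algebraMap F' N (algebraMap L F' x) = algebraMap M N (algebraMap L M x) := by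
  obtain ⟨z, hz⟩ := hsq
  have hcM : algebraMap L M c ≠ 0 := (map_ne_zero _).2 hc
  have hcN : algebraMap M N (algebraMap L M c) ≠ 0 := (map_ne_zero _).2 hcM
  have hs0 : Q.s ≠ 0 := by
    intro h
    apply Q.ns 0
    rw [map_zero, h]
  have hs := Q.hs
  rw [hQ] at hs
  have hnsqM : ¬ IsSquare (algebraMap L M c) := by
    rintro ⟨w, hw⟩
    have hw0 : w ≠ 0 := by
      rintro rfl
      rw [mul_zero] at hw
      exact hcM hw
    have h1 : algebraMap L M a = (z / w) ^ 2 := by
      rw [hw] at hz
      field_simp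
      linear_combination hz
    have h2 : Q.s ^ 2 = (algebraMap M N (z / w)) ^ 2 := by
      rw [hs, h1, map_pow]
    rcases sq_eq_sq_iff_eq_or_eq_neg.1 h2 with h3 | h3
    · exact Q.ns _ h3.symm
    · apply Q.ns (-(z / w))
      rw [map_neg, h3]
  have hnsqL : ¬ IsSquare c := fun h => hnsqM (h.map (algebraMap L M))
  have hzN : algebraMap M N (algebraMap L M a) * algebraMap M N (algebraMap L M c) =
      algebraMap M N z * algebraMap M N z := by
    rw [← map_mul, hz, map_mul]
  have hρ : (algebraMap M N z / Q.s) ^ 2 = algebraMap M N (algebraMap L M c) := by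
    rw [div_pow, div_eq_iff (pow_ne_zero _ hs0), hs]
    linear_combination -hzN
  have hsρ : Q.s = algebraMap M N z * (algebraMap M N z / Q.s) / algebraMap M N (algebraMap L M c) := by
    rw [eq_div_iff hcN]
    field_simp
    rw [hs]
    linear_combination hzN
  generalize algebraMap M N z / Q.s = ρ at hρ hsρ
  obtain ⟨F', _, _, _, QF', hQF'⟩ := exists_QS_of c hnsqL
  obtain ⟨ψ, hψ1, hψ2⟩ := d14_lift QF' ((algebraMap M N).comp (algebraMap L M)) ρ (by
    rw [hρ, hQF']
    rfl)
  let _ : Algebra F' N := ψ.toAlgebra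
  have hmap : ∀ x : F', algebraMap F' N x = ψ x := fun x => rfl
  have hLN : ∀ x : L, algebraMap F' N (algebraMap L F' x) = algebraMap M N (algebraMap L M x) := by
    intro x
    rw [hmap, hψ1]
    rfl
  have hρ' : algebraMap F' N QF'.s = ρ := by
    rw [hmap]
    exact hψ2
  have hr : algebraMap M N D.r ^ 2 = -7 := by
    rw [← map_pow, D.hr, map_neg, map_ofNat]
  refine ⟨F', inferInstance, inferInstance, inferInstance, inferInstance, QF',
    ⟨-7, algebraMap M N D.r, by rw [hr, map_neg, map_ofNat], ?_, ?_⟩, hQF', rfl, rfl, hLN⟩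
  · intro x
    obtain ⟨m, m', rfl⟩ := Q.gen x
    obtain ⟨a1, b1, rfl⟩ := D.gen m
    obtain ⟨a2, b2, rfl⟩ := D.gen m'
    obtain ⟨u, v, rfl⟩ := D.gen z
    refine ⟨algebraMap L F' a1 + algebraMap L F' ((a2 * u - 7 * b2 * v) / c) * QF'.s,
      algebraMap L F' b1 + algebraMap L F' ((a2 * v + b2 * u) / c) * QF'.s, ?_⟩
    rw [hsρ]
    rw [map_add (algebraMap F' N), map_add (algebraMap F' N), map_mul (algebraMap F' N),
      map_mul (algebraMap F' N), hLN, hLN, hLN, hLN, hρ']
    simp only [map_add, map_mul, map_div₀, map_sub, map_ofNat]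
    field_simp
    linear_combination algebraMap M N (algebraMap L M b2) * algebraMap M N (algebraMap L M v) * ρ * hr
  · intro y hy
    obtain ⟨x1, x2, rfl⟩ := QF'.gen y
    have h0 : (algebraMap L F' x1 + algebraMap L F' x2 * QF'.s) ^ 2 = -7 := by
      apply (algebraMap F' N).injective
      rw [map_pow, hy, hr, map_neg, map_ofNat]
    have hsF := QF'.hs
    rw [hQF'] at hsF
    have h1 : algebraMap L F' (x1 ^ 2 + x2 ^ 2 * c) + algebraMap L F' (2 * x1 * x2) * QF'.s
        = algebraMap L F' (-7) + algebraMap L F' 0 * QF'.s := by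
      simp only [map_add, map_mul, map_pow, map_neg, map_ofNat, map_zero]
      linear_combination h0 - (algebraMap L F' x2) ^ 2 * hsF
    obtain ⟨h2, h3⟩ := QF'.repr_unique h1
    have h4 : x1 = 0 ∨ x2 = 0 := by
      rcases mul_eq_zero.mp h3 with h | h
      · left
        rcases mul_eq_zero.mp h with h | h
        · norm_num at h
        · exact h
      · exact Or.inr h
    rcases h4 with h | h
    · have hx2 : x2 ≠ 0 := by
        intro hb
        rw [h, hb] at h2
        norm_num at h2
      apply hnsqM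
      refine ⟨D.r / algebraMap L M x2, ?_⟩
      have hx2M : algebraMap L M x2 ≠ 0 := (map_ne_zero _).2 hx2
      have h5 : algebraMap L M x2 ^ 2 * algebraMap L M c = -7 := by
        rw [← map_pow, ← map_mul]
        have : x2 ^ 2 * c = -7 := by
          rw [h] at h2
          linear_combination h2
        rw [this, map_neg, map_ofNat]
      have hrM := D.hr
      field_simp
      linear_combination h5 - hrM
    · apply D.r_not_mem x1
      apply (algebraMap M N).injective
      rw [← hLN, ← hy, h, map_zero, zero_mul, add_zero]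

end

section
variable {L M F K : Type} [Field L] [NumberField L] [Field M] [NumberField M] [Field F] [NumberField F] [Field K] [NumberField K]
  [Algebra L M] [Algebra L F] [Algebra F K] [IsTotallyReal L] (D : Dat L M)
include D

/-- [TRY-E1b] `K = F(√-7)` is `M(√a)`. PROOF. `ρ : K`, `ρ² = -7`; `ρ ∉ F` (otherwise `F` contains `L(√-7)`, `Q.e` is a square in `M`: as in the first part of `TRX.exists_N`, TRX/D14.lean, `hno`). `[K : F] = 2`: `K = F + F ρ` (`TR.gen_of_finrank`, as in `XTS.main_sqrt`, TTS/Fin.lean). Then literally as in `TRX.exists_N` (`d14_lift` from `M` to `K`, `D.r ↦ ρ`). -/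
theorem exists_QS_MK (QF : QS L F) (hns : ¬ IsSquare (algebraMap L M QF.e)) (hK : Module.finrank F K = 2)
    (hr : ∃ ρ : K, ρ ^ 2 = -7) :
    ∃ (_ : Algebra M K) (Q : QS M K) (Q' : QS F K), Q.e = algebraMap L M QF.e ∧ Q'.e = -7 ∧ Q'.s = algebraMap M K D.r ∧
      ∀ x : L, algebraMap F K (algebraMap L F x) = algebraMap M K (algebraMap L M x) := by
  -- no square root of -7 in F
  have hno : ∀ x : F, x ^ 2 ≠ -7 := by
    intro x hx
    obtain ⟨a, b, rfl⟩ := QF.gen x
    have h1 : algebraMap L F (a ^ 2 + b ^ 2 * QF.e) + algebraMap L F (2 * a * b) * QF.s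
        = algebraMap L F (-7) + algebraMap L F 0 * QF.s := by
      have hs := QF.hs
      simp only [map_add, map_mul, map_pow, map_neg, map_ofNat, map_zero]
      linear_combination hx - (algebraMap L F b) ^ 2 * hs
    obtain ⟨h2, h3⟩ := QF.repr_unique h1
    have h4 : a = 0 ∨ b = 0 := by
      rcases mul_eq_zero.mp h3 with h | h
      · left
        rcases mul_eq_zero.mp h with h | h
        · norm_num at h
        · exact h
      · exact Or.inr h
    rcases h4 with h | h
    · have hb : b ≠ 0 := by
        intro hb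
        rw [h, hb] at h2
        norm_num at h2
      apply hns
      refine ⟨algebraMap L M b⁻¹ * D.r, ?_⟩
      have h5 : QF.e = -7 * (b⁻¹) ^ 2 := by
        rw [h] at h2
        field_simp
        linear_combination h2
      rw [h5]
      have hr := D.hr
      simp only [map_mul, map_neg, map_pow, map_ofNat]
      linear_combination (-(algebraMap L M b⁻¹) ^ 2) * hr
    · have h5 : a ^ 2 = -7 := by
        rw [h] at h2
        linear_combination h2
      obtain ⟨j⟩ := nonempty_real L
      have h6 : (j a) ^ 2 = -7 := by rw [← map_pow, h5, map_neg, map_ofNat]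
      nlinarith [sq_nonneg (j a)]
  obtain ⟨ρ, hρ⟩ := hr
  have hρF : ∀ x : F, algebraMap F K x ≠ ρ := by
    intro x hx
    apply hno x
    apply (algebraMap F K).injective
    rw [map_pow, hx, hρ, map_neg, map_ofNat]
  have hgen : ∀ x : K, ∃ a b : F, x = algebraMap F K a + algebraMap F K b * ρ :=
    e1b_gen_of_finrank hK ρ hρF
  obtain ⟨ψ, hψ1, hψ2⟩ := d14_lift (⟨-7, D.r, by rw [D.hr, map_neg, map_ofNat], D.gen, D.r_not_mem⟩ : QS L M)
    ((algebraMap F K).comp (algebraMap L F)) ρ (by
      rw [hρ, map_neg, map_ofNat])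
  let _ : Algebra M K := ψ.toAlgebra
  have hmap : ∀ x : M, algebraMap M K x = ψ x := fun x => rfl
  have hLN : ∀ x : L, algebraMap F K (algebraMap L F x) = algebraMap M K (algebraMap L M x) := by
    intro x
    rw [hmap, hψ1]
    rfl
  have hr : algebraMap M K D.r = ρ := by
    rw [hmap]
    exact hψ2
  refine ⟨inferInstance,
    ⟨algebraMap L M QF.e, algebraMap F K QF.s, ?_, ?_, ?_⟩,
    ⟨-7, ρ, by rw [hρ, map_neg, map_ofNat], hgen, hρF⟩, rfl, rfl, hr.symm, hLN⟩
  · rw [← map_pow, QF.hs, hLN]
  · intro x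
    obtain ⟨u, w, rfl⟩ := hgen x
    obtain ⟨a, b, rfl⟩ := QF.gen u
    obtain ⟨a', b', rfl⟩ := QF.gen w
    refine ⟨algebraMap L M a + algebraMap L M a' * D.r, algebraMap L M b + algebraMap L M b' * D.r, ?_⟩
    rw [map_add, map_add, map_add, map_add, map_mul, map_mul, map_mul, map_mul, hLN, hLN, hLN, hLN, hr]
    ring
  · intro m hm
    apply hns
    refine ⟨m, ?_⟩
    apply (algebraMap M K).injective
    rw [← hLN, ← QF.hs, map_pow, ← hm, map_mul]
    ring

end

end TRY
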