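import Pool.Agent.TRY.E1
import Pool.Agent.TRY.E1b

set_option autoImplicit false

open NumberField Ideal IsDedekindDomain ArithmeticFunction
open CM27 CMT GE
open scoped Real Classical

/-! # [TRY-E1c] the `L`-functions over `N = M(√a)` -/

namespace TRY

open TR TT TK TU TTS TRX

section
variable {L M N : Type} [Field L] [NumberField L] [Field M] [NumberField M] [Field N] [NumberField N]
  [Algebra L M] [Algebra M N] [IsTotallyReal L] (D : Dat L M) {d a : L} {V T : Finset (HeightOneSpectrum (𝓞 L))}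
include D

theorem e1c_key (Q : QS M N) (hQ : Q.e = algebraMap L M a) (hd : SP L d V) (ha : SP L a T) {c : L}
    (hc : Star T c) (hsq : IsSquare (algebraMap L M a * algebraMap L M c))
    (hdc : LCW L (Wd (d * c)) = LCW L (Wd (d * a)))
    (C : WeierstrassCurve.VariableChange N) :
    LCW N (C • Wd (algebraMap M N (algebraMap L M d))) =
      (LCW L (Wd d) * LCW L (Wd (d * a))) * (LCW L (Wd d) * LCW L (Wd (d * a))) := by
  obtain ⟨F', _, _, _, _, QF', Q', hQF, hQe, -, hLN⟩ := exists_sub D Q hQ hc.ne hsq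
  have hu : U7 L := u7_of_inert D.h7
  have hU : U7 F' := by
    refine U7.up QF' hu fun v hv => ?_
    rw [hQF]
    exact hc.ur v fun hvT => n1_seven D (ha.seven v hvT) hv
  have hld : LD L d := ld_of_SP D hd
  have hlc : LD L QF'.e := by
    rw [hQF]
    refine ⟨hc.ne, fun v hv => ?_, fun v hv => Or.inl (hu v hv)⟩
    exact hc.ur v fun hvT => ha.nice.two hvT hv
  have hd' : LD F' (algebraMap L F' d) := LD.up QF' hu hld
  have h1 := qbc Q' hU hd' (by rw [hQe]; exact ld_neg_seven D hU)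
  have h2 : algebraMap L F' d * Q'.e = -7 * algebraMap L F' d := by
    rw [hQe]
    ring
  rw [h2, LCW_neg_seven hU hd', qbc QF' hu hld hlc, hQF, hdc] at h1
  rw [← hLN, LCW_congr (LD.up Q' hU hd'), h1]

/-- [TRY-E1c] PROOF. `star_of_SP D ha`: `c = a` or `c = -7 a` with `Star T c`; `a c` is a square in `M` (`-7 = r²`). `exists_sub D Q hQ`: `F' = L(√c) ⊂ N`, `QF'`, `Q'`. `U7 F'` (`U7.up QF' (u7_of_inert D.h7)`, `Ur v c` for `v ∋ 7`: `Star.ur`, the primes of `T` do not contain 7: `n1_seven D`). `hd' : LD L d`, `LD L c` (`ld_of_SP`; `SP L c T` from `ha`: `ur_neg_seven`, or directly).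
`TU.qbc Q' (U7 F') (LD.up QF' _ hd') (ld_neg_seven ..)`, `LCW_neg_seven (U7 F')`: `LCW N (Wd d) = (LCW F' (Wd d))²`, `LCW_F D QF'`: `LCW F' (Wd d) = LCW L (Wd d) * LCW L (Wd (d c))`, and `LCW L (Wd (d (-7 a))) = LCW L (Wd (d a))` (`LCW_neg_seven (u7_of_inert D.h7)`). `LCW_congr (LD.up Q' _ _)` for `C`. -/
theorem LCW_N (Q : QS M N) (hQ : Q.e = algebraMap L M a) (hd : SP L d V) (ha : SP L a T)
    (C : WeierstrassCurve.VariableChange N) :
    LCW N (C • Wd (algebraMap M N (algebraMap L M d))) =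
      (LCW L (Wd d) * LCW L (Wd (d * a))) * (LCW L (Wd d) * LCW L (Wd (d * a))) := by
  rcases star_of_SP D ha with h | h
  · exact e1c_key D Q hQ hd ha h ⟨_, rfl⟩ rfl C
  · refine e1c_key D Q hQ hd ha h ⟨D.r * algebraMap L M a, ?_⟩ ?_ C
    · have hr := D.hr
      rw [map_mul, map_neg, map_ofNat]
      linear_combination (-(algebraMap L M a) ^ 2) * hr
    · have hu : U7 L := u7_of_inert D.h7
      have h2 : d * (-7 * a) = -7 * (d * a) := by ring
      rw [h2, LCW_neg_seven hu ((ld_of_SP D hd).mul hu (ld_of_SP D ha))]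

/-- [TRY-E1c] PROOF. As `TTS.entire_M` (TTS/Z2.lean, complete) with `LCW_N`. -/
theorem entire_N (Q : QS M N) (hQ : Q.e = algebraMap L M a) (hd : SP L d V) (ha : SP L a T)
    {Z Z' : ℂ → ℂ} (hZ : SBSD2.IsEntireLSeries (Wd d) Z) (hZ' : SBSD2.IsEntireLSeries (Wd (d * a)) Z')
    (C : WeierstrassCurve.VariableChange N) :
    SBSD2.IsEntireLSeries (C • Wd (algebraMap M N (algebraMap L M d))) (fun s => (Z s * Z' s) * (Z s * Z' s)) := by
  obtain ⟨hd1, hs1⟩ := hZ
  obtain ⟨hd2, hs2⟩ := hZ'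
  have h1 := f1_LSeries_eq L (Wd d) rfl
  have h1' := f1_LSeries_eq L (Wd (d * a)) rfl
  have h2 := f1_LSeries_eq N (C • Wd (algebraMap M N (algebraMap L M d))) (LCW_N D Q hQ hd ha C)
  refine ⟨(hd1.mul hd2).mul (hd1.mul hd2), fun s hs' => ?_⟩
  obtain ⟨a1, b1⟩ := hs1 s hs'
  obtain ⟨a2, b2⟩ := hs2 s hs'
  have h3 : (Wd d).LSeries s = LSeries (⇑(LCW L (Wd d))) s := by
    rw [← h1]
    rfl
  have h3' : (Wd (d * a)).LSeries s = LSeries (⇑(LCW L (Wd (d * a)))) s := by
    rw [← h1']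
    rfl
  have h4 : (C • Wd (algebraMap M N (algebraMap L M d))).LSeries s =
      LSeries (⇑((LCW L (Wd d) * LCW L (Wd (d * a))) * (LCW L (Wd d) * LCW L (Wd (d * a))))) s := by
    rw [← h2]
    rfl
  rw [h1] at a1
  rw [h1'] at a2
  have a3 := ArithmeticFunction.LSeriesSummable_mul a1 a2
  refine ⟨?_, ?_⟩
  · rw [h2]
    exact ArithmeticFunction.LSeriesSummable_mul a3 a3
  · rw [h4, ArithmeticFunction.LSeries_mul' a3 a3, ArithmeticFunction.LSeries_mul' a1 a2]
    show (Z s * Z' s) * (Z s * Z' s) = _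
    rw [b1, b2, h3, h3']

end

end TRY
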