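import Pool.Agent.TRY.Defs
import Pool.Agent.TRX.D3a
import Pool.Agent.TRX.D3b
import Pool.Agent.TRX.D3c
import Pool.Agent.TTS.T6

set_option autoImplicit false

open NumberField Ideal IsDedekindDomain WeierstrassCurve.Affine
open scoped Classical

/-! # [TRY-E2] the torsion over `N` and over `F` -/

namespace TRY

open TR TU TTS TRX

section
variable {L M N : Type} [Field L] [NumberField L] [Field M] [NumberField M] [Field N] [NumberField N]
  [Algebra L M] [Algebra M N] [IsTotallyReal L] (D : Dat L M) {d a : L} {V T : Finset (HeightOneSpectrum (𝓞 L))}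
  (Q : QS M N)
include D

omit [IsTotallyReal L] in
theorem e2_hr : (algebraMap M N D.r) ^ 2 = -7 := by
  rw [← map_pow, D.hr, map_neg, map_ofNat]

theorem e2_fin (hd : SP L d V) (ha : SP L a T) (hQ : Q.e = algebraMap L M a) :
    Finite (Ws (algebraMap M N (algebraMap L M d))).toAffine.Point := by
  refine finite_N Q ((map_ne_zero _).2 hd.ne) D.hr (fin_M D hd) ?_
  rw [hQ]
  exact fin_M_mul D hd ha

theorem e2_half (hd : SP L d V) (ha : SP L a T) (hQ : Q.e = algebraMap L M a)
    (hd0 : algebraMap M N (algebraMap L M d) ≠ 0) (hr : (algebraMap M N D.r) ^ 2 = -7)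
    (R : (Ws (algebraMap M N (algebraMap L M d))).toAffine.Point) :
    (2 : ℕ) • R ≠ T1 hd0 hr ∧ (2 : ℕ) • R ≠ T2 hd0 hr ∧ (2 : ℕ) • R ≠ T3 hd0 := by
  obtain ⟨s1, s2⟩ := dr_not_sq_N D Q hd ha hQ
  rw [map_mul] at s1 s2
  exact not_half hd0 hr s1 s2 R

/-- [TRY-E2] PROOF. `TRX.finite_N` (TRX/D3c.lean) with `fin_M D hd`, `fin_M_mul D hd ha` (TRX/D3b.lean); then as `TTS.card_M` (TTS/T6.lean, complete) with `TRX.dr_not_sq_N` (TRX/D3a.lean; `algebraMap (d * r) = algebraMap d * algebraMap r`). -/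
theorem tors_N (hd : SP L d V) (ha : SP L a T) (hQ : Q.e = algebraMap L M a) (C : WeierstrassCurve.VariableChange N) :
    Finite (C • Ws (algebraMap M N (algebraMap L M d))).toAffine.Point ∧ ∃ m : ℕ, Odd m ∧
      Nat.card (AddCommGroup.torsion (C • Ws (algebraMap M N (algebraMap L M d))).toAffine.Point) = 4 * m := by
  have hfin := e2_fin D Q hd ha hQ
  obtain ⟨e⟩ := exists_vc (algebraMap M N (algebraMap L M d)) C
  have hf : Finite (C • Ws (algebraMap M N (algebraMap L M d))).toAffine.Point :=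
    Finite.of_equiv _ e.symm.toEquiv
  refine ⟨hf, ?_⟩
  have hd0 : algebraMap M N (algebraMap L M d) ≠ 0 := (map_ne_zero _).2 ((map_ne_zero _).2 hd.ne)
  have hr : (algebraMap M N D.r) ^ 2 = -7 := e2_hr D
  rw [t6_tor, Nat.card_congr e.toEquiv]
  obtain ⟨k1, k2, k3, k4, k5, k6⟩ := T_ne hd0 hr
  exact card_four_odd (T1 hd0 hr) (T2 hd0 hr) (T3 hd0) k1 k2 k3 k4 k5 k6
    (two_nsmul_eq_zero hd0 hr) (e2_half D Q hd ha hQ hd0 hr)

variable {F : Type} [Field F] [NumberField F] [Algebra L F] [Algebra F N] (Q' : QS F N)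

/-- [TRY-E2] PROOF. As `TTS.card_L` (TTS/T6.lean, complete) with the extension `N / F` in place of `M / L`: `r ∉ F` is `Q'.ns` (`hs`), finiteness and `not_half` over `N` from `tors_N`, `dr_not_sq_N`, `hcomp`. -/
theorem tors_F (hd : SP L d V) (ha : SP L a T) (hQ : Q.e = algebraMap L M a)
    (hcomp : ∀ x : L, algebraMap F N (algebraMap L F x) = algebraMap M N (algebraMap L M x))
    (hs : Q'.s = algebraMap M N D.r) (C : WeierstrassCurve.VariableChange F) :
    Finite (C • Ws (algebraMap L F d)).toAffine.Point ∧ ∃ m : ℕ, Odd m ∧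
      Nat.card (AddCommGroup.torsion (C • Ws (algebraMap L F d)).toAffine.Point) = 2 * m := by
  have hfin := e2_fin D Q hd ha hQ
  have hr : (algebraMap M N D.r) ^ 2 = -7 := e2_hr D
  have hd0 : algebraMap M N (algebraMap L M d) ≠ 0 := (map_ne_zero _).2 ((map_ne_zero _).2 hd.ne)
  have hhalf := e2_half D Q hd ha hQ hd0 hr
  have hrm : ∀ x : F, algebraMap F N x ≠ algebraMap M N D.r := by
    intro x hx
    apply Q'.ns x
    rw [hx, hs]
  have hde : algebraMap F N (algebraMap L F d) = algebraMap M N (algebraMap L M d) := hcomp d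
  have hdF : algebraMap L F d ≠ 0 := (map_ne_zero _).2 hd.ne
  generalize algebraMap M N (algebraMap L M d) = δ at hfin hd0 hhalf hde
  generalize algebraMap M N D.r = r at hr hrm hhalf
  generalize algebraMap L F d = δ' at hdF hde ⊢
  obtain ⟨e⟩ := exists_vc δ' C
  have hinj : Function.Injective (ptH (algebraMap F N) hde) := ptH_injective _ _
  have hfL : Finite (Ws δ').toAffine.Point := Finite.of_injective _ hinj
  have hf : Finite (C • Ws δ').toAffine.Point := Finite.of_equiv _ e.symm.toEquiv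
  refine ⟨hf, ?_⟩
  rw [t6_tor, Nat.card_congr e.toEquiv]
  have hT3 : ptH (algebraMap F N) hde (T3 hdF) = T3 hd0 := ptH_T3 hdF _ hde hd0
  have hne1 : ∀ R : (Ws δ').toAffine.Point, ptH (algebraMap F N) hde R ≠ T1 hd0 hr := by
    intro R hR
    have hR0 : R ≠ 0 := by
      rintro rfl
      rw [map_zero] at hR
      exact (T_ne hd0 hr).1 hR.symm
    obtain ⟨X, Y, h, rfl⟩ := exists_mkP hdF R hR0
    obtain ⟨h', hh⟩ := ptH_mkP (algebraMap F N) hde hdF hd0 h
    rw [hh] at hR
    unfold TTS.T1 at hR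
    rw [mkP_inj] at hR
    apply hrm (2 * X / δ' + 7)
    have h1 := hR.1
    unfold e1 at h1
    rw [map_add, map_div₀, map_mul, h1, map_ofNat, map_ofNat, hde]
    field_simp
    ring
  have hne2 : ∀ R : (Ws δ').toAffine.Point, ptH (algebraMap F N) hde R ≠ T2 hd0 hr := by
    intro R hR
    have hR0 : R ≠ 0 := by
      rintro rfl
      rw [map_zero] at hR
      exact (T_ne hd0 hr).2.1 hR.symm
    obtain ⟨X, Y, h, rfl⟩ := exists_mkP hdF R hR0
    obtain ⟨h', hh⟩ := ptH_mkP (algebraMap F N) hde hdF hd0 h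
    rw [hh] at hR
    unfold TTS.T2 at hR
    rw [mkP_inj] at hR
    apply hrm (-(2 * X / δ' + 7))
    have h1 := hR.1
    unfold e2 at h1
    rw [map_neg, map_add, map_div₀, map_mul, h1, map_ofNat, map_ofNat, hde]
    field_simp
    ring
  refine TRS.card_two_odd (A := (Ws δ').toAffine.Point) (T3 hdF) (mkP_ne_zero hdF _) ?_ ?_
  · intro R
    have h1 := two_nsmul_eq_zero hd0 hr (ptH (algebraMap F N) hde R)
    rw [← map_nsmul, ← map_zero (ptH (algebraMap F N) hde), hinj.eq_iff, ← hT3,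
      hinj.eq_iff, hinj.eq_iff] at h1
    rw [h1]
    constructor
    · rintro (h | h | h | h)
      · exact Or.inl h
      · exact absurd h (hne1 R)
      · exact absurd h (hne2 R)
      · exact Or.inr h
    · rintro (h | h)
      · exact Or.inl h
      · exact Or.inr (Or.inr (Or.inr h))
  · intro R hR
    apply (hhalf (ptH (algebraMap F N) hde R)).2.2
    rw [← map_nsmul, hR, hT3]

end

end TRY
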