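import Pool.Agent.TRY.Defs
import Pool.Agent.TU.Q3

set_option autoImplicit false

open NumberField Ideal IsDedekindDomain
open scoped Classical

/-! # [TRY-E3a] products over the primes of a quadratic extension -/

namespace TRY

open TR TU TTS TRX

section
variable {K K' : Type} [Field K] [NumberField K] [Field K'] [NumberField K'] [Algebra K K']

/-- the product of the values of `f` at the primes above `v` is `n` -/
def Above (f : HeightOneSpectrum (𝓞 K') → ℕ) (v : HeightOneSpectrum (𝓞 K)) (n : ℕ) : Prop :=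
  (∃ P : HeightOneSpectrum (𝓞 K'),
    (∀ R : HeightOneSpectrum (𝓞 K'), R.asIdeal.comap (algebraMap (𝓞 K) (𝓞 K')) = v.asIdeal ↔ R = P) ∧ f P = n) ∨
  (∃ P P' : HeightOneSpectrum (𝓞 K'), P ≠ P' ∧
    (∀ R : HeightOneSpectrum (𝓞 K'), R.asIdeal.comap (algebraMap (𝓞 K) (𝓞 K')) = v.asIdeal ↔ R = P ∨ R = P') ∧
    f P * f P' = n)

/-- [TRY-E3a] PROOF. The support of `f` is in the finite set `W` of the primes above `S` (the union over `v ∈ S` of the sets `{P}`, `{P, P'}`; `TU.u6_below P` / `TU.s2_below P` is the prime below `P`: if it is not in `S` then `f P = 1`). `finprod_eq_prod_of_mulSupport_subset`,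
`Finset.prod_fiberwise_of_maps_to` for `P ↦ u6_below P : W → S`; each fiber is `{P}` or `{P, P'}`. -/
theorem finprod_above (S : Finset (HeightOneSpectrum (𝓞 K))) (f : HeightOneSpectrum (𝓞 K') → ℕ)
    (g : HeightOneSpectrum (𝓞 K) → ℕ)
    (h1 : ∀ (P : HeightOneSpectrum (𝓞 K')) (v : HeightOneSpectrum (𝓞 K)),
      P.asIdeal.comap (algebraMap (𝓞 K) (𝓞 K')) = v.asIdeal → v ∉ S → f P = 1)
    (h2 : ∀ v ∈ S, Above f v (g v)) : ∏ᶠ P : HeightOneSpectrum (𝓞 K'), f P = ∏ v ∈ S, g v := by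
  have hT : ∀ v ∈ S, ∃ T : Finset (HeightOneSpectrum (𝓞 K')),
      (∀ R : HeightOneSpectrum (𝓞 K'), R ∈ T ↔ R.asIdeal.comap (algebraMap (𝓞 K) (𝓞 K')) = v.asIdeal) ∧
        ∏ P ∈ T, f P = g v := by
    intro v hv
    rcases h2 v hv with ⟨P, hP, hf⟩ | ⟨P, P', hne, hP, hf⟩
    · refine ⟨{P}, fun R => ?_, ?_⟩
      · rw [Finset.mem_singleton, hP]
      · rw [Finset.prod_singleton, hf]
    · refine ⟨{P, P'}, fun R => ?_, ?_⟩
      · rw [Finset.mem_insert, Finset.mem_singleton, hP]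
      · rw [Finset.prod_pair hne, hf]
  choose! T hT1 hT2 using hT
  have hsub : Function.mulSupport f ⊆ ((S.biUnion T : Finset (HeightOneSpectrum (𝓞 K'))) :
      Set (HeightOneSpectrum (𝓞 K'))) := by
    intro P hP
    rw [Function.mem_mulSupport] at hP
    have hb : P.asIdeal.comap (algebraMap (𝓞 K) (𝓞 K')) = (TK.s2_below (L := K) P).asIdeal := rfl
    have hS : TK.s2_below (L := K) P ∈ S := by
      by_contra h
      exact hP (h1 P _ hb h)
    rw [Finset.mem_coe, Finset.mem_biUnion]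
    exact ⟨_, hS, (hT1 _ hS P).2 hb⟩
  rw [finprod_eq_prod_of_mulSupport_subset f hsub, Finset.prod_biUnion]
  · exact Finset.prod_congr rfl hT2
  · intro v hv w hw hvw
    rw [Function.onFun, Finset.disjoint_left]
    intro P hPv hPw
    exact hvw (HeightOneSpectrum.ext (((hT1 v hv P).1 hPv).symm.trans ((hT1 w hw P).1 hPw)))

end

end TRY
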