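import Pool.Agent.TTS.T3s
import Pool.Agent.TTS.T3
import Pool.Agent.TTS.T4
import Pool.Agent.TTS.S2b

set_option autoImplicit false

open NumberField Ideal IsDedekindDomain WeierstrassCurve.Affine
open scoped Classical

/-! # [TRY-E3b] the Tamagawa number at a ramified prime above 7 which does not split in `F(√-7)` (type I₀*, two components over the field) -/

namespace TRY

open TR TU TTS

/-- the quadratic factor of the cubic, `1` at infinity -/
noncomputable def e3b_f {K : Type} [Field K] {d : K} (P : (Ws d).toAffine.Point) : K :=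
  if P = 0 then 1 else xP P ^ 2 + 7 * d * xP P + 14 * d ^ 2

theorem e3b_line {K : Type} [Field K] {d X1 Y1 X2 X3 lam : K}
    (h1 : Y1 ^ 2 = X1 ^ 3 - 35 * d ^ 2 * X1 - 98 * d ^ 3)
    (h3 : X3 = lam ^ 2 - X1 - X2)
    (hs : X1 * X2 + X1 * X3 + X2 * X3 = -35 * d ^ 2 - 2 * lam * (Y1 - lam * X1)) :
    (X1 ^ 2 + 7 * d * X1 + 14 * d ^ 2) * (X2 ^ 2 + 7 * d * X2 + 14 * d ^ 2) *
      (X3 ^ 2 + 7 * d * X3 + 14 * d ^ 2) =
      ((Y1 - lam * X1) ^ 2 - 7 * d * (Y1 - lam * X1) * lam + 14 * d ^ 2 * lam ^ 2) ^ 2 := by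
  have e3 : X1 + X2 + X3 = lam ^ 2 := by rw [h3]; ring
  have hp : X1 * X2 * X3 = 98 * d ^ 3 + (Y1 - lam * X1) ^ 2 := by
    linear_combination X1 * hs - X1 ^ 2 * e3 - h1
  set c : K := Y1 - lam * X1 with hc
  have hA : 35 * d ^ 2 + 7 * d * (X1 + X2 + X3) + (X1 * X2 + X1 * X3 + X2 * X3) =
      7 * d * lam ^ 2 - 2 * lam * c := by
    rw [e3, hs]; ring
  have hB : 98 * d ^ 3 + 14 * d ^ 2 * (X1 + X2 + X3) - X1 * X2 * X3 =
      14 * d ^ 2 * lam ^ 2 - c ^ 2 := by
    rw [e3, hp]; ring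
  have key : (X1 ^ 2 + 7 * d * X1 + 14 * d ^ 2) * (X2 ^ 2 + 7 * d * X2 + 14 * d ^ 2) *
      (X3 ^ 2 + 7 * d * X3 + 14 * d ^ 2) =
      14 * d ^ 2 * (35 * d ^ 2 + 7 * d * (X1 + X2 + X3) + (X1 * X2 + X1 * X3 + X2 * X3)) ^ 2 -
      7 * d * (35 * d ^ 2 + 7 * d * (X1 + X2 + X3) + (X1 * X2 + X1 * X3 + X2 * X3)) *
        (98 * d ^ 3 + 14 * d ^ 2 * (X1 + X2 + X3) - X1 * X2 * X3) +
      (98 * d ^ 3 + 14 * d ^ 2 * (X1 + X2 + X3) - X1 * X2 * X3) ^ 2 := by
    ring
  rw [key, hA, hB]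
  ring

/-- the product of three values is the square of a norm -/
theorem e3b_add {K : Type} [Field K] [CharZero K] {d : K} (hd : d ≠ 0)
    (P Q : (Ws d).toAffine.Point) :
    (∃ R : (Ws d).toAffine.Point, e3b_f P * e3b_f Q * e3b_f (P + Q) = e3b_f R ^ 2) ∨
      ∃ c lam : K, e3b_f P * e3b_f Q * e3b_f (P + Q) =
        (c ^ 2 - 7 * d * c * lam + 14 * d ^ 2 * lam ^ 2) ^ 2 := by
  have hzero : e3b_f (0 : (Ws d).toAffine.Point) = 1 := if_pos rfl
  have hmk : ∀ {X Y : K} (h : Y ^ 2 = X ^ 3 - 35 * d ^ 2 * X - 98 * d ^ 3),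
      e3b_f (mkP hd X Y h) = X ^ 2 + 7 * d * X + 14 * d ^ 2 := by
    intro X Y h
    unfold e3b_f
    rw [if_neg (mkP_ne_zero hd h), (xP_mkP hd h).1]
  have hneg : ∀ R : (Ws d).toAffine.Point, e3b_f (-R) = e3b_f R := by
    intro R
    by_cases hR : R = 0
    · rw [hR, neg_zero]
    · obtain ⟨X, Y, h, rfl⟩ := exists_mkP hd R hR
      rw [neg_mkP, hmk, hmk]
  by_cases hP : P = 0
  · left
    exact ⟨Q, by rw [hP, zero_add, hzero, one_mul, pow_two]⟩
  by_cases hQ : Q = 0
  · left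
    exact ⟨P, by rw [hQ, add_zero, hzero, mul_one, pow_two]⟩
  by_cases hPQ : P + Q = 0
  · left
    have : Q = -P := by
      rw [← neg_eq_iff_add_eq_zero.2 hPQ]
    exact ⟨P, by rw [this, add_neg_cancel, hzero, hneg, mul_one, pow_two]⟩
  right
  obtain ⟨X1, Y1, h1, rfl⟩ := exists_mkP hd P hP
  obtain ⟨X2, Y2, h2, rfl⟩ := exists_mkP hd Q hQ
  obtain ⟨X3, Y3, h3, e3⟩ := exists_mkP hd _ hPQ
  rw [e3, hmk, hmk, hmk]
  by_cases hX : X1 = X2
  · -- doubling
    have hY : Y1 = Y2 := by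
      have : (Y1 - Y2) * (Y1 + Y2) = 0 := by
        subst hX
        linear_combination h1 - h2
      rcases mul_eq_zero.1 this with h | h
      · exact sub_eq_zero.1 h
      · exfalso
        apply hPQ
        have : mkP hd X1 Y1 h1 = -mkP hd X2 Y2 h2 := by
          rw [neg_mkP, mkP_inj]
          exact ⟨hX, eq_neg_of_add_eq_zero_left h⟩
        rw [this, neg_add_cancel]
    subst hX
    subst hY
    have hY0 : Y1 ≠ 0 := by
      intro h
      subst h
      apply hPQ
      rw [← two_nsmul]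
      exact two_mkP_zero hd h1
    obtain ⟨Y4, h4, e4⟩ := two_mkP hd h1 hY0
    have e5 : X3 = ((3 * X1 ^ 2 - 35 * d ^ 2) / (2 * Y1)) ^ 2 - 2 * X1 := by
      rw [← two_nsmul, e4, mkP_inj] at e3
      exact e3.1.symm
    have hl : ((3 * X1 ^ 2 - 35 * d ^ 2) / (2 * Y1)) * (2 * Y1) =
        3 * X1 ^ 2 - 35 * d ^ 2 := div_mul_cancel₀ _ (mul_ne_zero two_ne_zero hY0)
    generalize (3 * X1 ^ 2 - 35 * d ^ 2) / (2 * Y1) = lam at e5 hl
    have e6 : X3 = lam ^ 2 - X1 - X1 := by rw [e5]; ring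
    refine ⟨Y1 - lam * X1, lam, e3b_line h1 e6 ?_⟩
    rw [e5]
    linear_combination hl
  · have e5 : X3 = ((Y1 - Y2) / (X1 - X2)) ^ 2 - X1 - X2 := by
      rw [← t0_add hd h1 h2 hX, e3, (xP_mkP hd h3).1]
    have hd : X1 - X2 ≠ 0 := sub_ne_zero.2 hX
    have hl : ((Y1 - Y2) / (X1 - X2)) * (X1 - X2) = Y1 - Y2 := div_mul_cancel₀ _ hd
    generalize (Y1 - Y2) / (X1 - X2) = lam at e5 hl
    refine ⟨Y1 - lam * X1, lam, e3b_line h1 e5 ?_⟩
    apply mul_left_cancel₀ hd
    rw [e5]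
    linear_combination (lam * (X1 + X2) + 2 * (Y1 - lam * X1) - (Y1 - Y2)) * hl + h1 - h2

/-- the valuation of a norm from the unramified quadratic extension -/
theorem e3b_norm {K : Type} [Field K] (V : Valuation K (WithZero (Multiplicative ℤ)))
    (hsq : ∀ u : K, V (u - 1) < 1 → IsSquare u) (h7 : V 7 = WithZero.exp (-2 : ℤ))
    (hns : ¬ IsSquare (-7 : K)) (a b : K) :
    V (a ^ 2 + 7 * b ^ 2) = max (V a ^ 2) (WithZero.exp (-2 : ℤ) * V b ^ 2) := by
  have e1 : V (a ^ 2) = V a ^ 2 := map_pow _ _ _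
  have e2 : V (7 * b ^ 2) = WithZero.exp (-2 : ℤ) * V b ^ 2 := by rw [map_mul, h7, map_pow]
  rcases lt_trichotomy (V (a ^ 2)) (V (7 * b ^ 2)) with h | h | h
  · rw [Valuation.map_add_eq_of_lt_right V h, ← e1, ← e2, max_eq_right h.le]
  · rw [← e1, ← e2, h, max_self]
    by_cases hb : b = 0
    · subst hb
      have ha : V a ^ 2 = 0 := by
        rw [← e1, h]
        simp
      have ha' : a = 0 := by
        have := pow_eq_zero_iff (two_ne_zero) |>.1 ha
        exact (Valuation.zero_iff V).1 this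
      rw [ha']
      simp
    · have h7b : (7 : K) * b ^ 2 ≠ 0 := by
        intro h0
        rw [h0, map_zero] at e2
        have : V b ≠ 0 := (Valuation.ne_zero_iff V).2 hb
        exact mul_ne_zero WithZero.exp_ne_zero (pow_ne_zero 2 this) e2.symm
      have hV7b : V (7 * b ^ 2) ≠ 0 := (Valuation.ne_zero_iff V).2 h7b
      refine le_antisymm ?_ ?_
      · refine (V.map_add _ _).trans ?_
        rw [h, max_self]
      · by_contra hcon
        have hlt : V (a ^ 2 + 7 * b ^ 2) < V (7 * b ^ 2) := not_le.1 hcon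
        obtain ⟨s, hs⟩ := hsq (-(a ^ 2 / (7 * b ^ 2))) (by
          have e : -(a ^ 2 / (7 * b ^ 2)) - 1 = -((a ^ 2 + 7 * b ^ 2) / (7 * b ^ 2)) := by
            rw [add_div, div_self h7b]
            ring
          rw [e, Valuation.map_neg, map_div₀]
          exact (div_lt_one₀ (zero_lt_iff.2 hV7b)).2 hlt)
        have ha0 : a ≠ 0 := by
          rintro rfl
          rw [zero_pow two_ne_zero, map_zero] at h
          exact hV7b h.symm
        have h70 : (7 : K) ≠ 0 := left_ne_zero_of_mul h7b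
        have hs0 : s ≠ 0 := by
          rintro rfl
          rw [mul_zero, neg_eq_zero, div_eq_zero_iff] at hs
          rcases hs with hs | hs
          · exact pow_ne_zero 2 ha0 hs
          · exact h7b hs
        apply hns
        refine ⟨a / (b * s), ?_⟩
        have h5 : a ^ 2 = -(s * s) * (7 * b ^ 2) := by
          rw [← hs, neg_neg, div_mul_cancel₀ _ h7b]
        field_simp
        linear_combination -h5
  · rw [Valuation.map_add_eq_of_lt_left V h, ← e1, ← e2, max_eq_left h.le]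

theorem e3b_max_sq (x y : WithZero (Multiplicative ℤ)) :
    IsSquare (max (x ^ 2) (WithZero.exp (-2 : ℤ) * y ^ 2)) := by
  rcases le_total (x ^ 2) (WithZero.exp (-2 : ℤ) * y ^ 2) with h | h
  · rw [max_eq_right h]
    refine ⟨WithZero.exp (-1 : ℤ) * y, ?_⟩
    have e : WithZero.exp (-2 : ℤ) = WithZero.exp (-1 : ℤ) * WithZero.exp (-1 : ℤ) := by
      rw [← WithZero.exp_add]
      norm_num
    rw [e, pow_two, mul_mul_mul_comm]
  · rw [max_eq_left h]
    exact IsSquare.sq x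

section
variable {F : Type} [Field F] [NumberField F] (v : HeightOneSpectrum (𝓞 F))

/-- [TRY-E3b] PROOF. `K = v.adicCompletion F`, `V = Valued.v`, `V 2 = 1` (as `7 ∈ v`), `-7` is not a square in `K`, and `V 7 = exp (-2)`.
(0) `V (a² + 7 b²)` is a square for all `a, b ∈ K` not both `0`, i.e. `V(a² + 7b²) = max (V a)² (V 7 (V b)²)`: this is clear if the two valuations are different; if they are equal, `b ≠ 0`, `(a/b)² + 7` of valuation `< V 7`: then `-7 (b/a)²` is close to `1` (`V (-7 (b/a)² - 1) < 1`), so a square (`TRS.sq_of_close v`), so `-7` is a square, contradiction.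
(1) `tam_min v` (`V 343 = exp (-6)`) reduces to the index of the closure of `S = {P | P = 0 ∨ 1 ≤ V (xP P)}`. (2) For `P = (X, Y) ≠ 0` let `f P = X² + 7 d₀ X + 14 d₀²` (never `0`: `4 f = (2X + 7d₀)² + 7 d₀²`, and `-7` is not a square), `f 0 = 1`; `Y² = (X - 7 d₀) f P`. `V (f P)` is a square by (0), say `V (f P) = exp (2 n)`.
Claim A: `n` is even iff `P ∈ S`. If `1 ≤ V X`: `V (f P) = (V X)²`, `V X = 1` or `V(Y)² = V(X)³` (as in `TTS.t2_ge`, TTS/T2.lean), so `V X` is a square. If `V X < 1`, then `V X ≤ exp (-1)`; `V X = exp (-1)` is impossible: `V (7d₀X) = exp (-3)`, `V (14 d₀²) = exp (-2)`, `V (f P) ≤ exp (-2)`, and by (0) for `4f = (2X + 7d₀)² + 7d₀²`: `V f = exp (-2)` exactly, `V (X - 7d₀) = exp (-1)`, so `V(Y²) = exp (-3)`, impossible.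
So `V X ≤ exp (-2)` and `V (f P) = V (14 d₀²) = exp (-2)`, `n = -1`. Claim B: `n(P) + n(Q) + n(P + Q)` is even. Let `K' = AdjoinRoot (X² + 7)` over `K` (a field, characteristic 0), `r` the root, `e = d₀ e2 r`; `(X - e)(X - ē) = f P` is the norm of `X - e`. `TTS.dl_add` over `K'` (points mapped by `ptF`/`ptH`, TTS/Defs.lean, TTS/S2b.lean: additive): `dl e P * dl e Q * dl e (P+Q) = z²`,
`dl e P = X - e` for `P ≠ 0` (`X ≠ e` as `e ∉ K`), `dl e 0 = 1`. Norms: `f P * f Q * f (P+Q) = (Norm z)²`, `Norm z = a² + 7b²` for `z = a + b r`, and `V (Norm z) = exp (2 m)` by (0): so `2(n + n' + n'') = 4 m`. (3) `TRS.index_two` with the point `(7d₀, 0)` (not in `S`: `V(7d₀) < 1`). -/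
theorem tam_ram (h7 : (7 : 𝓞 F) ∈ v.asIdeal) {d₀ : v.adicCompletion F}
    (h72 : (Valued.v (7 : v.adicCompletion F) : WithZero (Multiplicative ℤ)) = WithZero.exp (-2 : ℤ))
    (hns : ¬ IsSquare (-7 : v.adicCompletion F))
    (hd : (Valued.v d₀ : WithZero (Multiplicative ℤ)) = 1) (C : WeierstrassCurve.VariableChange (v.adicCompletion F)) :
    SBSD.tamagawa (v.adicCompletionIntegers F) (C • Ws d₀) = 2 := by
  have hcz : CharZero (v.adicCompletion F) :=
    charZero_of_injective_algebraMap (algebraMap F (v.adicCompletion F)).injective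
  have h2 : (2 : 𝓞 F) ∉ v.asIdeal := by
    intro h
    have e : (1 : 𝓞 F) = 7 - 3 * 2 := by norm_num
    apply v.isPrime.ne_top
    rw [Ideal.eq_top_iff_one, e]
    exact Ideal.sub_mem _ h7 (Ideal.mul_mem_left _ _ h)
  have v2 : Valued.v (2 : v.adicCompletion F) = (1 : WithZero (Multiplicative ℤ)) := by
    have := TRS.t2_val_one v _ h2
    rwa [map_ofNat] at this
  have hexp2 : WithZero.exp (-2 : ℤ) < (1 : WithZero (Multiplicative ℤ)) := by
    rw [← WithZero.exp_zero, WithZero.exp_lt_exp]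
    norm_num
  have hd0 : d₀ ≠ 0 := by
    rintro rfl
    rw [map_zero] at hd
    exact zero_ne_one hd
  have h7d : Valued.v (7 * d₀) < (1 : WithZero (Multiplicative ℤ)) := by
    rw [map_mul, h72, hd, mul_one]
    exact hexp2
  have hΔ : WithZero.exp (-12 : ℤ) <
      (Valued.v (343 * d₀ ^ 6) : WithZero (Multiplicative ℤ)) := by
    have e : (343 : v.adicCompletion F) = 7 * 7 * 7 := by norm_num
    rw [e, map_mul, map_mul, map_mul, map_pow, h72, hd, one_pow, mul_one, ← WithZero.exp_add,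
      ← WithZero.exp_add, WithZero.exp_lt_exp]
    norm_num
  rw [tam_min v h2 hd0 hd.le h7d hΔ]
  set V : Valuation (v.adicCompletion F) (WithZero (Multiplicative ℤ)) := Valued.v with hV
  have v4 : V 4 = 1 := by
    have e : (4 : v.adicCompletion F) = 2 * 2 := by norm_num
    rw [e, map_mul]
    have : V 2 = 1 := v2
    rw [this, one_mul]
  have v7 : V 7 = WithZero.exp (-2 : ℤ) := h72
  have vd : V d₀ = 1 := hd
  have v2' : V 2 = 1 := v2
  have hnorm := e3b_norm V (fun u hu => TRS.sq_of_close v h2 u hu) v7 hns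
  have T0 : (0 : v.adicCompletion F) ^ 2 = (7 * d₀) ^ 3 - 35 * d₀ ^ 2 * (7 * d₀) -
      98 * d₀ ^ 3 := by ring
  -- the values of the quadratic factor
  have hq : ∀ X : v.adicCompletion F, V (X ^ 2 + 7 * d₀ * X + 14 * d₀ ^ 2) =
      max (V (2 * X + 7 * d₀) ^ 2) (WithZero.exp (-2 : ℤ) * V d₀ ^ 2) := by
    intro X
    rw [← hnorm]
    have e : (2 * X + 7 * d₀) ^ 2 + 7 * d₀ ^ 2 = 4 * (X ^ 2 + 7 * d₀ * X + 14 * d₀ ^ 2) := by ring
    rw [e, map_mul, v4, one_mul]
  have hf : ∀ P : (Ws d₀).toAffine.Point, ∃ n : ℤ, V (e3b_f P) = WithZero.exp (2 * n) ∧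
      ((P = 0 ∨ (1 : WithZero (Multiplicative ℤ)) ≤ V (xP P)) ↔ n % 2 = 0) := by
    intro P
    by_cases hP : P = 0
    · refine ⟨0, ?_, ?_⟩
      · unfold e3b_f
        rw [if_pos hP, map_one, mul_zero, WithZero.exp_zero]
      · exact ⟨fun _ => rfl, fun _ => Or.inl hP⟩
    · obtain ⟨X, Y, h, hPe⟩ := exists_mkP hd0 P hP
      have hx : xP P = X := by rw [hPe]; exact (xP_mkP hd0 h).1
      unfold e3b_f
      rw [if_neg hP, hx]
      by_cases hlt : V X < 1
      · refine ⟨-1, ?_, ?_⟩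
        · rw [hq, vd, one_pow, mul_one]
          have h1 : V (2 * X + 7 * d₀) ≤ WithZero.exp (-1 : ℤ) := by
            refine (V.map_add _ _).trans (max_le ?_ ?_)
            · rw [map_mul, v2', one_mul]
              exact t3s_le hlt
            · rw [map_mul, v7, vd, mul_one, WithZero.exp_le_exp]
              norm_num
          have h3 : V (2 * X + 7 * d₀) ^ 2 ≤ WithZero.exp (-2 : ℤ) := by
            calc V (2 * X + 7 * d₀) ^ 2 ≤ WithZero.exp (-1 : ℤ) ^ 2 := pow_le_pow_left' h1 2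
              _ = WithZero.exp (-2 : ℤ) := by
                rw [pow_two, ← WithZero.exp_add]
                norm_num
          rw [max_eq_right h3]
          norm_num
        · constructor
          · rintro (h3 | h3)
            · exact absurd h3 hP
            · exact absurd hlt (not_lt.2 h3)
          · intro h3
            norm_num at h3
      · have hge : 1 ≤ V X := not_lt.1 hlt
        have hX0 : V X ≠ 0 := (lt_of_lt_of_le zero_lt_one hge).ne'
        have hsub : V (X - 7 * d₀) = V X := by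
          refine Valuation.map_sub_eq_of_lt_left V ?_
          exact lt_of_lt_of_le h7d hge
        have h5 : V (2 * X + 7 * d₀) = V X := by
          have h6 : V (2 * X) = V X := by rw [map_mul, v2', one_mul]
          rw [← h6]
          refine Valuation.map_add_eq_of_lt_left V ?_
          rw [h6]
          exact lt_of_lt_of_le h7d hge
        have h6 : V (X ^ 2 + 7 * d₀ * X + 14 * d₀ ^ 2) = V X ^ 2 := by
          rw [hq, h5, vd, one_pow, mul_one, max_eq_left]
          exact hexp2.le.trans (one_le_pow₀ hge)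
        have h7 : V Y ^ 2 = V X ^ 3 := by
          have e : Y ^ 2 = (X - 7 * d₀) * (X ^ 2 + 7 * d₀ * X + 14 * d₀ ^ 2) := by
            rw [h]; ring
          rw [← map_pow, e, map_mul, hsub, h6, ← pow_succ']
        have hY0 : V Y ≠ 0 := by
          intro h0
          rw [h0, zero_pow two_ne_zero] at h7
          exact pow_ne_zero 3 hX0 h7.symm
        obtain ⟨a, ha⟩ : ∃ n : ℤ, V X = WithZero.exp n := ⟨_, (WithZero.exp_log hX0).symm⟩
        obtain ⟨b, hb⟩ : ∃ n : ℤ, V Y = WithZero.exp n := ⟨_, (WithZero.exp_log hY0).symm⟩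
        rw [ha, hb, pow_two, pow_succ, pow_two, ← WithZero.exp_add, ← WithZero.exp_add,
          ← WithZero.exp_add, WithZero.exp_inj] at h7
        refine ⟨a, ?_, ?_⟩
        · rw [h6, ha, pow_two, ← WithZero.exp_add, WithZero.exp_inj]
          ring
        · refine ⟨fun _ => by omega, fun _ => Or.inr hge⟩
  have hadd : ∀ P Q : (Ws d₀).toAffine.Point, ∃ m : ℤ,
      V (e3b_f P * e3b_f Q * e3b_f (P + Q)) = WithZero.exp (4 * m) := by
    intro P Q
    have hne : V (e3b_f P * e3b_f Q * e3b_f (P + Q)) ≠ 0 := by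
      obtain ⟨n1, a1, _⟩ := hf P
      obtain ⟨n2, a2, _⟩ := hf Q
      obtain ⟨n3, a3, _⟩ := hf (P + Q)
      rw [map_mul, map_mul, a1, a2, a3]
      exact mul_ne_zero (mul_ne_zero WithZero.exp_ne_zero WithZero.exp_ne_zero)
        WithZero.exp_ne_zero
    rcases e3b_add hd0 P Q with ⟨R, hR⟩ | ⟨c, lam, hc⟩
    · obtain ⟨n, a1, _⟩ := hf R
      refine ⟨n, ?_⟩
      rw [hR, map_pow, a1, pow_two, ← WithZero.exp_add, WithZero.exp_inj]
      ring
    · have h1 : IsSquare (V (c ^ 2 - 7 * d₀ * c * lam + 14 * d₀ ^ 2 * lam ^ 2)) := by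
        have e : (2 * c - 7 * d₀ * lam) ^ 2 + 7 * (d₀ * lam) ^ 2 =
            4 * (c ^ 2 - 7 * d₀ * c * lam + 14 * d₀ ^ 2 * lam ^ 2) := by ring
        have e2 := hnorm (2 * c - 7 * d₀ * lam) (d₀ * lam)
        rw [e, map_mul, v4, one_mul] at e2
        rw [e2]
        exact e3b_max_sq _ _
      obtain ⟨s, hs⟩ := h1
      have hs0 : s ≠ 0 := by
        rintro rfl
        apply hne
        rw [hc, map_pow, hs, mul_zero, zero_pow two_ne_zero]
      obtain ⟨m, rfl⟩ : ∃ m : ℤ, s = WithZero.exp m := ⟨_, (WithZero.exp_log hs0).symm⟩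
      refine ⟨m, ?_⟩
      rw [hc, map_pow, hs, pow_two, ← WithZero.exp_add, ← WithZero.exp_add, WithZero.exp_inj]
      ring
  refine TRS.index_two _ (Or.inl rfl) ?_ (mkP hd0 (7 * d₀) 0 T0) ?_
  · intro P Q
    change (P + Q = 0 ∨ (1 : WithZero (Multiplicative ℤ)) ≤ V (xP (P + Q))) ↔
      ((P = 0 ∨ (1 : WithZero (Multiplicative ℤ)) ≤ V (xP P)) ↔
        (Q = 0 ∨ (1 : WithZero (Multiplicative ℤ)) ≤ V (xP Q)))
    obtain ⟨n1, a1, b1⟩ := hf P
    obtain ⟨n2, a2, b2⟩ := hf Q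
    obtain ⟨n3, a3, b3⟩ := hf (P + Q)
    obtain ⟨m, hm⟩ := hadd P Q
    rw [map_mul, map_mul, a1, a2, a3, ← WithZero.exp_add, ← WithZero.exp_add,
      WithZero.exp_inj] at hm
    rw [b1, b2, b3]
    omega
  · rintro (h3 | h3)
    · exact mkP_ne_zero hd0 T0 h3
    · rw [(xP_mkP hd0 T0).1] at h3
      exact absurd h7d (not_lt.2 h3)

end

end TRY
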