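import Pool.Agent.TRY.E3a
import Pool.Agent.TRY.E3b
import Pool.Agent.TRX.A7
import Pool.Agent.TRX.C2
import Pool.Agent.TTS.T4

set_option autoImplicit false

open NumberField Ideal IsDedekindDomain
open scoped Classical

/-! # [TRY-E3c] the Tamagawa numbers over `F = L(√a)` -/

namespace TRY

open TR TU TTS TRX

theorem e3c_val {F : Type} [Field F] [NumberField F] (P : HeightOneSpectrum (𝓞 F)) (x : F) :
    (Valued.v (algebraMap F (P.adicCompletion F) x) : WithZero (Multiplicative ℤ)) =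
      P.valuation F x := HeightOneSpectrum.valuedAdicCompletion_eq_valuation' P x

/-- odd valuation, a prime as in `SP`: two components -/
theorem e3c_two {F : Type} [Field F] [NumberField F] (P : HeightOneSpectrum (𝓞 F)) {d : F} (hd : d ≠ 0)
    (h4 : absNorm P.asIdeal % 4 = 1) (h7 : c7 (absNorm P.asIdeal) = -1) (hs : ¬ IsSquare (P.valuation F d))
    (C : WeierstrassCurve.VariableChange F) : SBSD.tam (C • Ws d) P = 2 := by
  obtain ⟨t, d₀, ht, h1, h2⟩ := (exists_rep P hd).2 hs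
  obtain ⟨C', hC'⟩ := tam_loc P d ht h1 C
  rw [hC']
  exact tam_d P h4 h7 h2 C'

/-- a prime above 7 where 7 has valuation one -/
theorem e3c_seven {F : Type} [Field F] [NumberField F] (P : HeightOneSpectrum (𝓞 F)) {d : F} (hd : d ≠ 0)
    (h7 : (7 : 𝓞 F) ∈ P.asIdeal) (h7' : (7 : 𝓞 F) ∉ P.asIdeal ^ 2)
    (C : WeierstrassCurve.VariableChange F) : SBSD.tam (C • Ws d) P = 2 := by
  obtain ⟨r1, r2⟩ := exists_rep P hd
  by_cases hsq : IsSquare (P.valuation F d)
  · obtain ⟨t, d₀, ht, h1, h2⟩ := r1 hsq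
    obtain ⟨C', hC'⟩ := tam_loc P d ht h1 C
    rw [hC']
    exact tam_seven P h7 h7' (Or.inl h2) C'
  · obtain ⟨t, d₀, ht, h1, h2⟩ := r2 hsq
    obtain ⟨C', hC'⟩ := tam_loc P d ht h1 C
    rw [hC']
    exact tam_seven P h7 h7' (Or.inr h2) C'

/-- the square root of a valuation -/
theorem e3c_root {K : Type} [Field K] (V : Valuation K (WithZero (Multiplicative ℤ))) {r : K} {n : ℤ}
    (h : V (r ^ 2) = WithZero.exp (2 * n)) : V r = WithZero.exp n := by
  have h0 : V r ≠ 0 := by
    intro h0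
    rw [map_pow, h0, zero_pow two_ne_zero] at h
    exact WithZero.exp_ne_zero h.symm
  obtain ⟨m, hm⟩ : ∃ m : ℤ, V r = WithZero.exp m := ⟨_, (WithZero.exp_log h0).symm⟩
  rw [map_pow, hm, pow_two, ← WithZero.exp_add, WithZero.exp_inj] at h
  rw [hm, WithZero.exp_inj]
  omega


section
variable {L M F : Type} [Field L] [NumberField L] [Field M] [NumberField M] [Field F] [NumberField F]
  [Algebra L M] [Algebra L F] [IsTotallyReal L] (D : Dat L M) {d : L} {V T : Finset (HeightOneSpectrum (𝓞 L))} (Q : QS L F)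
include D

/-- [TRY-E3c] `v ∈ V`, `v ∉ T`. PROOF. `H = hd`; `2 ∉ v`, `7 ∉ v` (`hd.nice.two`, `n1_seven D`), `Ur v Q.e` (`ha.ur`). If `Sq v Q.e`: `QS.split`: two primes `P` with the same norm and the same valuations on `L`: `exists_rep` (TTS/T4.lean) for `algebraMap d` (odd valuation: `(hd.od v hv).val`), `tam_loc`, `tam_d` (`absNorm P = absNorm v`): `2 * 2`.
Otherwise `QS.inert`: one prime `P`, valuations are equal; `-7` is a square in `F_P`: `TRX.isSquare_inert Q v ..` (TRX/A7.lean) for `-7` (`Ur v (-7)`: `ur_neg_seven`); with `r² = -7` in `F_P`, `V r = 1`: `tam_split` (TTS/T3s.lean) with `V (d₀ r) = exp (-1)`: `4`. -/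
theorem above_V (hd : SP L d V) (ha : SP L Q.e T) (C : WeierstrassCurve.VariableChange F)
    {v : HeightOneSpectrum (𝓞 L)} (hv : v ∈ V) (hvT : v ∉ T) :
    Above (fun P : HeightOneSpectrum (𝓞 F) => SBSD.tam (C • Ws (algebraMap L F d)) P) v 4 := by
  have h7v : (7 : 𝓞 L) ∉ v.asIdeal := n1_seven D (hd.seven v hv)
  have h2v : (2 : 𝓞 L) ∉ v.asIdeal := hd.nice.two hv
  have hur : Ur v Q.e := ha.ur v hvT h7v
  have hd0 : algebraMap L F d ≠ 0 := (map_ne_zero _).2 hd.ne
  have hodd := (hd.od v hv).val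
  by_cases hs : Sq v Q.e
  · obtain ⟨P, P', hne, hu, hn, hn', hval, hval'⟩ := Q.split v hs
    refine Or.inr ⟨P, P', hne, hu, ?_⟩
    have e1 := e3c_two P hd0 (by rw [hn]; exact hd.four v hv) (by rw [hn]; exact hd.seven v hv)
      (by rw [hval]; exact hodd) C
    have e2 := e3c_two P' hd0 (by rw [hn']; exact hd.four v hv) (by rw [hn']; exact hd.seven v hv)
      (by rw [hval']; exact hodd) C
    simp only [e1, e2]
  · obtain ⟨P, hu, -, hval⟩ := Q.inert v hur hs
    refine Or.inl ⟨P, hu, ?_⟩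
    have hP : P.asIdeal.comap (algebraMap (𝓞 L) (𝓞 F)) = v.asIdeal := (hu P).2 rfl
    have h2P : (2 : 𝓞 F) ∉ P.asIdeal := by
      have := q3_not_mem hP h2v
      rwa [map_ofNat] at this
    obtain ⟨r, hr⟩ := isSquare_inert Q v h2v hur hs hP (ur_neg_seven h7v)
    have hr7 : r ^ 2 = -7 := by
      rw [pow_two, ← hr, map_neg, map_neg, map_ofNat, map_ofNat]
    have hv7 : (Valued.v (r ^ 2) : WithZero (Multiplicative ℤ)) = WithZero.exp (2 * 0) := by
      rw [pow_two, ← hr, e3c_val, hval, mul_zero, WithZero.exp_zero, Valuation.map_neg]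
      have := (g1_val_one v).2 h7v
      have e : ((7 : 𝓞 L) : L) = 7 := map_ofNat (algebraMap (𝓞 L) L) 7
      rwa [e] at this
    have hr1 := e3c_root Valued.v hv7
    obtain ⟨t, d₀, ht, h1, h2⟩ := (exists_rep P hd0).2 (by rw [hval]; exact hodd)
    obtain ⟨C', hC'⟩ := tam_loc P _ ht h1 C
    show SBSD.tam (C • Ws (algebraMap L F d)) P = 4
    rw [hC']
    refine tam_split P h2P hr7 ?_ ?_ C'
    · rw [h2, ← WithZero.exp_zero]
      exact (WithZero.exp_le_exp).2 (by norm_num)
    · rw [map_mul, h2, hr1, ← WithZero.exp_add]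
      norm_num

/-- [TRY-E3c] `v ∋ 7`. PROOF. `star_of_SP D ha` (TRX/C5c.lean). (1) `Star T Q.e`: `Star.sq_seven D` (TRX/C2.lean): `Sq v Q.e` iff `#T` is even. Then `QS.split`: two primes with the valuations of `v`: `exists_rep`, `tam_loc`, `tam_seven` (TTS/T2.lean; `7 ∉ P²`: the valuation of 7 at `v` is `exp (-1)`, `7` inert in `L`): `2 * 2`; otherwise `QS.inert` (`Star.ur`): `2`.
(2) `Star T (-7 Q.e)`: `Od v Q.e` (see `E0b`), `QS.ram`: one prime `P`, `P.valuation (algebraMap x) = (v.valuation x)²`; `V 7 = exp (-2)`, `exists_rep` (the valuation of `d` is a square at `P`): `V d₀ = 1`. `u = -7 Q.e` is, up to squares of `L`, a unit at `v`; `-7` is a square in `F_P` iff `u` is (`u Q.e⁻¹ = -7`, `Q.e = Q.s²`), iff `Sq v u` (`TRX.isSquare_of_Sq`-like; `2 ∉ v`; the residue fields of `v` and `P` are equal; `sg_same`/`QS.ram`, or Hensel `TRS.sq_of_residue`), iff `#T` even (`Star.sq_seven D`).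
If it is: `tam_split` with `r = √-7`, `V r = exp (-1)`, `V (d₀ r) = exp (-1)`: `4`. If not: `tam_ram`: `2`. -/
theorem above_seven (hd : SP L d V) (ha : SP L Q.e T) (C : WeierstrassCurve.VariableChange F)
    {v : HeightOneSpectrum (𝓞 L)} (h7 : (7 : 𝓞 L) ∈ v.asIdeal) :
    Above (fun P : HeightOneSpectrum (𝓞 F) => SBSD.tam (C • Ws (algebraMap L F d)) P) v (if Even T.card then 4 else 2) := by
  obtain ⟨v₀, huniq, h2v, hod7⟩ := c5c_seven D
  obtain rfl := huniq v h7
  have hd0 : algebraMap L F d ≠ 0 := (map_ne_zero _).2 hd.ne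
  have hvT : v ∉ T := fun h => n1_seven D (ha.seven v h) h7
  have e7 : ((7 : 𝓞 L) : L) = 7 := map_ofNat (algebraMap (𝓞 L) L) 7
  have e7' : ((7 : 𝓞 F) : F) = 7 := map_ofNat (algebraMap (𝓞 F) F) 7
  have hval7 : v.valuation L (7 : L) = WithZero.exp (-1 : ℤ) := by
    obtain ⟨x, b, hx, hxb, hb, hb2⟩ := hod7
    have h72 : (7 : 𝓞 L) ∉ v.asIdeal ^ 2 := by
      intro h
      have h3 : v.valuation L ((7 : 𝓞 L) : L) ≤ WithZero.exp (-((2 : ℕ) : ℤ)) := (q3_pow 7 2).2 h
      have h4 : v.asIdeal = span {(7 : 𝓞 L)} := by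
        have hne : span {(7 : 𝓞 L)} ≠ ⊥ := by
          rw [Ne, span_singleton_eq_bot]
          intro h
          have h1 : algebraMap (𝓞 L) L 7 = 0 := by rw [h, map_zero]
          rw [map_ofNat] at h1
          norm_num at h1
        have h5 := huniq ⟨span {(7 : 𝓞 L)}, D.h7, hne⟩ (mem_span_singleton_self _)
        exact (congrArg HeightOneSpectrum.asIdeal h5).symm
      rw [h4, span_singleton_pow, mem_span_singleton] at h
      obtain ⟨k, hk⟩ := h
      apply v.isPrime.ne_top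
      rw [eq_top_iff_one, h4]
      have h70 : (7 : 𝓞 L) ≠ 0 := by
        intro h
        have h1 : algebraMap (𝓞 L) L 7 = 0 := by rw [h, map_zero]
        rw [map_ofNat] at h1
        norm_num at h1
      have e : (7 : 𝓞 L) * 1 = 7 * (7 * k) := by linear_combination hk
      rw [mul_left_cancel₀ h70 e]
      exact Ideal.mul_mem_right _ _ (mem_span_singleton_self _)
    rw [← e7]
    exact (g1_val_exp v).2 ⟨h7, h72⟩
  have hmem : ∀ P : HeightOneSpectrum (𝓞 F), P.asIdeal.comap (algebraMap (𝓞 L) (𝓞 F)) = v.asIdeal →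
      (7 : 𝓞 F) ∈ P.asIdeal := by
    intro P hP
    have h : (7 : 𝓞 L) ∈ P.asIdeal.comap (algebraMap (𝓞 L) (𝓞 F)) := by
      rw [hP]
      exact h7
    rwa [Ideal.mem_comap, map_ofNat] at h
  have hval1 : ∀ P : HeightOneSpectrum (𝓞 F), P.valuation F (algebraMap L F 7) = v.valuation L 7 →
      (7 : 𝓞 F) ∈ P.asIdeal ∧ (7 : 𝓞 F) ∉ P.asIdeal ^ 2 := by
    intro P hP
    apply (g1_val_exp P).1
    rw [e7', ← hval7, ← hP, map_ofNat (algebraMap L F) 7]
  rcases star_of_SP D ha with h | h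
  · have hur : Ur v Q.e := h.ur v hvT
    have hsq := h.sq_seven D ha.nice h7
    by_cases hT : Even T.card
    · rw [if_pos hT]
      obtain ⟨P, P', hne, hu, -, -, hval, hval'⟩ := Q.split v (hsq.2 hT)
      refine Or.inr ⟨P, P', hne, hu, ?_⟩
      have a1 := hval1 P (hval 7)
      have a2 := hval1 P' (hval' 7)
      have e1 := e3c_seven P hd0 a1.1 a1.2 C
      have e2 := e3c_seven P' hd0 a2.1 a2.2 C
      simp only [e1, e2]
    · rw [if_neg hT]
      obtain ⟨P, hu, -, hval⟩ := Q.inert v hur (fun hs => hT (hsq.1 hs))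
      have a1 := hval1 P (hval 7)
      exact Or.inl ⟨P, hu, e3c_seven P hd0 a1.1 a1.2 C⟩
  · have hur : Ur v (-7 * Q.e) := h.ur v hvT
    have hod : Od v Q.e := by
      have h1 := hur.mul_od hod7
      have e : -7 * Q.e * -7 = 7 ^ 2 * Q.e := by ring
      rw [e, od_sq_mul (by norm_num)] at h1
      exact h1
    have hsq := h.sq_seven D ha.nice h7
    obtain ⟨P, hu, hn, hval⟩ := Q.ram v hod
    have hP : P.asIdeal.comap (algebraMap (𝓞 L) (𝓞 F)) = v.asIdeal := (hu P).2 rfl
    have h2P : (2 : 𝓞 F) ∉ P.asIdeal := by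
      have := q3_not_mem hP h2v
      rwa [map_ofNat] at this
    have hu0 : algebraMap L F (-7 * Q.e) ≠ 0 := (map_ne_zero _).2 h.ne
    have hSq : Sq P (algebraMap L F (-7 * Q.e)) ↔ Even T.card := by
      rw [← hsq, ← sg_eq_one_iff, ← sg_eq_one_iff, sg_same hP hn hur]
    have hs0 : algebraMap F (P.adicCompletion F) Q.s ≠ 0 := (map_ne_zero _).2 Q.s_ne
    have hue : algebraMap F (P.adicCompletion F) (algebraMap L F (-7 * Q.e)) =
        -7 * (algebraMap F (P.adicCompletion F) Q.s) ^ 2 := by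
      rw [map_mul, ← Q.hs, map_mul, map_pow, map_neg, map_neg, map_ofNat, map_ofNat]
    have h77 : (Valued.v (7 : P.adicCompletion F) : WithZero (Multiplicative ℤ)) = WithZero.exp (-2 : ℤ) := by
      have e : (7 : P.adicCompletion F) = algebraMap F (P.adicCompletion F) (algebraMap L F 7) := by
        rw [map_ofNat, map_ofNat]
      rw [e, e3c_val, hval, hval7, pow_two, ← WithZero.exp_add]
      norm_num
    obtain ⟨t, d₀, ht, h1, h2⟩ := (exists_rep P hd0).1 (by rw [hval]; exact ⟨_, pow_two _⟩)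
    obtain ⟨C', hC'⟩ := tam_loc P _ ht h1 C
    refine Or.inl ⟨P, hu, ?_⟩
    show SBSD.tam (C • Ws (algebraMap L F d)) P = _
    rw [hC']
    by_cases hT : Even T.card
    · rw [if_pos hT]
      obtain ⟨w, hw⟩ := isSquare_of_Sq P (hSq.2 hT)
      have hr7 : (w / algebraMap F (P.adicCompletion F) Q.s) ^ 2 = -7 := by
        rw [div_pow, div_eq_iff (pow_ne_zero 2 hs0), ← hue, hw, pow_two]
      have hv7 : (Valued.v ((w / algebraMap F (P.adicCompletion F) Q.s) ^ 2) :
          WithZero (Multiplicative ℤ)) = WithZero.exp (2 * (-1)) := by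
        rw [hr7, Valuation.map_neg, h77]
        norm_num
      have hr1 := e3c_root Valued.v hv7
      refine tam_split P h2P hr7 h2.le ?_ C'
      rw [map_mul, h2, one_mul, hr1]
    · rw [if_neg hT]
      refine tam_ram P (hmem P hP) h77 ?_ h2 C'
      rintro ⟨r, hr⟩
      apply hT
      apply hSq.1
      apply Sq_of_isSquare P hu0
      rw [hue, hr]
      exact ⟨r * algebraMap F (P.adicCompletion F) Q.s, by ring⟩

/-- [TRY-E3c] the Tamagawa numbers over `F`. PROOF. `finprod_above` with `S = insert v₀ (V \ T)`, `v₀` the prime above 7 (`c5c_seven D`), `g v₀ = (if ..)`, `g v = 4` otherwise; `above_V`, `above_seven`. `h1`: `v ∉ S` lies below `P`: `7 ∉ P` (uniqueness of `v₀`; `q3_not_mem`), and `Ur P (algebraMap d)`: `v ∉ V`: `hd.ur`, `Ur.up`; `v ∈ V`, `v ∈ T`: `2 ∉ P`,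
`Od v Q.e`, `QS.ram`: the valuation at `P` of an element of `L` is a square, `ur_iff_val` (as in `TRX.ur_above_T`, TRX/C6.lean). Then `tam_good` (TTS/T1.lean): `1`. -/
theorem tam_F (hd : SP L d V) (ha : SP L Q.e T) (C : WeierstrassCurve.VariableChange F) :
    ∏ᶠ P : HeightOneSpectrum (𝓞 F), SBSD.tam (C • Ws (algebraMap L F d)) P =
      (if Even T.card then 4 else 2) * 4 ^ (V \ T).card := by
  obtain ⟨v₀, huniq, h2v, hod7⟩ := c5c_seven D
  have h7v : (7 : 𝓞 L) ∈ v₀.asIdeal := by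
    by_contra h
    exact hod7.val (ur_neg_seven h).val
  have hv0 : v₀ ∉ V \ T := by
    intro h
    rw [Finset.mem_sdiff] at h
    exact n1_seven D (hd.seven v₀ h.1) h7v
  have key := finprod_above (insert v₀ (V \ T))
    (fun P : HeightOneSpectrum (𝓞 F) => SBSD.tam (C • Ws (algebraMap L F d)) P)
    (fun v => if v = v₀ then (if Even T.card then 4 else 2) else 4) ?_ ?_
  · rw [key, Finset.prod_insert hv0, if_pos rfl]
    congr 1
    rw [Finset.prod_congr rfl (g := fun _ => 4), Finset.prod_const]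
    intro v hv
    rw [if_neg]
    rintro rfl
    exact hv0 hv
  · intro P v hP hv
    rw [Finset.mem_insert, not_or] at hv
    have h7 : (7 : 𝓞 L) ∉ v.asIdeal := fun h => hv.1 (huniq v h)
    have h7P : (7 : 𝓞 F) ∉ P.asIdeal := by
      have := q3_not_mem hP h7
      rwa [map_ofNat] at this
    refine tam_good P ?_ h7P C
    by_cases hvV : v ∈ V
    · have hvT : v ∈ T := by
        by_contra h
        exact hv.2 (Finset.mem_sdiff.2 ⟨hvV, h⟩)
      have h2P : (2 : 𝓞 F) ∉ P.asIdeal := by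
        have := q3_not_mem hP (hd.nice.two hvV)
        rwa [map_ofNat] at this
      obtain ⟨P0, hu, -, hval⟩ := Q.ram v (ha.od v hvT)
      have hPP : P = P0 := (hu P).1 hP
      rw [ur_iff_val h2P ((map_ne_zero _).2 hd.ne), hPP, hval]
      exact ⟨_, pow_two _⟩
    · exact Ur.up hP (hd.ur v hvV h7)
  · intro v hv
    rw [Finset.mem_insert, Finset.mem_sdiff] at hv
    by_cases h : v = v₀
    · rw [if_pos h]
      exact above_seven D Q hd ha C (by rw [h]; exact h7v)
    · rw [if_neg h]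
      have h1 := hv.resolve_left h
      exact above_V D Q hd ha C h1.1 h1.2

end

end TRY
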