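import Pool.Agent.TRY.E3a
import Pool.Agent.TRX.A7
import Pool.Agent.TRX.C6
import Pool.Agent.TTS.T4

set_option autoImplicit false

open NumberField Ideal IsDedekindDomain
open scoped Classical

/-! # [TRY-E3d] the Tamagawa numbers over `N = M(√a)` -/

namespace TRY

open TR TU TTS TRX

/-- the Tamagawa number at a prime `R` of `N` with the same valuations as `P` -/
theorem e3d_tam {M N : Type} [Field M] [NumberField M] [Field N] [NumberField N] [Algebra M N]
    {P : HeightOneSpectrum (𝓞 M)} {R : HeightOneSpectrum (𝓞 N)}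
    (hRP : R.asIdeal.comap (algebraMap (𝓞 M) (𝓞 N)) = P.asIdeal)
    (hval : ∀ x : M, R.valuation N (algebraMap M N x) = P.valuation M x) (h2 : (2 : 𝓞 M) ∉ P.asIdeal)
    {x r : M} (hx : x ≠ 0) (hr : r ^ 2 = -7)
    (h : (IsSquare (P.valuation M x) ∧ P.valuation M r = WithZero.exp (-1 : ℤ)) ∨
      (¬ IsSquare (P.valuation M x) ∧ P.valuation M r = 1)) (C : WeierstrassCurve.VariableChange N) :
    SBSD.tam (C • Ws (algebraMap M N x)) R = 4 := by
  have hx' : algebraMap M N x ≠ 0 := (map_ne_zero _).2 hx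
  have h2' : (2 : 𝓞 N) ∉ R.asIdeal := by
    have := q3_not_mem hRP h2
    rwa [map_ofNat] at this
  have hrv : (Valued.v (algebraMap N (R.adicCompletion N) (algebraMap M N r)) :
      WithZero (Multiplicative ℤ)) = P.valuation M r := by
    rw [← hval]
    exact HeightOneSpectrum.valuedAdicCompletion_eq_valuation' R _
  have hr7 : (algebraMap N (R.adicCompletion N) (algebraMap M N r)) ^ 2 = -7 := by
    rw [← map_pow, ← map_pow, hr, map_neg, map_neg, map_ofNat, map_ofNat]
  rcases h with ⟨h1, h3⟩ | ⟨h1, h3⟩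
  · rw [← hval] at h1
    obtain ⟨t, d₀, ht, e1, e2⟩ := (exists_rep R hx').1 h1
    obtain ⟨C', hC'⟩ := tam_loc R _ ht e1 C
    rw [hC']
    refine tam_split R h2' hr7 e2.le ?_ C'
    rw [map_mul, e2, one_mul, hrv, h3]
  · rw [← hval] at h1
    obtain ⟨t, d₀, ht, e1, e2⟩ := (exists_rep R hx').2 h1
    obtain ⟨C', hC'⟩ := tam_loc R _ ht e1 C
    rw [hC']
    refine tam_split R h2' hr7 ?_ ?_ C'
    · rw [e2, ← WithZero.exp_zero]
      exact (WithZero.exp_le_exp).2 (by norm_num)
    · rw [map_mul, e2, hrv, h3, mul_one]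

section
variable {L M N : Type} [Field L] [NumberField L] [Field M] [NumberField M] [Field N] [NumberField N]
  [Algebra L M] [Algebra M N] [IsTotallyReal L] (D : Dat L M) {d a : L} {V T : Finset (HeightOneSpectrum (𝓞 L))} (Q : QS M N)
include D

/-- [TRY-E3d] `P` above `v ∈ V`, `v ∉ T`. PROOF. `a` is a square in `M_P` (`sq_of_even`-like: `TRX.SP`-versions of `Star.sq_inert`: `TTS.sq_of_even D`, `(ha.ur v hv).val`; see `TRX.Star.sq_inert`, TRX/C1.lean), so `Sq P Q.e` (converse of `TRX.isSquare_of_Sq`; as in `Star.sq_seven_M`, TRX/C2.lean; if it is missing: `2 ∉ P`, approximate the square root by an element of `M`).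
`QS.split`: two primes with the valuations of `P`; `algebraMap d` has odd valuation at `P` (`above_nice D`), `r` a unit: `exists_rep`, `tam_loc`, `tam_split` as in `TTS.tam_M` (TTS/T4.lean, complete): `4 * 4`. -/
theorem above_VN (hd : SP L d V) (ha : SP L a T) (hQ : Q.e = algebraMap L M a) (C : WeierstrassCurve.VariableChange N)
    {v : HeightOneSpectrum (𝓞 L)} (hv : v ∈ V) (hvT : v ∉ T) {P : HeightOneSpectrum (𝓞 M)}
    (hP : P.asIdeal.comap (algebraMap (𝓞 L) (𝓞 M)) = v.asIdeal) :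
    Above (fun R : HeightOneSpectrum (𝓞 N) => SBSD.tam (C • Ws (algebraMap M N (algebraMap L M d))) R) P 16 := by
  obtain ⟨-, -, hval⟩ := above_nice D (hd.seven v hv) hP
  have h7v : (7 : 𝓞 L) ∉ v.asIdeal := n1_seven D (hd.seven v hv)
  obtain ⟨a1, a2, a3, a4⟩ := SP.at_S D hd hv hP
  have hur := ha.ur v hvT h7v
  have hsq : IsSquare (algebraMap M (P.adicCompletion M) (algebraMap L M a)) := by
    refine sq_of_even D (hd.four v hv) (hd.seven v hv) hP a ha.ne ?_
    rw [hval a]
    exact hur.val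
  have hSq : Sq P Q.e := by
    rw [hQ]
    exact Sq_of_isSquare P ((map_ne_zero _).2 ha.ne) hsq
  obtain ⟨R, R', hne, hu, -, -, hv1, hv2⟩ := Q.split P hSq
  have hd0 : algebraMap L M d ≠ 0 := (map_ne_zero _).2 hd.ne
  have hR1 := e3d_tam ((hu R).2 (Or.inl rfl)) hv1 a1 hd0 D.hr (Or.inr ⟨a4, val_r D a3⟩) C
  have hR2 := e3d_tam ((hu R').2 (Or.inr rfl)) hv2 a1 hd0 D.hr (Or.inr ⟨a4, val_r D a3⟩) C
  refine Or.inr ⟨R, R', hne, hu, ?_⟩
  simp only [hR1, hR2]

/-- [TRY-E3d] `P` above 7. PROOF. `P` is the prime `(r)`, `P.valuation r = exp (-1)`, `P.valuation (algebraMap d)` a square (`val_seven D`, TTS/N1.lean), `Ur P Q.e` (`ur_seven_of_SP D ha`, TRX/C5c.lean), and `algebraMap a` is a square in `M_P` iff `#T` is even (`sq_seven_of_SP D ha`). `QS.split` or `QS.inert` (`Sq P Q.e` iff `algebraMap a` is a square in `M_P`: `isSquare_of_Sq` and its converse, see `above_VN`); the valuations on `M` are those of `P`: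
`exists_rep`, `tam_loc`, `tam_split` (`V d₀ = 1`, `V (d₀ r) = exp (-1)`) as in `TTS.tam_M` (TTS/T4.lean): `4` for each prime above `P`. -/
theorem above_sevenN (hd : SP L d V) (ha : SP L a T) (hQ : Q.e = algebraMap L M a) (C : WeierstrassCurve.VariableChange N)
    {P : HeightOneSpectrum (𝓞 M)} (hP : D.rr ∈ P.asIdeal) :
    Above (fun R : HeightOneSpectrum (𝓞 N) => SBSD.tam (C • Ws (algebraMap M N (algebraMap L M d))) R) P
      (if Even T.card then 16 else 4) := by
  obtain ⟨k1, k2, k3⟩ := val_seven D hP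
  have h7P : (7 : 𝓞 M) ∈ P.asIdeal := (n1_rr_iff D P).2 hP
  have h2P : (2 : 𝓞 M) ∉ P.asIdeal := q3_two P h7P
  have hd0 : algebraMap L M d ≠ 0 := (map_ne_zero _).2 hd.ne
  have ha0 : algebraMap L M a ≠ 0 := (map_ne_zero _).2 ha.ne
  have hsq := sq_seven_of_SP D ha hP
  by_cases hT : Even T.card
  · rw [if_pos hT]
    have hSq : Sq P Q.e := by
      rw [hQ]
      exact Sq_of_isSquare P ha0 (hsq.2 hT)
    obtain ⟨R, R', hne, hu, -, -, hv1, hv2⟩ := Q.split P hSq
    have hR1 := e3d_tam ((hu R).2 (Or.inl rfl)) hv1 h2P hd0 D.hr (Or.inl ⟨k3 d, k1⟩) C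
    have hR2 := e3d_tam ((hu R').2 (Or.inr rfl)) hv2 h2P hd0 D.hr (Or.inl ⟨k3 d, k1⟩) C
    refine Or.inr ⟨R, R', hne, hu, ?_⟩
    simp only [hR1, hR2]
  · rw [if_neg hT]
    have hur : Ur P Q.e := by
      rw [hQ]
      exact ur_seven_of_SP D ha hP
    have hnSq : ¬ Sq P Q.e := by
      rw [hQ]
      exact fun h => hT (hsq.1 (isSquare_of_Sq P h))
    obtain ⟨R, hu, -, hv1⟩ := Q.inert P hur hnSq
    have hR1 := e3d_tam ((hu R).2 rfl) hv1 h2P hd0 D.hr (Or.inl ⟨k3 d, k1⟩) C
    exact Or.inl ⟨R, hu, hR1⟩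

/-- [TRY-E3d] the Tamagawa numbers over `N`. PROOF. `finprod_above` with `S` = the prime `(r)` and the primes of `M` above `V \ T` (one above each: `TTS.exists_nice D`; the bookkeeping as in `TTS.tam_M`, TTS/T4.lean, complete), `above_VN`, `above_sevenN`. The other primes `P` of `M`: `D.rr ∉ P` and `P` is not above `V \ T`; `R` above `P`: `7 ∉ R`, `Ur R (algebraMap d)`: `P` above `T`: `ur_above_T D Q` (TRX/C6.lean);
otherwise `P` is not above `V`: `Ur.up` twice from `hd.ur`. `tam_good`: `1`. -/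
theorem tam_N (hd : SP L d V) (ha : SP L a T) (hQ : Q.e = algebraMap L M a) (C : WeierstrassCurve.VariableChange N) :
    ∏ᶠ R : HeightOneSpectrum (𝓞 N), SBSD.tam (C • Ws (algebraMap M N (algebraMap L M d))) R =
      (if Even T.card then 16 else 4) * 16 ^ (V \ T).card := by
  have hsq7 := D.rr_sq
  have hb : Ideal.span {D.rr} ≠ ⊥ := by
    rw [Ne, Ideal.span_singleton_eq_bot]
    exact n1_rr_ne D
  set s : HeightOneSpectrum (𝓞 M) := ⟨Ideal.span {D.rr}, D.span_rr_prime, hb⟩ with hs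
  have hsr : D.rr ∈ s.asIdeal := Ideal.mem_span_singleton_self _
  have huniq : ∀ P : HeightOneSpectrum (𝓞 M), D.rr ∈ P.asIdeal → P = s := by
    intro v hv
    have h1 : s.asIdeal ≤ v.asIdeal := by
      rw [hs, Ideal.span_singleton_le_iff_mem]
      exact hv
    exact HeightOneSpectrum.ext (s.isMaximal.eq_of_le v.isMaximal.ne_top h1).symm
  have hd0 : algebraMap L M d ≠ 0 := (map_ne_zero _).2 hd.ne
  have : Nonempty (HeightOneSpectrum (𝓞 M)) := ⟨s⟩
  choose! f hf using fun (v : HeightOneSpectrum (𝓞 L)) (hv : v ∈ V \ T) =>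
    exists_nice D (hd.seven v (Finset.mem_sdiff.1 hv).1)
  have hf1 : ∀ v ∈ V \ T, (f v).asIdeal.comap (algebraMap (𝓞 L) (𝓞 M)) = v.asIdeal :=
    fun v hv => (hf v hv (f v)).2 rfl
  have hinj : Set.InjOn f ↑(V \ T) := by
    intro v hv v' hv' h
    apply HeightOneSpectrum.ext
    rw [← hf1 v hv, ← hf1 v' hv', h]
  have hsS : s ∉ (V \ T).image f := by
    intro hmem
    obtain ⟨v, hv, hvs⟩ := Finset.mem_image.1 hmem
    have h1 := (SP.at_S D hd (Finset.mem_sdiff.1 hv).1 (hf1 v hv)).2.2.1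
    rw [hvs] at h1
    exact h1 hsr
  have key := finprod_above (insert s ((V \ T).image f))
    (fun R : HeightOneSpectrum (𝓞 N) => SBSD.tam (C • Ws (algebraMap M N (algebraMap L M d))) R)
    (fun P => if P = s then (if Even T.card then 16 else 4) else 16) ?_ ?_
  · rw [key, Finset.prod_insert hsS, if_pos rfl]
    congr 1
    have h1 : ∀ P ∈ (V \ T).image f, (if P = s then (if Even T.card then 16 else 4) else 16) = 16 := by
      intro P hP
      rw [if_neg]
      rintro rfl
      exact hsS hP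
    rw [Finset.prod_congr rfl h1, Finset.prod_const, Finset.card_image_of_injOn hinj]
  · intro R P hRP hPS
    rw [Finset.mem_insert, not_or] at hPS
    have hrP : D.rr ∉ P.asIdeal := fun h => hPS.1 (huniq P h)
    have h7P : (7 : 𝓞 M) ∉ P.asIdeal := fun h => hrP ((n1_rr_iff D P).1 h)
    have h7R : (7 : 𝓞 N) ∉ R.asIdeal := by
      have := q3_not_mem hRP h7P
      rwa [map_ofNat] at this
    obtain ⟨v, hv⟩ : ∃ v : HeightOneSpectrum (𝓞 L),
        P.asIdeal.comap (algebraMap (𝓞 L) (𝓞 M)) = v.asIdeal := ⟨u6_below (L := L) P, rfl⟩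
    have hurR : Ur R (algebraMap M N (algebraMap L M d)) := by
      by_cases hvT : v ∈ T
      · exact ur_above_T D Q ha hQ hvT hv hRP hd0
      · have hvV : v ∉ V := by
          intro hvV
          have hmem : v ∈ V \ T := Finset.mem_sdiff.2 ⟨hvV, hvT⟩
          apply hPS.2
          rw [(hf v hmem P).1 hv]
          exact Finset.mem_image_of_mem f hmem
        have h7v : (7 : 𝓞 L) ∉ v.asIdeal := by
          intro h
          rw [← hv, Ideal.mem_comap, map_ofNat] at h
          exact h7P h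
        exact Ur.up hRP (Ur.up hv (hd.ur v hvV h7v))
    exact tam_good R hurR h7R C
  · intro P hP
    rcases Finset.mem_insert.1 hP with rfl | hP'
    · rw [if_pos rfl]
      exact above_sevenN D Q hd ha hQ C hsr
    · rw [if_neg]
      · obtain ⟨v, hv, rfl⟩ := Finset.mem_image.1 hP'
        have hv' := Finset.mem_sdiff.1 hv
        exact above_VN D Q hd ha hQ C hv'.1 hv'.2 (hf1 v hv)
      · rintro rfl
        exact hsS hP'

end

end TRY
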