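import Pool.Agent.TRX.D14

set_option autoImplicit false

open NumberField Ideal IsDedekindDomain
open scoped Real Classical

/-! # [TRY-E4a] the infinite places of `F = L(√a)`, `L` totally real -/

namespace TRY

open TR TU TTS TRX

section
variable {L F : Type} [Field L] [NumberField L] [Field F] [NumberField F] [Algebra L F] [IsTotallyReal L] (Q : QS L F)

omit [IsTotallyReal L] in
theorem e4a_ext {φ φ' : F →+* ℂ} (h : ∀ y : L, φ (algebraMap L F y) = φ' (algebraMap L F y))
    (hs : φ Q.s = φ' Q.s) : φ = φ' := by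
  refine RingHom.ext fun x => ?_
  obtain ⟨a, b, hx⟩ := Q.gen x
  rw [hx, map_add, map_mul, map_add, map_mul, h a, h b, hs]

omit [NumberField L] [NumberField F] in
theorem e4a_emb {v : InfinitePlace L} {u : InfinitePlace F} (h : u.comap (algebraMap L F) = v) (x : L) :
    u.embedding (algebraMap L F x) = ((InfinitePlace.embedding_of_isReal (IsTotallyReal.isReal v) x : ℝ) : ℂ) := by
  have h1 : InfinitePlace.mk (u.embedding.comp (algebraMap L F)) = v := by
    rw [← InfinitePlace.comap_mk, InfinitePlace.mk_embedding]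
    exact h
  have h2 : ComplexEmbedding.IsReal (u.embedding.comp (algebraMap L F)) := by
    apply InfinitePlace.isReal_of_mk_isReal
    rw [h1]
    exact IsTotallyReal.isReal v
  have h3 : v.embedding = u.embedding.comp (algebraMap L F) := by
    rw [← h1]
    exact InfinitePlace.embedding_mk_eq_of_isReal h2
  rw [InfinitePlace.embedding_of_isReal_apply, h3]
  rfl

omit [NumberField L] [NumberField F] in
/-- a complex embedding above the real place -/
theorem e4a_above {v : InfinitePlace L} {φ : F →+* ℂ}
    (h : ∀ y : L, φ (algebraMap L F y) = ((InfinitePlace.embedding_of_isReal (IsTotallyReal.isReal v) y : ℝ) : ℂ)) :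
    (InfinitePlace.mk φ).comap (algebraMap L F) = v := by
  rw [InfinitePlace.comap_mk]
  have h1 : φ.comp (algebraMap L F) = v.embedding := by
    refine RingHom.ext fun y => ?_
    rw [RingHom.comp_apply, h y, InfinitePlace.embedding_of_isReal_apply]
  rw [h1, InfinitePlace.mk_embedding]

/-- [TRY-E4a] PROOF. `j : L →+* ℝ` the embedding of `v` (`IsTotallyReal.isReal v`, `InfinitePlace.embedding_of_isReal`). `x = √(j e) > 0`, `TRX.d14_lift Q j (± x)`: `ψ, ψ' : F →+* ℝ` with `ψ s = x`, `ψ' s = -x`; `w = InfinitePlace.mk (Complex.ofRealHom.comp ψ)`, `w'`. Real, above `v`. `w ≠ w'`: `w (s + x') ≠ w' (s + x')` for a suitable `x' ∈ ℚ` (or: `InfinitePlace.mk_eq_iff`: the complex embeddings would be equal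
or conjugate, they are real and differ at `s`). If `u` is above `v`, let `φ = u.embedding`; `φ ∘ algebraMap` is the complex embedding of `v` or its conjugate, which is real: `φ (algebraMap y) = j y`, so `(φ s)² = j e`, `φ s = ± x`, so `φ = ψ` or `φ = ψ'` on `F = L + L s` and `u = w` or `u = w'` (`InfinitePlace.mk_embedding`). -/
theorem places_pos (v : InfinitePlace L)
    (h : 0 < InfinitePlace.embedding_of_isReal (IsTotallyReal.isReal v) Q.e) :
    ∃ w w' : InfinitePlace F, w ≠ w' ∧ w.IsReal ∧ w'.IsReal ∧
      ∀ u : InfinitePlace F, u.comap (algebraMap L F) = v ↔ u = w ∨ u = w' := by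
  have hsq : √(InfinitePlace.embedding_of_isReal (IsTotallyReal.isReal v) Q.e) ^ 2 =
      InfinitePlace.embedding_of_isReal (IsTotallyReal.isReal v) Q.e := Real.sq_sqrt h.le
  have hpos : 0 < √(InfinitePlace.embedding_of_isReal (IsTotallyReal.isReal v) Q.e) := Real.sqrt_pos.2 h
  obtain ⟨x, hx⟩ : ∃ x : ℝ, x = √(InfinitePlace.embedding_of_isReal (IsTotallyReal.isReal v) Q.e) := ⟨_, rfl⟩
  rw [← hx] at hsq hpos
  obtain ⟨ψ, h1, h2⟩ := d14_lift Q (InfinitePlace.embedding_of_isReal (IsTotallyReal.isReal v)) x hsq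
  obtain ⟨ψ', h1', h2'⟩ := d14_lift Q (InfinitePlace.embedding_of_isReal (IsTotallyReal.isReal v)) (-x)
    (by rw [neg_sq, hsq])
  have hreal : ∀ θ : F →+* ℝ, ComplexEmbedding.IsReal (Complex.ofRealHom.comp θ) := by
    intro θ
    rw [ComplexEmbedding.isReal_iff]
    refine RingHom.ext fun y => ?_
    rw [ComplexEmbedding.conjugate_coe_eq, RingHom.comp_apply, Complex.ofRealHom_eq_coe, Complex.conj_ofReal]
  refine ⟨InfinitePlace.mk (Complex.ofRealHom.comp ψ), InfinitePlace.mk (Complex.ofRealHom.comp ψ'), ?_,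
    ⟨_, hreal ψ, rfl⟩, ⟨_, hreal ψ', rfl⟩, ?_⟩
  · intro he
    have h3 := congrArg InfinitePlace.embedding he
    rw [InfinitePlace.embedding_mk_eq_of_isReal (hreal ψ),
      InfinitePlace.embedding_mk_eq_of_isReal (hreal ψ')] at h3
    have h4 := RingHom.congr_fun h3 Q.s
    rw [RingHom.comp_apply, RingHom.comp_apply, h2, h2', Complex.ofRealHom_eq_coe, Complex.ofRealHom_eq_coe,
      Complex.ofReal_inj] at h4
    linarith
  · intro u
    constructor
    · intro hu
      have h3 : u.embedding Q.s ^ 2 = (x : ℂ) ^ 2 := by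
        rw [← map_pow, Q.hs, e4a_emb hu, ← hsq]
        push_cast
        rfl
      rcases sq_eq_sq_iff_eq_or_eq_neg.1 h3 with h4 | h4
      · left
        rw [← InfinitePlace.mk_embedding u]
        refine congrArg InfinitePlace.mk (e4a_ext Q (fun y => ?_) ?_)
        · rw [e4a_emb hu, RingHom.comp_apply, h1]
          rfl
        · rw [h4, RingHom.comp_apply, h2]
          rfl
      · right
        rw [← InfinitePlace.mk_embedding u]
        refine congrArg InfinitePlace.mk (e4a_ext Q (fun y => ?_) ?_)
        · rw [e4a_emb hu, RingHom.comp_apply, h1']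
          rfl
        · rw [h4, RingHom.comp_apply, h2', Complex.ofRealHom_eq_coe, Complex.ofReal_neg]
    · rintro (rfl | rfl)
      · refine e4a_above fun y => ?_
        rw [RingHom.comp_apply, h1]
        rfl
      · refine e4a_above fun y => ?_
        rw [RingHom.comp_apply, h1']
        rfl

/-- [TRY-E4a] PROOF. As `places_pos` with `x = √(- j e)` and `ψ : F →+* ℂ`, `ψ s = i x`; `φ s = ± i x`, so `φ = ψ` or `φ` is the conjugate of `ψ`: one place, not real (`ψ s` is not real: `InfinitePlace.isReal_iff`, `ComplexEmbedding.IsReal`). -/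
theorem places_neg (v : InfinitePlace L)
    (h : InfinitePlace.embedding_of_isReal (IsTotallyReal.isReal v) Q.e < 0) :
    ∃ w : InfinitePlace F, ¬ w.IsReal ∧ ∀ u : InfinitePlace F, u.comap (algebraMap L F) = v ↔ u = w := by
  have hsq : √(-InfinitePlace.embedding_of_isReal (IsTotallyReal.isReal v) Q.e) ^ 2 =
      -InfinitePlace.embedding_of_isReal (IsTotallyReal.isReal v) Q.e := Real.sq_sqrt (by linarith)
  have hpos : 0 < √(-InfinitePlace.embedding_of_isReal (IsTotallyReal.isReal v) Q.e) :=
    Real.sqrt_pos.2 (by linarith)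
  obtain ⟨x, hx⟩ : ∃ x : ℝ, x = √(-InfinitePlace.embedding_of_isReal (IsTotallyReal.isReal v) Q.e) := ⟨_, rfl⟩
  rw [← hx] at hsq hpos
  have hy : (Complex.I * (x : ℂ)) ^ 2 =
      ((InfinitePlace.embedding_of_isReal (IsTotallyReal.isReal v) Q.e : ℝ) : ℂ) := by
    have h0 : InfinitePlace.embedding_of_isReal (IsTotallyReal.isReal v) Q.e = -x ^ 2 := by linarith
    rw [h0, mul_pow, Complex.I_sq]
    push_cast
    ring
  obtain ⟨ψ, h1, h2⟩ := d14_lift Q v.embedding (Complex.I * (x : ℂ))
    (by rw [hy, InfinitePlace.embedding_of_isReal_apply])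
  have h1r : ∀ y : L, ψ (algebraMap L F y) =
      ((InfinitePlace.embedding_of_isReal (IsTotallyReal.isReal v) y : ℝ) : ℂ) := by
    intro y
    rw [h1, InfinitePlace.embedding_of_isReal_apply]
  refine ⟨InfinitePlace.mk ψ, ?_, ?_⟩
  · intro hr
    have h3 := InfinitePlace.isReal_of_mk_isReal hr
    rw [ComplexEmbedding.isReal_iff] at h3
    have h4 := RingHom.congr_fun h3 Q.s
    rw [ComplexEmbedding.conjugate_coe_eq, h2, map_mul, Complex.conj_I, Complex.conj_ofReal] at h4
    have h5 := congrArg Complex.im h4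
    simp at h5
    linarith
  · intro u
    constructor
    · intro hu
      have h3 : u.embedding Q.s ^ 2 = (Complex.I * (x : ℂ)) ^ 2 := by
        rw [← map_pow, Q.hs, e4a_emb hu, hy]
      rcases sq_eq_sq_iff_eq_or_eq_neg.1 h3 with h4 | h4
      · rw [← InfinitePlace.mk_embedding u]
        refine congrArg InfinitePlace.mk (e4a_ext Q (fun y => ?_) ?_)
        · rw [e4a_emb hu, h1r]
        · rw [h4, h2]
      · rw [← InfinitePlace.mk_embedding u, ← InfinitePlace.mk_conjugate_eq ψ]
        refine congrArg InfinitePlace.mk (e4a_ext Q (fun y => ?_) ?_)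
        · rw [e4a_emb hu, ComplexEmbedding.conjugate_coe_eq, h1r, Complex.conj_ofReal]
        · rw [h4, ComplexEmbedding.conjugate_coe_eq, h2, map_mul, Complex.conj_I, Complex.conj_ofReal]
          ring
    · rintro rfl
      exact e4a_above h1r

/-- [TRY-E4a] the embedding of a place above `v`. PROOF. `u.embedding ∘ algebraMap` is a complex embedding which defines `v` (`InfinitePlace.comap_mk`, `mk_embedding`), so it is `v.embedding` or its conjugate (`InfinitePlace.mk_eq_iff`), and `v.embedding` is real: equal to `embedding_of_isReal` (`InfinitePlace.embedding_of_isReal_apply`). -/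
theorem embedding_above {v : InfinitePlace L} {u : InfinitePlace F} (h : u.comap (algebraMap L F) = v) (x : L) :
    u.embedding (algebraMap L F x) = ((InfinitePlace.embedding_of_isReal (IsTotallyReal.isReal v) x : ℝ) : ℂ) := by
  exact e4a_emb h x

end

end TRY
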