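import Pool.Agent.TRY.Defs
import Pool.Agent.TRY.E4a
import Pool.Agent.TTS.P6

set_option autoImplicit false

open NumberField Ideal IsDedekindDomain
open scoped Real Classical

/-! # [TRY-E4] the period over `F = L(√a)` -/

namespace TRY

open TR TRS TU TTS TRX

/-- the factor of an embedding -/
noncomputable def e4_f {L : Type} [Field L] (e δ : L) (j : L →+* ℝ) : ℝ :=
  Om ^ 2 * (if 0 < j e ∧ j δ < 0 then 7 else 1) * (if j e < 0 then √7 else 1) / |j δ|

section
variable {L F : Type} [Field L] [NumberField L] [Field F] [NumberField F] [Algebra L F] [IsTotallyReal L] (Q : QS L F)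

theorem e4_coe (j : L →+* ℝ) (t c : 𝓞 L) :
    j ((t ^ 2 + 4 * c : 𝓞 L) : L) = j (t : L) ^ 2 + 4 * j (c : L) := by
  rw [p5_coe t c, map_add, map_mul, map_pow, map_ofNat]

theorem e4_real (t c : 𝓞 L) (v : InfinitePlace L) (w : InfinitePlace F) (hw : w.IsReal)
    (h : w.comap (algebraMap L F) = v)
    (hD : InfinitePlace.embedding_of_isReal (IsTotallyReal.isReal v) ((t ^ 2 + 4 * c : 𝓞 L) : L) ≠ 0) :
    SBSD.archPeriod (TT.Wc (algebraMap L F (t : L)) (algebraMap L F (c : L))) w =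
      Om * (if InfinitePlace.embedding_of_isReal (IsTotallyReal.isReal v)
        ((t ^ 2 + 4 * c : 𝓞 L) : L) < 0 then √7 else 1) /
        √|InfinitePlace.embedding_of_isReal (IsTotallyReal.isReal v) ((t ^ 2 + 4 * c : 𝓞 L) : L)| := by
  have h1 : ∀ x : L, InfinitePlace.embedding_of_isReal hw (algebraMap L F x) =
      InfinitePlace.embedding_of_isReal (IsTotallyReal.isReal v) x := by
    intro x
    apply Complex.ofReal_injective
    rw [InfinitePlace.embedding_of_isReal_apply hw]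
    exact embedding_above h x
  unfold SBSD.archPeriod
  rw [dif_pos hw, TT.Wc_map, h1, h1]
  rw [e4_coe] at hD ⊢
  exact p5_real _ _ hD

theorem e4_cplx (t c : 𝓞 L) (v : InfinitePlace L) (w : InfinitePlace F) (hw : ¬ w.IsReal)
    (h : w.comap (algebraMap L F) = v)
    (hD : InfinitePlace.embedding_of_isReal (IsTotallyReal.isReal v) ((t ^ 2 + 4 * c : 𝓞 L) : L) ≠ 0) :
    SBSD.archPeriod (TT.Wc (algebraMap L F (t : L)) (algebraMap L F (c : L))) w =
      √7 * Om ^ 2 /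
        |InfinitePlace.embedding_of_isReal (IsTotallyReal.isReal v) ((t ^ 2 + 4 * c : 𝓞 L) : L)| := by
  have h1 := fun x : L => embedding_above h x
  unfold SBSD.archPeriod
  rw [dif_neg hw, TT.Wc_map, h1, h1]
  rw [e4_coe] at hD ⊢
  have h2 : ((InfinitePlace.embedding_of_isReal (IsTotallyReal.isReal v) (t : L) : ℝ) : ℂ) ^ 2 +
      4 * ((InfinitePlace.embedding_of_isReal (IsTotallyReal.isReal v) (c : L) : ℝ) : ℂ) =
      ((InfinitePlace.embedding_of_isReal (IsTotallyReal.isReal v) (t : L) ^ 2 +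
        4 * InfinitePlace.embedding_of_isReal (IsTotallyReal.isReal v) (c : L) : ℝ) : ℂ) := by
    push_cast
    ring
  rw [p6_area _ _ (by rw [h2]; exact Complex.ofReal_ne_zero.2 hD), h2, Complex.norm_real,
    Real.norm_eq_abs]

theorem e4_place (t c : 𝓞 L) (hD : t ^ 2 + 4 * c ≠ 0) (v : InfinitePlace L) :
    ∏ w ∈ Finset.univ.filter (fun w : InfinitePlace F => w.comap (algebraMap L F) = v),
      SBSD.archPeriod (TT.Wc (algebraMap L F (t : L)) (algebraMap L F (c : L))) w =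
      e4_f Q.e ((t ^ 2 + 4 * c : 𝓞 L) : L)
        (InfinitePlace.embedding_of_isReal (IsTotallyReal.isReal v)) := by
  have hD' : InfinitePlace.embedding_of_isReal (IsTotallyReal.isReal v)
      ((t ^ 2 + 4 * c : 𝓞 L) : L) ≠ 0 := by
    intro h
    rw [map_eq_zero] at h
    exact hD (by exact_mod_cast h)
  have he : InfinitePlace.embedding_of_isReal (IsTotallyReal.isReal v) Q.e ≠ 0 := by
    intro h
    rw [map_eq_zero] at h
    exact Q.e_ne h
  unfold e4_f
  rcases lt_or_gt_of_ne he with h | h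
  · obtain ⟨w, hw, hu⟩ := places_neg Q v h
    have hf : Finset.univ.filter (fun w : InfinitePlace F => w.comap (algebraMap L F) = v) = {w} := by
      ext u
      simp only [Finset.mem_filter, Finset.mem_univ, true_and, Finset.mem_singleton]
      exact hu u
    rw [hf, Finset.prod_singleton, e4_cplx t c v w hw ((hu w).2 rfl) hD', if_pos h,
      if_neg (fun h' => lt_asymm h h'.1)]
    ring
  · obtain ⟨w, w', hne, hw, hw', hu⟩ := places_pos Q v h
    have hf : Finset.univ.filter (fun w : InfinitePlace F => w.comap (algebraMap L F) = v) =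
        {w, w'} := by
      ext u
      simp only [Finset.mem_filter, Finset.mem_univ, true_and, Finset.mem_insert,
        Finset.mem_singleton]
      exact hu u
    rw [hf, Finset.prod_pair hne, e4_real t c v w hw ((hu w).2 (Or.inl rfl)) hD',
      e4_real t c v w' hw' ((hu w').2 (Or.inr rfl)) hD', if_neg (not_lt.2 h.le)]
    have h7 : √(7 : ℝ) * √7 = 7 := Real.mul_self_sqrt (by norm_num)
    have hs : √|InfinitePlace.embedding_of_isReal (IsTotallyReal.isReal v)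
        ((t ^ 2 + 4 * c : 𝓞 L) : L)| * √|InfinitePlace.embedding_of_isReal (IsTotallyReal.isReal v)
        ((t ^ 2 + 4 * c : 𝓞 L) : L)| = |InfinitePlace.embedding_of_isReal (IsTotallyReal.isReal v)
        ((t ^ 2 + 4 * c : 𝓞 L) : L)| := Real.mul_self_sqrt (abs_nonneg _)
    rw [div_mul_div_comm, hs]
    by_cases h0 : InfinitePlace.embedding_of_isReal (IsTotallyReal.isReal v)
        ((t ^ 2 + 4 * c : 𝓞 L) : L) < 0
    · rw [if_pos h0, if_pos ⟨h, h0⟩]
      congr 1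
      linear_combination Om ^ 2 * h7
    · rw [if_neg h0, if_neg (fun h' => h0 h'.2)]
      ring

/-- [TRY-E4] PROOF. `δ = t² + 4c`. `∏_w = ∏_v ∏_{w above v}` (`Finset.prod_fiberwise` for `w ↦ w.comap (algebraMap L F)`), `v` an infinite place of `L` with embedding `j = embedding_of_isReal`; the factor of `v` is `Om² · (7 if 0 < j e and j δ < 0) · (√7 if j e < 0) / |j δ|`:
`0 < j e` (`places_pos`): two real places, `archPeriod = realPeriod (Wc (j t) (j c)) = Om · (√7 if j δ < 0) / √|j δ|` (`TTS.p5_real`; `SBSD.archPeriod` of a real place uses `embedding_of_isReal`; with `embedding_above` and `InfinitePlace.embedding_of_isReal_apply` it is `j` on `L`). `j e < 0` (`places_neg`): one complex place, `archPeriod = 2 complexArea (Wc (j t) (j c)) = √7 Om² / |j δ|` (`TTS.p6_area`, as in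
`TTS.period_M`, TTS/P6.lean, complete). Then the product over `v` is the product over `j : L →+* ℝ` (`TTS.p5_bij`), `#(L →+* ℝ) = g` (`TR.card_real`), `Finset.prod_ite`, `Finset.prod_filter` (see `TTS.arch_Wc`, TTS/P5.lean, complete). `j e ≠ 0` as `Q.e ≠ 0` (`Q.e_ne`). -/
theorem arch_F (t c : 𝓞 L) (hD : t ^ 2 + 4 * c ≠ 0) :
    ∏ w : InfinitePlace F, SBSD.archPeriod (TT.Wc (algebraMap L F (t : L)) (algebraMap L F (c : L))) w =
      Om ^ (2 * Module.finrank ℚ L) *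
        7 ^ (Finset.univ.filter fun j : L →+* ℝ => 0 < j Q.e ∧ j ((t ^ 2 + 4 * c : 𝓞 L) : L) < 0).card *
        √7 ^ nneg Q.e / ∏ j : L →+* ℝ, |j ((t ^ 2 + 4 * c : 𝓞 L) : L)| := by
  have h1 : ∏ w : InfinitePlace F, SBSD.archPeriod
      (TT.Wc (algebraMap L F (t : L)) (algebraMap L F (c : L))) w =
      ∏ v : InfinitePlace L, e4_f Q.e ((t ^ 2 + 4 * c : 𝓞 L) : L)
        (InfinitePlace.embedding_of_isReal (IsTotallyReal.isReal v)) := by
    rw [← Finset.prod_fiberwise (s := (Finset.univ : Finset (InfinitePlace F)))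
      (g := fun w : InfinitePlace F => w.comap (algebraMap L F))]
    exact Finset.prod_congr rfl fun v _ => e4_place Q t c hD v
  have h2 : ∏ v : InfinitePlace L, e4_f Q.e ((t ^ 2 + 4 * c : 𝓞 L) : L)
        (InfinitePlace.embedding_of_isReal (IsTotallyReal.isReal v)) =
      ∏ j : L →+* ℝ, e4_f Q.e ((t ^ 2 + 4 * c : 𝓞 L) : L) j :=
    Fintype.prod_bijective _ p5_bij _ _ fun v => rfl
  rw [h1, h2]
  unfold e4_f
  rw [Finset.prod_div_distrib, Finset.prod_mul_distrib, Finset.prod_mul_distrib,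
    Finset.prod_const, Finset.card_univ, TR.card_real, ← pow_mul]
  congr 2
  · congr 1
    rw [← Finset.prod_filter, Finset.prod_const]
  · rw [← Finset.prod_filter, Finset.prod_const]
    rfl

theorem e4_core {t' c' : 𝓞 L} (hD : t' ^ 2 + 4 * c' ≠ 0)
    (h2 : ∀ v : HeightOneSpectrum (𝓞 L), (2 : 𝓞 L) ∈ v.asIdeal → t' ^ 2 + 4 * c' ∉ v.asIdeal)
    (b : ℕ) (hb : Odd b)
    (hab : ∏ j : L →+* ℝ, |j ((t' ^ 2 + 4 * c' : 𝓞 L) : L)| = b)
    {d y : L} (hy : y ≠ 0) (hd : d = y ^ 2 * ((t' ^ 2 + 4 * c' : 𝓞 L) : L))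
    (C : WeierstrassCurve.VariableChange F) :
    ∃ q : ℚ, 0 < q ∧ padicValRat 2 q = 0 ∧ SBSD.period (C • Ws (algebraMap L F d)) =
      (q : ℝ) * √7 ^ nneg Q.e * Om ^ (2 * Module.finrank ℚ L) := by
  have hδL : ((t' ^ 2 + 4 * c' : 𝓞 L) : L) ≠ 0 := fun h0 => hD (by exact_mod_cast h0)
  set tM : 𝓞 F := algebraMap (𝓞 L) (𝓞 F) t' with htM
  set cM : 𝓞 F := algebraMap (𝓞 L) (𝓞 F) c' with hcM
  have hmap : tM ^ 2 + 4 * cM = algebraMap (𝓞 L) (𝓞 F) (t' ^ 2 + 4 * c') := by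
    rw [map_add, map_mul, map_pow, map_ofNat]
  have hMδ : (tM : F) ^ 2 + 4 * (cM : F) = algebraMap L F ((t' ^ 2 + 4 * c' : 𝓞 L) : L) := by
    rw [← p5_coe, hmap]
    rfl
  have hne : (tM : F) ^ 2 + 4 * (cM : F) ≠ 0 := by
    rw [hMδ]
    exact (map_ne_zero _).2 hδL
  have h2v : ∀ P : HeightOneSpectrum (𝓞 F), (2 : 𝓞 F) ∈ P.asIdeal →
      tM ^ 2 + 4 * cM ∉ P.asIdeal := by
    intro P hP h1
    have h3 : (2 : 𝓞 L) ∈ (u6_below (L := L) P).asIdeal := by
      change (2 : 𝓞 L) ∈ P.asIdeal.comap (algebraMap (𝓞 L) (𝓞 F))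
      rw [Ideal.mem_comap, map_ofNat]
      exact hP
    refine h2 _ h3 ?_
    change t' ^ 2 + 4 * c' ∈ P.asIdeal.comap (algebraMap (𝓞 L) (𝓞 F))
    rw [Ideal.mem_comap, ← hmap]
    exact h1
  obtain ⟨q, hq, hv, hneron⟩ := neron_Wc F tM cM h2v
  set m : ℕ := (Finset.univ.filter fun j : L →+* ℝ =>
    0 < j Q.e ∧ j ((t' ^ 2 + 4 * c' : 𝓞 L) : L) < 0).card with hm
  obtain ⟨h3, h4⟩ := p5_rat hq hv ((by decide : Odd 7).pow (n := m)) hb
  have harch : ∏ w : InfinitePlace F, SBSD.archPeriod (TT.Wc (tM : F) (cM : F)) w =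
      Om ^ (2 * Module.finrank ℚ L) * 7 ^ m * √7 ^ nneg Q.e / b := by
    rw [← hab]
    exact arch_F Q t' c' hD
  obtain ⟨C1, hC1, -⟩ := Ws_scale (d := algebraMap L F ((t' ^ 2 + 4 * c' : 𝓞 L) : L))
    ((map_ne_zero (algebraMap L F)).2 hy)
  obtain ⟨C2, hC2, -⟩ := Wc_eq_Ws (tM : F) (cM : F)
  rw [hMδ] at hC2
  have h7 : C • Ws (algebraMap L F d) = (C * C1 * C2⁻¹) • TT.Wc (tM : F) (cM : F) := by
    rw [hC2, mul_smul, inv_smul_smul, hd, map_mul, map_pow, hC1, mul_smul]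
  have hΔ : (TT.Wc (tM : F) (cM : F)).Δ ≠ 0 := by
    rw [TT.Wc_Δ]
    exact mul_ne_zero (by norm_num) (pow_ne_zero _ hne)
  refine ⟨q * (7 ^ m : ℕ) / (b : ℕ), h3, h4, ?_⟩
  rw [h7, period_smul _ hΔ, SBSD.period, hneron, harch]
  push_cast
  ring

/-- [TRY-E4] the period over `F`. PROOF. As `TTS.period_L` / `TTS.period_M` (TTS/P5.lean, P6.lean, complete), but easier. First case of `h.rep` (`d = x² δ`, `δ = t² + 4c`): over `F` `C • Ws d = C' • Wc t c` (images in `𝓞 F`; `Ws_scale`, `Wc_eq_Ws`), `period_smul`, `neron_Wc F` (the condition at the primes above 2 from `h.adm.two`, `h.adm.mem_iff` as in `period_M`: `u6_below`), `arch_F` with `∏ |j δ| = N^k` (`prod_emb`, `N` odd positive).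
`q = q₀ 7^m / N^k`. Second case (`-7 d = x² δ`): the same with `c' = -2t² - 7c`, `t² + 4c' = -7 δ`, `∏ |j (-7δ)| = 7^g N^k` (as in `TTS.period_L`). -/
theorem period_F {d : L} {k : ℕ} {t c : 𝓞 L} {S : Finset (HeightOneSpectrum (𝓞 L))} (h : NF L d k t c S)
    (C : WeierstrassCurve.VariableChange F) :
    ∃ q : ℚ, 0 < q ∧ padicValRat 2 q = 0 ∧ SBSD.period (C • Ws (algebraMap L F d)) =
      (q : ℝ) * √7 ^ nneg Q.e * Om ^ (2 * Module.finrank ℚ L) := by
  have hN4 : (∏ v ∈ S, absNorm v.asIdeal) % 4 = 1 := by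
    refine Finset.prod_induction _ (fun n => n % 4 = 1) ?_ rfl h.adm.four
    intro a b ha hb
    rw [Nat.mul_mod, ha, hb]
  set N : ℕ := ∏ v ∈ S, absNorm v.asIdeal with hN
  have hNodd : Odd N := Nat.odd_iff.2 (by omega)
  have hNpos : (0 : ℝ) < (N : ℝ) := by
    have : 0 < N := by omega
    exact_mod_cast this
  have hδ := h.adm.ne
  have hprod : ∏ j : L →+* ℝ, |j ((t ^ 2 + 4 * c : 𝓞 L) : L)| = (N : ℝ) ^ k := by
    rw [← Finset.abs_prod, prod_emb h.adm, abs_of_pos (pow_pos hNpos k)]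
  have h2v : ∀ v : HeightOneSpectrum (𝓞 L), (2 : 𝓞 L) ∈ v.asIdeal → t ^ 2 + 4 * c ∉ v.asIdeal := by
    intro v hv h1
    exact h.adm.two v ((h.adm.mem_iff v).2 h1) hv
  obtain ⟨x, hx, h1 | h1⟩ := h.rep
  · refine e4_core Q hδ h2v (N ^ k) hNodd.pow ?_ hx h1 C
    rw [hprod]
    push_cast
    rfl
  · have h49 : d = (x / 7) ^ 2 * ((t ^ 2 + 4 * (-2 * t ^ 2 - 7 * c) : 𝓞 L) : L) := by
      have e : ((t ^ 2 + 4 * (-2 * t ^ 2 - 7 * c) : 𝓞 L) : L) =
          -7 * ((t ^ 2 + 4 * c : 𝓞 L) : L) := by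
        have e1 : t ^ 2 + 4 * (-2 * t ^ 2 - 7 * c) = -7 * (t ^ 2 + 4 * c) := by ring
        rw [e1, p5_seven]
      rw [e]
      linear_combination (-1 / 7 : L) * h1
    set c' : 𝓞 L := -2 * t ^ 2 - 7 * c with hc'
    have e1 : t ^ 2 + 4 * c' = -7 * (t ^ 2 + 4 * c) := by rw [hc']; ring
    have hδ' : t ^ 2 + 4 * c' ≠ 0 := by
      rw [e1]
      exact mul_ne_zero (by norm_num) hδ
    have hx' : x / 7 ≠ 0 := div_ne_zero hx (by norm_num)
    have h2v' : ∀ v : HeightOneSpectrum (𝓞 L), (2 : 𝓞 L) ∈ v.asIdeal →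
        t ^ 2 + 4 * c' ∉ v.asIdeal := by
      intro v hv hmem
      rw [e1, neg_mul] at hmem
      rcases v.isPrime.mem_or_mem (neg_mem_iff.1 hmem) with h5 | h5
      · apply v.isPrime.ne_top
        rw [Ideal.eq_top_iff_one]
        have h6 : (1 : 𝓞 L) = 7 - 2 * 3 := by norm_num
        rw [h6]
        exact v.asIdeal.sub_mem h5 (Ideal.mul_mem_right _ _ hv)
      · exact h2v v hv h5
    have hj : ∀ j : L →+* ℝ, j ((t ^ 2 + 4 * c' : 𝓞 L) : L) =
        -7 * j ((t ^ 2 + 4 * c : 𝓞 L) : L) := by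
      intro j
      rw [e1, p5_seven, map_mul, map_neg, map_ofNat]
    have hprod' : ∏ j : L →+* ℝ, |j ((t ^ 2 + 4 * c' : 𝓞 L) : L)| =
        7 ^ Module.finrank ℚ L * (N : ℝ) ^ k := by
      rw [← hprod, ← TR.card_real, ← Finset.card_univ, ← Finset.prod_const,
        ← Finset.prod_mul_distrib]
      refine Finset.prod_congr rfl fun j _ => ?_
      rw [hj j, abs_mul]
      norm_num
    refine e4_core Q hδ' h2v' (7 ^ Module.finrank ℚ L * N ^ k)
      (((by decide : Odd 7).pow).mul hNodd.pow) ?_ hx' h49 C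
    rw [hprod']
    push_cast
    rfl

end

end TRY
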