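import Pool.Agent.TRY.Defs
import Pool.Agent.TTS.P6

set_option autoImplicit false

open NumberField Ideal IsDedekindDomain
open scoped Real Classical

/-! # [TRY-E4b] the period over `N = M(√a)` -/

namespace TRY

open TR TRS TU TTS TRX

theorem e4b_sq (N : Type) [Field N] [NumberField N] [IsTotallyComplex N] (x : N) :
    (∏ w : InfinitePlace N, w x) ^ 2 = ((|Algebra.norm ℚ x| : ℚ) : ℝ) := by
  rw [← InfinitePlace.prod_eq_abs_norm, ← Finset.prod_pow]
  exact Finset.prod_congr rfl fun w _ => by rw [IsTotallyComplex.mult_eq]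

section
variable {L M N : Type} [Field L] [NumberField L] [Field M] [NumberField M] [Field N] [NumberField N]
  [Algebra L M] [Algebra M N] [IsTotallyReal L] (D : Dat L M) (Q : QS M N)
include D

theorem e4b_tc : IsTotallyComplex N := by
  have := D.isTotallyComplex
  exact isTotallyComplex_of_algebra M N

/-- [TRY-E4b] PROOF. `M` is totally complex (`D.isTotallyComplex`), so `N` is: a real embedding of `N` would give one of `M` (or of `√-7`: `r² = -7` has no real solution). -/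
theorem complex_N : ∀ w : InfinitePlace N, ¬ w.IsReal := by
  have : IsTotallyComplex N := e4b_tc D
  exact fun w => InfinitePlace.not_isReal_iff_isComplex.2 (IsTotallyComplex.isComplex w)

include Q in
/-- [TRY-E4b] PROOF. `[N : ℚ] = 2 [M : ℚ] = 4 g` (`QS.finrank_eq`, `D.finrank_eq_two`, `Module.finrank_mul_finrank`) and all places are complex: `2 #places = 4 g` (`InfinitePlace.card_add_two_mul_card_eq_rank`). -/
theorem card_N : Fintype.card (InfinitePlace N) = 2 * Module.finrank ℚ L := by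
  have : IsTotallyComplex N := e4b_tc D
  have h1 : Module.finrank ℚ L * Module.finrank L M = Module.finrank ℚ M :=
    Module.finrank_mul_finrank ℚ L M
  have h2 : Module.finrank ℚ M * Module.finrank M N = Module.finrank ℚ N :=
    Module.finrank_mul_finrank ℚ M N
  rw [D.finrank_eq_two] at h1
  rw [Q.finrank_eq] at h2
  have h3 := IsTotallyComplex.finrank (K := N)
  rw [InfinitePlace.card_eq_nrRealPlaces_add_nrComplexPlaces,
    IsTotallyComplex.nrRealPlaces_eq_zero, zero_add]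
  omega

include Q in
/-- [TRY-E4b] PROOF. `∏_w w(x)^(mult w) = |Norm_{N/ℚ} x|` (`InfinitePlace.prod_eq_abs_norm`), all `mult w = 2`, `Norm_{N/ℚ} x = (Norm_{L/ℚ} x)⁴` (`Algebra.norm_norm`, `Algebra.norm_algebraMap`), `|Norm_{L/ℚ} x| = ∏_j |j x|` (the same formula for `L`, `mult = 1`, `TTS.p5_bij`; see `TTS.p6_prod`). Both sides are nonnegative with equal squares. -/
theorem prod_N (x : L) : ∏ w : InfinitePlace N, w (algebraMap M N (algebraMap L M x)) = (∏ j : L →+* ℝ, |j x|) ^ 2 := by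
  have : IsTotallyComplex N := e4b_tc D
  have := D.isTotallyComplex
  have h1 := e4b_sq N (algebraMap M N (algebraMap L M x))
  have h2 := e4b_sq M (algebraMap L M x)
  rw [p6_prod D] at h2
  have h3 : Algebra.norm ℚ (algebraMap M N (algebraMap L M x)) =
      Algebra.norm ℚ (algebraMap L M x) ^ 2 := by
    rw [← Algebra.norm_norm (R := ℚ) (S := M), Algebra.norm_algebraMap, Q.finrank_eq, map_pow]
  rw [h3, abs_pow, Rat.cast_pow, ← h2] at h1
  have h4 : 0 ≤ ∏ w : InfinitePlace N, w (algebraMap M N (algebraMap L M x)) :=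
    Finset.prod_nonneg fun w _ => apply_nonneg w _
  have h5 : 0 ≤ (∏ j : L →+* ℝ, |j x|) ^ 2 := sq_nonneg _
  exact (pow_left_inj₀ h4 h5 two_ne_zero).1 h1

include Q in
/-- [TRY-E4b] the period over `N`. PROOF. As `TTS.period_M` (TTS/P6.lean, complete) with `N` in place of `M`: `algebraMap d = y² δ` in `N`, `archPeriod = √7 Om² / ‖δ‖_w`, the product over the `2 g` places is `√7^(2g) Om^(4g) / (∏_j |j δ|)² = 7^g Om^(4g) / N^(2k)` (`prod_emb`). -/
theorem period_N {d : L} {k : ℕ} {t c : 𝓞 L} {S : Finset (HeightOneSpectrum (𝓞 L))} (h : NF L d k t c S)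
    (C : WeierstrassCurve.VariableChange N) :
    ∃ q : ℚ, 0 < q ∧ padicValRat 2 q = 0 ∧ SBSD.period (C • Ws (algebraMap M N (algebraMap L M d))) =
      (q : ℝ) * Om ^ (4 * Module.finrank ℚ L) := by
  have hNc : IsTotallyComplex N := e4b_tc D
  have hN4 : (∏ v ∈ S, absNorm v.asIdeal) % 4 = 1 := by
    refine Finset.prod_induction _ (fun n => n % 4 = 1) ?_ rfl h.adm.four
    intro a b ha hb
    rw [Nat.mul_mod, ha, hb]
  set Nn : ℕ := ∏ v ∈ S, absNorm v.asIdeal with hN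
  have hNodd : Odd Nn := Nat.odd_iff.2 (by omega)
  have hNpos : (0 : ℝ) < (Nn : ℝ) := by
    have : 0 < Nn := by omega
    exact_mod_cast this
  have hδ := h.adm.ne
  have hδL : ((t ^ 2 + 4 * c : 𝓞 L) : L) ≠ 0 := fun h0 => hδ (by exact_mod_cast h0)
  have hprod : ∏ j : L →+* ℝ, |j ((t ^ 2 + 4 * c : 𝓞 L) : L)| = (Nn : ℝ) ^ k := by
    rw [← Finset.abs_prod, prod_emb h.adm, abs_of_pos (pow_pos hNpos k)]
  set tM : 𝓞 M := algebraMap (𝓞 L) (𝓞 M) t with htM
  set cM : 𝓞 M := algebraMap (𝓞 L) (𝓞 M) c with hcM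
  have hmap : tM ^ 2 + 4 * cM = algebraMap (𝓞 L) (𝓞 M) (t ^ 2 + 4 * c) := by
    rw [map_add, map_mul, map_pow, map_ofNat]
  have hMδ : (tM : M) ^ 2 + 4 * (cM : M) = algebraMap L M ((t ^ 2 + 4 * c : 𝓞 L) : L) := by
    rw [← p5_coe, hmap]
    rfl
  set tN : 𝓞 N := algebraMap (𝓞 M) (𝓞 N) tM with htN
  set cN : 𝓞 N := algebraMap (𝓞 M) (𝓞 N) cM with hcN
  have hmapN : tN ^ 2 + 4 * cN = algebraMap (𝓞 M) (𝓞 N) (tM ^ 2 + 4 * cM) := by
    rw [map_add, map_mul, map_pow, map_ofNat]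
  have hNδ : (tN : N) ^ 2 + 4 * (cN : N) =
      algebraMap M N (algebraMap L M ((t ^ 2 + 4 * c : 𝓞 L) : L)) := by
    rw [← hMδ, ← p5_coe, hmapN, ← p5_coe]
    rfl
  have hne : (tN : N) ^ 2 + 4 * (cN : N) ≠ 0 := by
    rw [hNδ]
    exact (map_ne_zero _).2 ((map_ne_zero _).2 hδL)
  have h2v : ∀ P : HeightOneSpectrum (𝓞 N), (2 : 𝓞 N) ∈ P.asIdeal →
      tN ^ 2 + 4 * cN ∉ P.asIdeal := by
    intro P0 hP0 h10
    have hP : (2 : 𝓞 M) ∈ (u6_below (L := M) P0).asIdeal := by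
      change (2 : 𝓞 M) ∈ P0.asIdeal.comap (algebraMap (𝓞 M) (𝓞 N))
      rw [Ideal.mem_comap, map_ofNat]
      exact hP0
    have h1 : tM ^ 2 + 4 * cM ∈ (u6_below (L := M) P0).asIdeal := by
      change tM ^ 2 + 4 * cM ∈ P0.asIdeal.comap (algebraMap (𝓞 M) (𝓞 N))
      rw [Ideal.mem_comap, ← hmapN]
      exact h10
    have h2 : (2 : 𝓞 L) ∈ (u6_below (L := L) (u6_below (L := M) P0)).asIdeal := by
      change (2 : 𝓞 L) ∈ (u6_below (L := M) P0).asIdeal.comap (algebraMap (𝓞 L) (𝓞 M))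
      rw [Ideal.mem_comap, map_ofNat]
      exact hP
    have h3 : t ^ 2 + 4 * c ∈ (u6_below (L := L) (u6_below (L := M) P0)).asIdeal := by
      change t ^ 2 + 4 * c ∈ (u6_below (L := M) P0).asIdeal.comap (algebraMap (𝓞 L) (𝓞 M))
      rw [Ideal.mem_comap, ← hmap]
      exact h1
    exact h.adm.two _ ((h.adm.mem_iff _).2 h3) h2
  obtain ⟨q, hq, hv, hneron⟩ := neron_Wc N tN cN h2v
  obtain ⟨h3, h4⟩ := p5_rat hq hv (a := 7 ^ Module.finrank ℚ L) (Odd.pow (by decide))
    (hNodd.pow (n := 2 * k))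
  have hs7 : (√7 : ℝ) ^ 2 = 7 := Real.sq_sqrt (by norm_num)
  have harch : ∏ w : InfinitePlace N, SBSD.archPeriod (TT.Wc (tN : N) (cN : N)) w =
      7 ^ Module.finrank ℚ L * Om ^ (4 * Module.finrank ℚ L) / (Nn : ℝ) ^ (2 * k) := by
    have h5 : ∀ w : InfinitePlace N, SBSD.archPeriod (TT.Wc (tN : N) (cN : N)) w =
        √7 * Om ^ 2 / w (algebraMap M N (algebraMap L M ((t ^ 2 + 4 * c : 𝓞 L) : L))) := by
      intro w
      have hw : ¬ w.IsReal := InfinitePlace.not_isReal_iff_isComplex.2 (IsTotallyComplex.isComplex w)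
      have h6 : (w.embedding (tN : N)) ^ 2 + 4 * w.embedding (cN : N) =
          w.embedding (algebraMap M N (algebraMap L M ((t ^ 2 + 4 * c : 𝓞 L) : L))) := by
        rw [← hNδ, map_add, map_mul, map_pow, map_ofNat]
      unfold SBSD.archPeriod
      rw [dif_neg hw, TT.Wc_map, p6_area, h6, InfinitePlace.norm_embedding_eq]
      rw [h6]
      exact (map_ne_zero _).2 ((map_ne_zero _).2 ((map_ne_zero _).2 hδL))
    rw [Finset.prod_congr rfl fun w _ => h5 w, Finset.prod_div_distrib, prod_N D Q, hprod,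
      Finset.prod_const, Finset.card_univ, card_N D Q, mul_pow, ← pow_mul, pow_mul (√7 : ℝ),
      hs7, ← pow_mul (Nn : ℝ), show 2 * (2 * Module.finrank ℚ L) = 4 * Module.finrank ℚ L by ring,
      mul_comm k 2]
  obtain ⟨y, hy, h1⟩ : ∃ y : M, y ≠ 0 ∧ algebraMap L M d =
      y ^ 2 * algebraMap L M ((t ^ 2 + 4 * c : 𝓞 L) : L) := by
    obtain ⟨x, hx, h1 | h1⟩ := h.rep
    · refine ⟨algebraMap L M x, (map_ne_zero _).2 hx, ?_⟩
      rw [h1, map_mul, map_pow]
    · have hr : D.r ≠ 0 := by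
        intro h0
        have := D.hr
        rw [h0] at this
        norm_num at this
      refine ⟨algebraMap L M x / D.r, div_ne_zero ((map_ne_zero _).2 hx) hr, ?_⟩
      have h5 := congrArg (algebraMap L M) h1
      rw [map_mul, map_mul, map_pow, map_neg, map_ofNat, ← D.hr] at h5
      rw [div_pow, div_mul_eq_mul_div, ← h5]
      field_simp
  obtain ⟨C1, hC1, -⟩ := Ws_scale
    (d := algebraMap M N (algebraMap L M ((t ^ 2 + 4 * c : 𝓞 L) : L)))
    ((map_ne_zero (algebraMap M N)).2 hy)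
  obtain ⟨C2, hC2, -⟩ := Wc_eq_Ws (tN : N) (cN : N)
  rw [hNδ] at hC2
  have h7 : C • Ws (algebraMap M N (algebraMap L M d)) =
      (C * C1 * C2⁻¹) • TT.Wc (tN : N) (cN : N) := by
    rw [hC2, mul_smul, inv_smul_smul, h1, map_mul, map_pow, hC1, mul_smul]
  have hΔ : (TT.Wc (tN : N) (cN : N)).Δ ≠ 0 := by
    rw [TT.Wc_Δ]
    exact mul_ne_zero (by norm_num) (pow_ne_zero _ hne)
  refine ⟨q * (7 ^ Module.finrank ℚ L : ℕ) / (Nn ^ (2 * k) : ℕ), h3, h4, ?_⟩
  rw [h7, period_smul _ hΔ, SBSD.period, hneron, harch]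
  push_cast
  field_simp

end

end TRY
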