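import Pool.Agent.TRY.Defs
import Pool.Agent.TTS.Q1

set_option autoImplicit false

open NumberField Ideal IsDedekindDomain
open scoped Real Classical

/-! # [TRY-E5] the quotients over `F` and `N` -/

namespace TRY

open TR TRS TU TTS TRX

section
variable {L : Type} [Field L] [NumberField L] {V T : Finset (HeightOneSpectrum (𝓞 L))}

/-- [TRY-E5] PROOF. `NS` is a product over the set: `V = (V \ T) ∪ (V ∩ T)`, `T = (T \ V) ∪ (V ∩ T)`, `symmDiff V T = (V \ T) ∪ (T \ V)`, all disjoint (`Finset.prod_union`); the norms are odd (`≡ 1 mod 4`). -/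
theorem ns_eq (hV : NiceSet V) : NS V * NS (symmDiff V T) = NS (V \ T) ^ 2 * NS T ∧ Odd (NS (V \ T)) := by
  constructor
  · have h1 : NS V = NS (V ∩ T) * NS (V \ T) := (Finset.prod_inter_mul_prod_sdiff V T _).symm
    have h2 : NS T = NS (V ∩ T) * NS (T \ V) := by
      rw [Finset.inter_comm]
      exact (Finset.prod_inter_mul_prod_sdiff T V _).symm
    have h3 : NS (symmDiff V T) = NS (V \ T) * NS (T \ V) := by
      have hd : Disjoint (V \ T) (T \ V) := by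
        rw [Finset.disjoint_left]
        intro x hx hx'
        exact (Finset.mem_sdiff.1 hx).2 (Finset.mem_sdiff.1 hx').1
      have hs : symmDiff V T = (V \ T) ∪ (T \ V) := rfl
      rw [hs]
      exact Finset.prod_union hd
    rw [h1, h2, h3]
    ring
  · unfold NS
    apply Finset.prod_induction _ Odd (fun _ _ h1 h2 => h1.mul h2) odd_one
    intro v hv
    have := hV.four v (Finset.mem_sdiff.1 hv).1
    rw [Nat.odd_iff]
    omega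

/-- [TRY-E5] PROOF. `#V + #(symmDiff V T) = 2 #(V \ T) + #T`. -/
theorem card_eq : V.card + (symmDiff V T).card = 2 * (V \ T).card + T.card := by
  have h1 : (V ∩ T).card + (V \ T).card = V.card := Finset.card_inter_add_card_sdiff V T
  have h2 : (T ∩ V).card + (T \ V).card = T.card := Finset.card_inter_add_card_sdiff T V
  have h3 : (symmDiff V T).card = (V \ T).card + (T \ V).card := by
    have hd : Disjoint (V \ T) (T \ V) := by
      rw [Finset.disjoint_left]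
      intro x hx hx'
      exact (Finset.mem_sdiff.1 hx).2 (Finset.mem_sdiff.1 hx').1
    have hs : symmDiff V T = (V \ T) ∪ (T \ V) := rfl
    rw [hs]
    exact Finset.card_union_of_disjoint hd
  rw [Finset.inter_comm] at h2
  omega

theorem e5_v4 : padicValRat 2 (4 : ℚ) = 2 := by
  have : Fact (Nat.Prime 2) := ⟨Nat.prime_two⟩
  rw [show (4 : ℚ) = 2 ^ 2 by norm_num, padicValRat.pow, q1_v2]
  norm_num

theorem e5_v16 : padicValRat 2 (16 : ℚ) = 4 := by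
  have : Fact (Nat.Prime 2) := ⟨Nat.prime_two⟩
  rw [show (16 : ℚ) = 2 ^ 4 by norm_num, padicValRat.pow, q1_v2]
  norm_num

theorem e5_v7 : padicValRat 2 (7 : ℚ) = 0 := by
  have h := q1_odd (m := 7) (by decide)
  exact_mod_cast h

variable (V T)

/-- [TRY-E5] the quotient over `F`. PROOF. `bsdQuotient = (Z Z') √|d_F| (2m)² / (period · tam)`. With `A = Om^g`, `B = |d_L| > 0`, `√|d_L|² = B`: `Z Z' = q₁ q₂ A² / (B √(NS V) √(NS (symmDiff V T)))`, `√(NS V) √(NS (symmDiff V T)) = NS (V \ T) √(NS T)` (`ns_eq`). So `bsdQuotient = q₁ q₂ qd 4 m² / (qP n NS(V \ T))`, `n = (if ..) 4^(#(V \ T))`;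
`2`-adic valuation `(#V - 1) + (#(symmDiff V T) - 1) + 2 - (2 or 1) - 2 #(V \ T) = #T - (2 or 1)` (`card_eq`) `= 2 ((#T - 1)/2)` (`hT`). Compare `TTS.quotient_L`, `TTS.quotient_M` (TTS/Q1.lean, complete). -/
theorem quotient_F {F : Type} [Field F] [NumberField F] (W : WeierstrassCurve F) (hV : NiceSet V) (hT : T.Nonempty) {n₀ : ℕ}
    (htam : ∏ᶠ P : HeightOneSpectrum (𝓞 F), SBSD.tam W P = (if Even T.card then 4 else 2) * 4 ^ (V \ T).card)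
    (htor : ∃ m : ℕ, Odd m ∧ Nat.card (AddCommGroup.torsion W.toAffine.Point) = 2 * m)
    (hdisc : ∃ q : ℚ, 0 < q ∧ padicValRat 2 q = 0 ∧
      √|(discr F : ℝ)| = (q : ℝ) * √7 ^ n₀ * √(NS T : ℝ) * |(discr L : ℝ)|)
    (hper : ∃ q : ℚ, 0 < q ∧ padicValRat 2 q = 0 ∧ SBSD.period W = (q : ℝ) * √7 ^ n₀ * Om ^ (2 * Module.finrank ℚ L))
    (a b : ℂ) (q₁ q₂ : ℚ) (hq₁ : q₁ ≠ 0) (h2₁ : padicValRat 2 q₁ = (V.card : ℤ) - 1)
    (ha : a * ((√|(discr L : ℝ)| : ℝ) : ℂ) * ((√((∏ v ∈ V, absNorm v.asIdeal : ℕ) : ℝ) : ℝ) : ℂ) /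
        ((Om : ℝ) : ℂ) ^ Module.finrank ℚ L = q₁)
    (hq₂ : q₂ ≠ 0) (h2₂ : padicValRat 2 q₂ = ((symmDiff V T).card : ℤ) - 1)
    (hb : b * ((√|(discr L : ℝ)| : ℝ) : ℂ) * ((√((∏ v ∈ symmDiff V T, absNorm v.asIdeal : ℕ) : ℝ) : ℝ) : ℂ) /
        ((Om : ℝ) : ℂ) ^ Module.finrank ℚ L = q₂) :
    ∃ q' : ℚ, q' ≠ 0 ∧ padicValRat 2 q' = ((2 * ((T.card - 1) / 2) : ℕ) : ℤ) ∧
      SBSD2.bsdQuotient W (a * b) = q' := by
  have : Fact (Nat.Prime 2) := ⟨Nat.prime_two⟩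
  obtain ⟨m, hm, hcard⟩ := htor
  obtain ⟨qd, hqd, hqd2, hdisc⟩ := hdisc
  obtain ⟨qP, hqP, hqP2, hper⟩ := hper
  obtain ⟨hNS, hodd⟩ := ns_eq (T := T) hV
  have hce := card_eq (V := V) (T := T)
  have hTc : 0 < T.card := Finset.card_pos.2 hT
  have hm0 : m ≠ 0 := by
    rintro rfl
    exact absurd hm (by decide)
  have hmQ : (m : ℚ) ≠ 0 := Nat.cast_ne_zero.2 hm0
  have hqP0 : qP ≠ 0 := hqP.ne'
  have hqd0 : qd ≠ 0 := hqd.ne'
  change a * ((√|(discr L : ℝ)| : ℝ) : ℂ) * ((√((NS V : ℕ) : ℝ) : ℝ) : ℂ) /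
        ((Om : ℝ) : ℂ) ^ Module.finrank ℚ L = q₁ at ha
  change b * ((√|(discr L : ℝ)| : ℝ) : ℂ) * ((√((NS (symmDiff V T) : ℕ) : ℝ) : ℝ) : ℂ) /
        ((Om : ℝ) : ℂ) ^ Module.finrank ℚ L = q₂ at hb
  -- the Tamagawa product
  obtain ⟨w, hw0, hw2, htam'⟩ : ∃ w : ℕ, w ≠ 0 ∧
      padicValRat 2 (w : ℚ) = (T.card : ℤ) - ((2 * ((T.card - 1) / 2) : ℕ) : ℤ) + 2 * ((V \ T).card : ℤ) ∧
      ∏ᶠ P : HeightOneSpectrum (𝓞 F), SBSD.tam W P = w := by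
    refine ⟨(if Even T.card then 4 else 2) * 4 ^ (V \ T).card, ?_, ?_, htam⟩
    · split_ifs <;> positivity
    · by_cases hev : Even T.card
      · rw [if_pos hev]
        push_cast
        rw [padicValRat.mul four_ne_zero (pow_ne_zero _ four_ne_zero), padicValRat.pow, e5_v4]
        obtain ⟨k, hk⟩ := hev
        have : (T.card - 1) / 2 + 1 = k := by omega
        omega
      · rw [if_neg hev]
        push_cast
        rw [padicValRat.mul two_ne_zero (pow_ne_zero _ four_ne_zero), padicValRat.pow, e5_v4, q1_v2]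
        obtain ⟨k, hk⟩ := Nat.not_even_iff_odd.1 hev
        have : (T.card - 1) / 2 = k := by omega
        omega
  clear htam
  have hwQ : (w : ℚ) ≠ 0 := Nat.cast_ne_zero.2 hw0
  have hn0 : NS (V \ T) ≠ 0 := by
    intro h0
    rw [h0] at hodd
    exact absurd hodd (by decide)
  generalize hnn : NS (V \ T) = n at hNS hodd hn0
  have hnQ : (n : ℚ) ≠ 0 := Nat.cast_ne_zero.2 hn0
  refine ⟨q₁ * q₂ * qd * (2 * (m : ℚ)) ^ 2 / (n * (qP * w)), ?_, ?_, ?_⟩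
  · exact div_ne_zero (mul_ne_zero (mul_ne_zero (mul_ne_zero hq₁ hq₂) hqd0)
      (pow_ne_zero _ (mul_ne_zero two_ne_zero hmQ)))
      (mul_ne_zero hnQ (mul_ne_zero hqP0 hwQ))
  · rw [padicValRat.div (mul_ne_zero (mul_ne_zero (mul_ne_zero hq₁ hq₂) hqd0)
      (pow_ne_zero _ (mul_ne_zero two_ne_zero hmQ)))
      (mul_ne_zero hnQ (mul_ne_zero hqP0 hwQ)),
      padicValRat.mul (mul_ne_zero (mul_ne_zero hq₁ hq₂) hqd0)
        (pow_ne_zero _ (mul_ne_zero two_ne_zero hmQ)),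
      padicValRat.mul (mul_ne_zero hq₁ hq₂) hqd0, padicValRat.mul hq₁ hq₂,
      padicValRat.pow, padicValRat.mul two_ne_zero hmQ,
      padicValRat.mul hnQ (mul_ne_zero hqP0 hwQ), padicValRat.mul hqP0 hwQ,
      q1_odd hm, q1_odd hodd, q1_v2, hqP2, hqd2, h2₁, h2₂, hw2]
    push_cast
    have hce' : (V.card : ℤ) + ((symmDiff V T).card : ℤ) = 2 * ((V \ T).card : ℤ) + (T.card : ℤ) := by
      exact_mod_cast hce
    linear_combination hce'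
  · have hq1C : (q₁ : ℂ) ≠ 0 := by exact_mod_cast hq₁
    have hOm : ((Om : ℝ) : ℂ) ^ Module.finrank ℚ L ≠ 0 := by
      intro h0
      rw [h0, div_zero] at ha
      exact hq1C ha.symm
    have hqPC : (qP : ℂ) ≠ 0 := by exact_mod_cast hqP0
    have hnC : (n : ℂ) ≠ 0 := Nat.cast_ne_zero.2 hn0
    have hwC : (w : ℂ) ≠ 0 := Nat.cast_ne_zero.2 hw0
    have h7 : ((√7 : ℝ) : ℂ) ^ n₀ ≠ 0 := by
      apply pow_ne_zero
      rw [Complex.ofReal_ne_zero]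
      exact (Real.sqrt_pos.2 (by norm_num)).ne'
    have hsq : ((√((NS V : ℕ) : ℝ) : ℝ) : ℂ) * ((√((NS (symmDiff V T) : ℕ) : ℝ) : ℝ) : ℂ) =
        (n : ℂ) * ((√((NS T : ℕ) : ℝ) : ℝ) : ℂ) := by
      rw [← Complex.ofReal_mul, ← Real.sqrt_mul (Nat.cast_nonneg _), ← Nat.cast_mul, hNS,
        Nat.cast_mul, Real.sqrt_mul (Nat.cast_nonneg _), Nat.cast_pow,
        Real.sqrt_sq (Nat.cast_nonneg _), Complex.ofReal_mul, Complex.ofReal_natCast]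
    have hB : ((√|(discr L : ℝ)| : ℝ) : ℂ) ^ 2 = ((|(discr L : ℝ)| : ℝ) : ℂ) := by
      rw [← Complex.ofReal_pow, Real.sq_sqrt (abs_nonneg _)]
    have ha' : a * ((√|(discr L : ℝ)| : ℝ) : ℂ) * ((√((NS V : ℕ) : ℝ) : ℝ) : ℂ) =
        q₁ * ((Om : ℝ) : ℂ) ^ Module.finrank ℚ L := (div_eq_iff hOm).1 ha
    have hb' : b * ((√|(discr L : ℝ)| : ℝ) : ℂ) * ((√((NS (symmDiff V T) : ℕ) : ℝ) : ℝ) : ℂ) =
        q₂ * ((Om : ℝ) : ℂ) ^ Module.finrank ℚ L := (div_eq_iff hOm).1 hb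
    have key : a * b * ((|(discr L : ℝ)| : ℝ) : ℂ) * ((n : ℂ) * ((√((NS T : ℕ) : ℝ) : ℝ) : ℂ)) =
        q₁ * q₂ * (((Om : ℝ) : ℂ) ^ Module.finrank ℚ L) ^ 2 := by
      rw [← hsq, ← hB]
      linear_combination (b * ((√|(discr L : ℝ)| : ℝ) : ℂ) *
        ((√((NS (symmDiff V T) : ℕ) : ℝ) : ℝ) : ℂ)) * ha' +
        (q₁ * ((Om : ℝ) : ℂ) ^ Module.finrank ℚ L) * hb'
    clear ha hb ha' hb' hsq hB
    unfold SBSD2.bsdQuotient
    rw [hcard, htam', hper, hdisc]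
    push_cast
    rw [pow_mul']
    generalize ((Om : ℝ) : ℂ) ^ Module.finrank ℚ L = X at key hOm ⊢
    generalize ((√((NS T : ℕ) : ℝ) : ℝ) : ℂ) = Y at key ⊢
    generalize ((√7 : ℝ) : ℂ) ^ n₀ = Z at h7 ⊢
    generalize ((|(discr L : ℝ)| : ℝ) : ℂ) = D' at key ⊢
    field_simp
    linear_combination key

/-- [TRY-E5] the quotient over `N`. PROOF. `bsdQuotient = (a b)² √|d_N| (4m)² / (period · tam)`, `√|d_N| = 7^g NS(T) B²`, `(a b)² = (q₁ q₂)² A⁴ / (B² NS(V) NS(symmDiff V T))`, `NS V NS (symmDiff V T) = NS(V \ T)² NS T`: `bsdQuotient = (q₁ q₂)² 7^g 16 m² / (qP NS(V \ T)² n)`, `n = (if ..) 16^(#(V \ T))`; valuation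
`2 (#V - 1 + #(symmDiff V T) - 1) + 4 - (4 or 2) - 4 #(V \ T) = 2 #T - (4 or 2) = 2 (2 ((#T - 1)/2))`. -/
theorem quotient_N {N : Type} [Field N] [NumberField N] (W : WeierstrassCurve N) (hV : NiceSet V) (hT : T.Nonempty)
    (htam : ∏ᶠ P : HeightOneSpectrum (𝓞 N), SBSD.tam W P = (if Even T.card then 16 else 4) * 16 ^ (V \ T).card)
    (htor : ∃ m : ℕ, Odd m ∧ Nat.card (AddCommGroup.torsion W.toAffine.Point) = 4 * m)
    (hdisc : √|(discr N : ℝ)| = 7 ^ Module.finrank ℚ L * (NS T : ℝ) * |(discr L : ℝ)| ^ 2)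
    (hper : ∃ q : ℚ, 0 < q ∧ padicValRat 2 q = 0 ∧ SBSD.period W = (q : ℝ) * Om ^ (4 * Module.finrank ℚ L))
    (a b : ℂ) (q₁ q₂ : ℚ) (hq₁ : q₁ ≠ 0) (h2₁ : padicValRat 2 q₁ = (V.card : ℤ) - 1)
    (ha : a * ((√|(discr L : ℝ)| : ℝ) : ℂ) * ((√((∏ v ∈ V, absNorm v.asIdeal : ℕ) : ℝ) : ℝ) : ℂ) /
        ((Om : ℝ) : ℂ) ^ Module.finrank ℚ L = q₁)
    (hq₂ : q₂ ≠ 0) (h2₂ : padicValRat 2 q₂ = ((symmDiff V T).card : ℤ) - 1)
    (hb : b * ((√|(discr L : ℝ)| : ℝ) : ℂ) * ((√((∏ v ∈ symmDiff V T, absNorm v.asIdeal : ℕ) : ℝ) : ℝ) : ℂ) /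
        ((Om : ℝ) : ℂ) ^ Module.finrank ℚ L = q₂) :
    ∃ q' : ℚ, q' ≠ 0 ∧ padicValRat 2 q' = ((2 * (2 * ((T.card - 1) / 2)) : ℕ) : ℤ) ∧
      SBSD2.bsdQuotient W ((a * b) * (a * b)) = q' := by
  have : Fact (Nat.Prime 2) := ⟨Nat.prime_two⟩
  obtain ⟨m, hm, hcard⟩ := htor
  obtain ⟨qP, hqP, hqP2, hper⟩ := hper
  obtain ⟨hNS, hodd⟩ := ns_eq (T := T) hV
  have hce := card_eq (V := V) (T := T)
  have hTc : 0 < T.card := Finset.card_pos.2 hT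
  have hm0 : m ≠ 0 := by
    rintro rfl
    exact absurd hm (by decide)
  have hmQ : (m : ℚ) ≠ 0 := Nat.cast_ne_zero.2 hm0
  have hqP0 : qP ≠ 0 := hqP.ne'
  change a * ((√|(discr L : ℝ)| : ℝ) : ℂ) * ((√((NS V : ℕ) : ℝ) : ℝ) : ℂ) /
        ((Om : ℝ) : ℂ) ^ Module.finrank ℚ L = q₁ at ha
  change b * ((√|(discr L : ℝ)| : ℝ) : ℂ) * ((√((NS (symmDiff V T) : ℕ) : ℝ) : ℝ) : ℂ) /
        ((Om : ℝ) : ℂ) ^ Module.finrank ℚ L = q₂ at hb
  -- the Tamagawa product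
  obtain ⟨w, hw0, hw2, htam'⟩ : ∃ w : ℕ, w ≠ 0 ∧
      padicValRat 2 (w : ℚ) = 2 * (T.card : ℤ) - ((2 * (2 * ((T.card - 1) / 2)) : ℕ) : ℤ) +
        4 * ((V \ T).card : ℤ) ∧
      ∏ᶠ P : HeightOneSpectrum (𝓞 N), SBSD.tam W P = w := by
    refine ⟨(if Even T.card then 16 else 4) * 16 ^ (V \ T).card, ?_, ?_, htam⟩
    · split_ifs <;> positivity
    · by_cases hev : Even T.card
      · rw [if_pos hev]
        push_cast
        rw [padicValRat.mul (by norm_num) (pow_ne_zero _ (by norm_num)), padicValRat.pow, e5_v16]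
        obtain ⟨k, hk⟩ := hev
        have : (T.card - 1) / 2 + 1 = k := by omega
        omega
      · rw [if_neg hev]
        push_cast
        rw [padicValRat.mul four_ne_zero (pow_ne_zero _ (by norm_num)), padicValRat.pow, e5_v16,
          e5_v4]
        obtain ⟨k, hk⟩ := Nat.not_even_iff_odd.1 hev
        have : (T.card - 1) / 2 = k := by omega
        omega
  clear htam
  have hwQ : (w : ℚ) ≠ 0 := Nat.cast_ne_zero.2 hw0
  have hn0 : NS (V \ T) ≠ 0 := by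
    intro h0
    rw [h0] at hodd
    exact absurd hodd (by decide)
  generalize hnn : NS (V \ T) = n at hNS hodd hn0
  have hnQ : (n : ℚ) ≠ 0 := Nat.cast_ne_zero.2 hn0
  have h7Q : (7 : ℚ) ^ Module.finrank ℚ L ≠ 0 := pow_ne_zero _ (by norm_num)
  have h4m : (4 : ℚ) * m ≠ 0 := mul_ne_zero four_ne_zero hmQ
  refine ⟨(q₁ * q₂) ^ 2 * 7 ^ Module.finrank ℚ L * (4 * (m : ℚ)) ^ 2 / (n ^ 2 * (qP * w)),
    ?_, ?_, ?_⟩
  · exact div_ne_zero (mul_ne_zero (mul_ne_zero (pow_ne_zero _ (mul_ne_zero hq₁ hq₂)) h7Q)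
      (pow_ne_zero _ h4m))
      (mul_ne_zero (pow_ne_zero _ hnQ) (mul_ne_zero hqP0 hwQ))
  · rw [padicValRat.div (mul_ne_zero (mul_ne_zero (pow_ne_zero _ (mul_ne_zero hq₁ hq₂)) h7Q)
      (pow_ne_zero _ h4m))
      (mul_ne_zero (pow_ne_zero _ hnQ) (mul_ne_zero hqP0 hwQ)),
      padicValRat.mul (mul_ne_zero (pow_ne_zero _ (mul_ne_zero hq₁ hq₂)) h7Q)
        (pow_ne_zero _ h4m),
      padicValRat.mul (pow_ne_zero _ (mul_ne_zero hq₁ hq₂)) h7Q,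
      padicValRat.pow, padicValRat.pow, padicValRat.pow, padicValRat.mul hq₁ hq₂,
      padicValRat.mul four_ne_zero hmQ,
      padicValRat.mul (pow_ne_zero _ hnQ) (mul_ne_zero hqP0 hwQ), padicValRat.mul hqP0 hwQ,
      padicValRat.pow,
      q1_odd hm, q1_odd hodd, e5_v4, e5_v7, hqP2, h2₁, h2₂, hw2]
    push_cast
    have hce' : (V.card : ℤ) + ((symmDiff V T).card : ℤ) = 2 * ((V \ T).card : ℤ) + (T.card : ℤ) := by
      exact_mod_cast hce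
    linear_combination 2 * hce'
  · have hq1C : (q₁ : ℂ) ≠ 0 := by exact_mod_cast hq₁
    have hOm : ((Om : ℝ) : ℂ) ^ Module.finrank ℚ L ≠ 0 := by
      intro h0
      rw [h0, div_zero] at ha
      exact hq1C ha.symm
    have hqPC : (qP : ℂ) ≠ 0 := by exact_mod_cast hqP0
    have hnC : (n : ℂ) ≠ 0 := Nat.cast_ne_zero.2 hn0
    have hwC : (w : ℂ) ≠ 0 := Nat.cast_ne_zero.2 hw0
    have hsq : (((√((NS V : ℕ) : ℝ) : ℝ) : ℂ) * ((√((NS (symmDiff V T) : ℕ) : ℝ) : ℝ) : ℂ)) ^ 2 =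
        (n : ℂ) ^ 2 * ((NS T : ℕ) : ℂ) := by
      rw [mul_pow, ← Complex.ofReal_pow, ← Complex.ofReal_pow, Real.sq_sqrt (Nat.cast_nonneg _),
        Real.sq_sqrt (Nat.cast_nonneg _), Complex.ofReal_natCast, Complex.ofReal_natCast]
      exact_mod_cast hNS
    have hB : ((√|(discr L : ℝ)| : ℝ) : ℂ) ^ 2 = ((|(discr L : ℝ)| : ℝ) : ℂ) := by
      rw [← Complex.ofReal_pow, Real.sq_sqrt (abs_nonneg _)]
    have ha' : a * ((√|(discr L : ℝ)| : ℝ) : ℂ) * ((√((NS V : ℕ) : ℝ) : ℝ) : ℂ) =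
        q₁ * ((Om : ℝ) : ℂ) ^ Module.finrank ℚ L := (div_eq_iff hOm).1 ha
    have hb' : b * ((√|(discr L : ℝ)| : ℝ) : ℂ) * ((√((NS (symmDiff V T) : ℕ) : ℝ) : ℝ) : ℂ) =
        q₂ * ((Om : ℝ) : ℂ) ^ Module.finrank ℚ L := (div_eq_iff hOm).1 hb
    have key1 : a * b * ((|(discr L : ℝ)| : ℝ) : ℂ) *
        (((√((NS V : ℕ) : ℝ) : ℝ) : ℂ) * ((√((NS (symmDiff V T) : ℕ) : ℝ) : ℝ) : ℂ)) =
        q₁ * q₂ * (((Om : ℝ) : ℂ) ^ Module.finrank ℚ L) ^ 2 := by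
      rw [← hB]
      linear_combination (b * ((√|(discr L : ℝ)| : ℝ) : ℂ) *
        ((√((NS (symmDiff V T) : ℕ) : ℝ) : ℝ) : ℂ)) * ha' +
        (q₁ * ((Om : ℝ) : ℂ) ^ Module.finrank ℚ L) * hb'
    have key : (a * b) ^ 2 * ((|(discr L : ℝ)| : ℝ) : ℂ) ^ 2 * ((n : ℂ) ^ 2 * ((NS T : ℕ) : ℂ)) =
        (q₁ * q₂) ^ 2 * (((Om : ℝ) : ℂ) ^ Module.finrank ℚ L) ^ 4 := by
      rw [← hsq]
      calc _ = (a * b * ((|(discr L : ℝ)| : ℝ) : ℂ) *
        (((√((NS V : ℕ) : ℝ) : ℝ) : ℂ) * ((√((NS (symmDiff V T) : ℕ) : ℝ) : ℝ) : ℂ))) ^ 2 := by ring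
        _ = _ := by
          rw [key1]
          ring
    clear ha hb ha' hb' hsq hB key1
    unfold SBSD2.bsdQuotient
    rw [hcard, htam', hper, hdisc]
    push_cast
    rw [pow_mul']
    generalize ((Om : ℝ) : ℂ) ^ Module.finrank ℚ L = X at key hOm ⊢
    generalize (7 : ℂ) ^ Module.finrank ℚ L = Z
    generalize ((|(discr L : ℝ)| : ℝ) : ℂ) = D' at key ⊢
    generalize ((NS T : ℕ) : ℂ) = Y at key ⊢
    field_simp
    linear_combination Z * key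

end

end TRY
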