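import Pool.Agent.TRY.E0b
import Pool.Agent.TRY.E1c
import Pool.Agent.TRY.E2
import Pool.Agent.TRY.E3c
import Pool.Agent.TRY.E3d
import Pool.Agent.TRY.E4
import Pool.Agent.TRY.E4b
import Pool.Agent.TRY.E5
import Pool.Agent.TRX.D9
import Pool.Agent.TRX.D13
import Pool.Agent.TTS.Main

set_option autoImplicit false

open NumberField Ideal IsDedekindDomain
open scoped Classical

/-! # [TRY-E6] THEOREMS over `F` and `N` -/

namespace TRY

open TR TU TTS TRX

section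
variable {L M N F : Type} [Field L] [NumberField L] [Field M] [NumberField M] [Field N] [NumberField N] [Field F] [NumberField F]
  [Algebra L M] [Algebra M N] [Algebra L F] [Algebra F N] [IsTotallyReal L] (D : Dat L M) {d : L}
  {V T : Finset (HeightOneSpectrum (𝓞 L))}
include D

/-- [TRY-E6] THEOREM over `N`. PROOF. As `TTS.main_M` (TTS/Main.lean, complete). `SP L (d * a) (symmDiff V T)` (`TRX.SP.mul`), `nf_of_SP` for `d` and `d * a`, `analytic_L D` (TTS/Z1.lean) for both: `Z`, `Z'`, `q₁`, `q₂`. `entire_N` (C = 1 for `hZ`: `one_smul`), `(Z Z')² (1) ≠ 0`. `tors_N`, `tam_N`, `sqrt_discr_N`, `period_N`, `quotient_N`, `TTS.mn_finrank`, `TRX.sha_N`. -/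
theorem main_N (Q : QS M N) {a : L} (hQ : Q.e = algebraMap L M a) (hd : SP L d V) (ha : SP L a T) (hT : T.Nonempty)
    {E : WeierstrassCurve N} (C C' : WeierstrassCurve.VariableChange N)
    (hE : E = C • Ws (algebraMap M N (algebraMap L M d))) (hE' : E = C' • Wd (algebraMap M N (algebraMap L M d))) :
    TwoPart E (2 * (2 * ((T.card - 1) / 2))) := by
  have hda : SP L (d * a) (symmDiff V T) := TRX.SP.mul hd ha
  have hdN : algebraMap M N (algebraMap L M d) ≠ 0 :=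
    (_root_.map_ne_zero _).2 ((_root_.map_ne_zero _).2 hd.ne)
  obtain ⟨t, c, h⟩ := nf_of_SP D hd
  obtain ⟨t', c', h'⟩ := nf_of_SP D hda
  obtain ⟨Z, q₁, z1, z2, hq₁, hq₁2, hq₁3⟩ := analytic_L D h
  obtain ⟨Z', q₂, z1', z2', hq₂, hq₂2, hq₂3⟩ := analytic_L D h'
  have h0 := z1 1
  rw [one_smul] at h0
  have h0' := z1' 1
  rw [one_smul] at h0'
  have h1' := entire_N D Q hQ hd ha h0 h0' C'
  rw [← hE'] at h1'
  obtain ⟨hfin, htor⟩ := tors_N D Q hd ha hQ C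
  obtain ⟨q, hq, hq2, hq3⟩ := quotient_N V T (C • Ws (algebraMap M N (algebraMap L M d))) hd.nice hT
    (tam_N D Q hd ha hQ C) htor (sqrt_discr_N D Q ha hQ) (period_N D Q h C) (Z 1) (Z' 1) q₁ q₂
    hq₁ hq₁2 hq₁3 hq₂ hq₂2 hq₂3
  obtain ⟨hs1, hs2⟩ := TRX.sha_N D Q hd ha hQ hT C
  rw [← hE] at hq3 hfin
  have hell : E.IsElliptic := by
    rw [WeierstrassCurve.isElliptic_iff, isUnit_iff_ne_zero, hE,
      WeierstrassCurve.variableChange_Δ]
    exact mul_ne_zero (pow_ne_zero _ (Units.ne_zero _)) (Ws_Δ_ne hdN)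
  have h2' : (fun s => (Z s * Z' s) * (Z s * Z' s)) 1 ≠ 0 :=
    mul_ne_zero (mul_ne_zero z2 z2') (mul_ne_zero z2 z2')
  refine ⟨hell, hfin, fun s => (Z s * Z' s) * (Z s * Z' s), h1', ?_, h2', ?_, ?_, q, hq, hq2, hq3⟩
  · rw [TTS.mn_finrank, Nat.cast_zero]
    exact (h1'.1.analyticAt 1).analyticOrderAt_eq_zero.2 h2'
  · subst hE
    exact hs1
  · subst hE
    exact hs2

/-- [TRY-E6] THEOREM over `F`. PROOF. As `main_N` with `entire_F`, `tors_F`, `tam_F`, `sqrt_discr_F`, `period_F`, `quotient_F` (`n₀ = nneg QF.e`), `TRX.sha_F`. -/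
theorem main_F (QF : QS L F) (Q : QS M N) (Q' : QS F N) (hQ : Q.e = algebraMap L M QF.e) (hs : Q'.s = algebraMap M N D.r)
    (hcomp : ∀ x : L, algebraMap F N (algebraMap L F x) = algebraMap M N (algebraMap L M x))
    (hd : SP L d V) (ha : SP L QF.e T) (hT : T.Nonempty)
    {E : WeierstrassCurve F} (C C' : WeierstrassCurve.VariableChange F)
    (hE : E = C • Ws (algebraMap L F d)) (hE' : E = C' • Wd (algebraMap L F d)) :
    TwoPart E (2 * ((T.card - 1) / 2)) := by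
  have hda : SP L (d * QF.e) (symmDiff V T) := TRX.SP.mul hd ha
  have hdF : algebraMap L F d ≠ 0 := (_root_.map_ne_zero _).2 hd.ne
  obtain ⟨t, c, h⟩ := nf_of_SP D hd
  obtain ⟨t', c', h'⟩ := nf_of_SP D hda
  obtain ⟨Z, q₁, z1, z2, hq₁, hq₁2, hq₁3⟩ := analytic_L D h
  obtain ⟨Z', q₂, z1', z2', hq₂, hq₂2, hq₂3⟩ := analytic_L D h'
  have h0 := z1 1
  rw [one_smul] at h0
  have h0' := z1' 1
  rw [one_smul] at h0'
  have h1' := entire_F D QF (ld_of_SP D hd) (ld_of_SP D ha) h0 h0' C'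
  rw [← hE'] at h1'
  obtain ⟨hfin, htor⟩ := tors_F D Q Q' hd ha hQ hcomp hs C
  obtain ⟨q, hq, hq2, hq3⟩ := quotient_F V T (C • Ws (algebraMap L F d)) hd.nice hT (n₀ := nneg QF.e)
    (tam_F D QF hd ha C) htor (sqrt_discr_F D QF ha) (period_F QF h C) (Z 1) (Z' 1) q₁ q₂
    hq₁ hq₁2 hq₁3 hq₂ hq₂2 hq₂3
  obtain ⟨hs1, hs2⟩ := TRX.sha_F D Q Q' hd ha hQ hcomp hs hT C
  rw [← hE] at hq3 hfin
  have hell : E.IsElliptic := by
    rw [WeierstrassCurve.isElliptic_iff, isUnit_iff_ne_zero, hE,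
      WeierstrassCurve.variableChange_Δ]
    exact mul_ne_zero (pow_ne_zero _ (Units.ne_zero _)) (Ws_Δ_ne hdF)
  have h2' : (fun s => Z s * Z' s) 1 ≠ 0 := mul_ne_zero z2 z2'
  refine ⟨hell, hfin, fun s => Z s * Z' s, h1', ?_, h2', ?_, ?_, q, hq, hq2, hq3⟩
  · rw [TTS.mn_finrank, Nat.cast_zero]
    exact (h1'.1.analyticAt 1).analyticOrderAt_eq_zero.2 h2'
  · subst hE
    exact hs1
  · subst hE
    exact hs2

end

end TRY
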