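import Pool.Agent.TRY.E7u
import Pool.Agent.TRX.C5c
import Pool.Agent.TU.Q3

set_option autoImplicit false

open NumberField Ideal IsDedekindDomain
open scoped Classical

/-! # [TRY-E7] ramification in quadratic extensions -/

namespace TRY

open TR TU TTS TRX

/-- the prime below -/
theorem e7_comap {L F : Type} [Field L] [NumberField L] [Field F] [NumberField F] [Algebra L F]
    {v : HeightOneSpectrum (𝓞 L)} {P : HeightOneSpectrum (𝓞 F)}
    (hP : v.asIdeal.map (algebraMap (𝓞 L) (𝓞 F)) ≤ P.asIdeal ^ 2) :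
    P.asIdeal.comap (algebraMap (𝓞 L) (𝓞 F)) = v.asIdeal := by
  have h1 : v.asIdeal ≤ P.asIdeal.comap (algebraMap (𝓞 L) (𝓞 F)) := by
    rw [← Ideal.map_le_iff_le_comap]
    exact hP.trans (Ideal.pow_le_self two_ne_zero)
  refine (v.isMaximal.eq_of_le ?_ h1).symm
  intro h2
  apply P.isPrime.ne_top
  exact Ideal.comap_eq_top_iff.1 h2

theorem e7_finite {L : Type} [Field L] [NumberField L] {x : L} (hx : x ≠ 0) :
    {v : HeightOneSpectrum (𝓞 L) | v.valuation L x ≠ 1}.Finite := by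
  have h1 := HeightOneSpectrum.Support.finite (𝓞 L) x
  have h2 := HeightOneSpectrum.Support.finite (𝓞 L) x⁻¹
  refine (h1.union h2).subset ?_
  intro v hv
  rcases lt_or_gt_of_ne hv with h | h
  · right
    show 1 < v.valuation L x⁻¹
    rw [map_inv₀]
    have hv0 : 0 < v.valuation L x := by
      rw [zero_lt_iff]
      exact (map_ne_zero _).2 hx
    exact (one_lt_inv₀ hv0).2 h
  · left
    exact h

section
variable {L F : Type} [Field L] [NumberField L] [Field F] [NumberField F] [Algebra L F] (Q : QS L F)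

/-- [TRY-E7] PROOF. `P` in `Ramified` lies above `v` (`v ⊆ P ∩ 𝓞 L`, `v` maximal). `QS.split` or `QS.inert`: `P.valuation (algebraMap x) = v.valuation x` for all `x : L`; take `x ∈ v`, `x ∉ v²`: `P.valuation = exp (-1)`, but the image is in `P²` (`q3_pow`): contradiction. -/
theorem not_ramified {v : HeightOneSpectrum (𝓞 L)} (h : Ur v Q.e) : ¬ Ramified F v := by
  rintro ⟨P, hP⟩
  have hval : ∀ x : L, P.valuation F (algebraMap L F x) = v.valuation L x := by
    have hc := e7_comap hP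
    by_cases hs : Sq v Q.e
    · obtain ⟨P₁, P₂, -, hu, -, -, h1, h2⟩ := Q.split v hs
      rcases (hu P).1 hc with rfl | rfl
      · exact h1
      · exact h2
    · obtain ⟨P₁, hu, -, h1⟩ := Q.inert v h hs
      obtain rfl := (hu P).1 hc
      exact h1
  obtain ⟨x, hx⟩ := v.intValuation_exists_uniformizer
  have hxv : v.valuation L ((x : 𝓞 L) : L) = WithZero.exp (-1 : ℤ) := by
    rw [RingOfIntegers.coe_eq_algebraMap, HeightOneSpectrum.valuation_of_algebraMap]
    exact hx
  have hx1 : x ∈ v.asIdeal := by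
    rw [← q3_mem, hxv]
    rw [← WithZero.exp_zero, WithZero.exp_lt_exp]
    norm_num
  have hx2 : algebraMap (𝓞 L) (𝓞 F) x ∈ P.asIdeal ^ 2 := hP (Ideal.mem_map_of_mem _ hx1)
  have hx3 := (q3_pow (v := P) (algebraMap (𝓞 L) (𝓞 F) x) 2).2 hx2
  rw [q3_coe, hval, hxv, WithZero.exp_le_exp] at hx3
  norm_num at hx3

/-- [TRY-E7] PROOF. `QS.ram`: `P.valuation (algebraMap x) = (v.valuation x)²`; for `x ∈ v` it is `≤ exp (-2)`: `x ∈ P²` (`q3_pow`; `Ideal.map_le_iff_le_comap`). -/
theorem ramified_of_od {v : HeightOneSpectrum (𝓞 L)} (h : Od v Q.e) : Ramified F v := by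
  obtain ⟨P, hu, -, h1⟩ := Q.ram v h
  refine ⟨P, ?_⟩
  rw [Ideal.map_le_iff_le_comap]
  intro x hx
  rw [Ideal.mem_comap, ← q3_pow, q3_coe, h1]
  have hx1 := (q3_pow (v := v) x 1).2 (by rw [pow_one]; exact hx)
  have hx2 := pow_le_pow_left' hx1 2
  refine hx2.trans (le_of_eq ?_)
  rw [← WithZero.exp_nsmul]
  norm_num

end

section
variable {L M F : Type} [Field L] [NumberField L] [Field M] [NumberField M] [Field F] [NumberField F]
  [Algebra L M] [Algebra L F] [IsTotallyReal L] (D : Dat L M) (Q : QS L F)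
include D

/-- [TRY-E7] PROOF. `T` = the set of the `v` with `Ramified F v`, `7 ∉ v`; it is finite: such a `v` is nice, so `2 ∉ v`, not `Ur v Q.e` (`not_ramified`), so `Od v Q.e` (`ur_or_od`) and `v.valuation Q.e ≠ 1` (`Od.val`): finitely many `v` (Mathlib: finiteness of the support of a nonzero element, e.g. `HeightOneSpectrum.Support.finite`, or `Q.e = x/y`, `x, y ∈ 𝓞 L` and `Ideal.finite_factors`).
`four`, `seven`: `h`. `od`: as before. `ur`: `v ∉ T`, `7 ∉ v`: not ramified, `ur_of_unram`. -/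
theorem exists_SP (h : ∀ v : HeightOneSpectrum (𝓞 L), Ramified F v → (7 : 𝓞 L) ∈ v.asIdeal ∨
      (absNorm v.asIdeal % 4 = 1 ∧ c7 (absNorm v.asIdeal) = -1)) :
    ∃ T : Finset (HeightOneSpectrum (𝓞 L)), SP L Q.e T ∧ ∀ v, v ∈ T ↔ (Ramified F v ∧ (7 : 𝓞 L) ∉ v.asIdeal) := by
  have hne : Q.e ≠ 0 := by
    intro h0
    have h1 := Q.hs
    rw [h0, map_zero] at h1
    have h2 : Q.s = 0 := by
      exact pow_eq_zero_iff two_ne_zero |>.1 h1
    exact Q.ns 0 (by rw [map_zero, h2])
  have hod : ∀ v : HeightOneSpectrum (𝓞 L), Ramified F v → (7 : 𝓞 L) ∉ v.asIdeal → Od v Q.e := by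
    intro v hv h7
    rcases h v hv with h1 | ⟨h1, -⟩
    · exact absurd h1 h7
    · rcases ur_or_od (TT.two_not_mem v h1) hne with h2 | h2
      · exact absurd hv (not_ramified Q h2)
      · exact h2
  have hfin : {v : HeightOneSpectrum (𝓞 L) | Ramified F v ∧ (7 : 𝓞 L) ∉ v.asIdeal}.Finite := by
    refine (e7_finite hne).subset ?_
    rintro v ⟨hv, h7⟩ h1
    exact (hod v hv h7).val ⟨1, by rw [mul_one]; exact h1⟩
  refine ⟨hfin.toFinset, ⟨hne, ?_, ?_, ?_, ?_⟩, ?_⟩
  · intro v hv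
    rw [Set.Finite.mem_toFinset] at hv
    rcases h v hv.1 with h1 | ⟨h1, -⟩
    · exact absurd h1 hv.2
    · exact h1
  · intro v hv
    rw [Set.Finite.mem_toFinset] at hv
    rcases h v hv.1 with h1 | ⟨-, h1⟩
    · exact absurd h1 hv.2
    · exact h1
  · intro v hv
    rw [Set.Finite.mem_toFinset] at hv
    exact hod v hv.1 hv.2
  · intro v hv h7
    refine ur_of_unram Q ?_
    intro h1
    apply hv
    rw [Set.Finite.mem_toFinset]
    exact ⟨h1, h7⟩
  · intro v
    rw [Set.Finite.mem_toFinset]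
    exact Iff.rfl

/-- [TRY-E7] PROOF. (1) If `algebraMap Q.e` is a square in `M`: `TRX.c1b_root D` (TRX/C1b.lean): `Q.e = b²` (contradiction to `Q.hs`, `Q.ns`) or `Q.e = -7 b²`, `b ≠ 0`: `(s/b)² = -7` in `F`, contradiction to `h`. (2) If `T = ∅`: `star_of_SP D ha` (TRX/C5c.lean), `Star.isSquare D` (TRX/C1b.lean): `Q.e` or `-7 Q.e` is a square in `L`: the image of `Q.e` in `M` is a square (`-7 = r²`): (1). -/
theorem nonempty_of_SP {T : Finset (HeightOneSpectrum (𝓞 L))} (ha : SP L Q.e T) (h : ∀ x : F, x ^ 2 ≠ -7) :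
    T.Nonempty ∧ ¬ IsSquare (algebraMap L M Q.e) := by
  have hsq : ¬ IsSquare (algebraMap L M Q.e) := by
    intro h1
    rcases c1b_root D h1 with ⟨b, hb⟩ | ⟨b, hb⟩
    · have h2 : (Q.s - algebraMap L F b) * (Q.s + algebraMap L F b) = 0 := by
        have h3 := Q.hs
        rw [hb, map_mul] at h3
        linear_combination h3
      rcases mul_eq_zero.1 h2 with h3 | h3
      · exact Q.ns b (sub_eq_zero.1 h3).symm
      · exact Q.ns (-b) (by rw [map_neg]; exact (eq_neg_of_add_eq_zero_left h3).symm)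
    · have hb0 : b ≠ 0 := by
        rintro rfl
        exact ha.ne (by rw [hb]; ring)
      have hb1 : algebraMap L F b ≠ 0 := (map_ne_zero _).2 hb0
      apply h (Q.s / algebraMap L F b)
      rw [div_pow, Q.hs, hb, map_mul, map_mul, map_neg, map_ofNat]
      field_simp
  refine ⟨?_, hsq⟩
  rw [Finset.nonempty_iff_ne_empty]
  rintro rfl
  apply hsq
  rcases star_of_SP D ha with h1 | h1
  · exact (h1.isSquare D).map (algebraMap L M)
  · obtain ⟨z, hz⟩ := (h1.isSquare D).map (algebraMap L M)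
    rw [c5c_neg D] at hz
    refine ⟨z / D.r, ?_⟩
    have hr0 := c5c_r D
    field_simp
    linear_combination hz

end

end TRY
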