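import Pool.Agent.TRX.C0
import Pool.Agent.TU.Q2
import Pool.Agent.TU.Q3

set_option autoImplicit false

open NumberField Ideal IsDedekindDomain
open scoped Classical

/-! # [TRY-E7u] unramified primes of quadratic extensions -/

namespace TRY

open TR TU TTS TRX

/-- The prime ideal `v` of `L` is ramified in `F`. -/
def Ramified {L : Type} [Field L] [NumberField L] (F : Type) [Field F] [NumberField F] [Algebra L F]
    (v : HeightOneSpectrum (𝓞 L)) : Prop :=
  ∃ P : HeightOneSpectrum (𝓞 F), v.asIdeal.map (algebraMap (𝓞 L) (𝓞 F)) ≤ P.asIdeal ^ 2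

section
variable {L F : Type} [Field L] [NumberField L] [Field F] [NumberField F] [Algebra L F] (Q : QS L F)

theorem e7u_tr (x : 𝓞 F) : ∃ y : 𝓞 L, algebraMap (𝓞 L) (𝓞 F) y = x + Q.cjO x := by
  have h1 : (x : F) + Q.cj (x : F) = algebraMap L F (2 * Q.ca (x : F)) := by
    have h2 := Q.eq_ca_cb (x : F)
    have h3 := Q.cj_apply (x : F)
    rw [h3, map_mul, map_ofNat]
    linear_combination h2
  have hint : IsIntegral ℤ (2 * Q.ca (x : F)) := by
    have h2 : IsIntegral ℤ (algebraMap L F (2 * Q.ca (x : F))) := by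
      rw [← h1]
      exact (x + Q.cjO x).2
    exact (isIntegral_algebraMap_iff (algebraMap L F).injective).1 h2
  refine ⟨⟨_, hint⟩, ?_⟩
  apply RingOfIntegers.ext
  exact h1.symm

theorem e7u_inert {v : HeightOneSpectrum (𝓞 L)} {P : HeightOneSpectrum (𝓞 F)}
    (hP : P.asIdeal.comap (algebraMap (𝓞 L) (𝓞 F)) = v.asIdeal)
    (hn : absNorm P.asIdeal = absNorm v.asIdeal ^ 2) (φ : 𝓞 F → 𝓞 F)
    (h1 : ∀ x, ∃ y : 𝓞 L, φ x - algebraMap (𝓞 L) (𝓞 F) y ∈ P.asIdeal)
    (h2 : ∀ x x', φ x - φ x' ∈ P.asIdeal → x - x' ∈ P.asIdeal) : False := by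
  choose g hg using h1
  have hinj : Function.Injective fun x : 𝓞 F ⧸ P.asIdeal =>
      Ideal.Quotient.mk v.asIdeal (g (Quotient.out x)) := by
    intro x x' hxx
    have h3 : g (Quotient.out x) - g (Quotient.out x') ∈ v.asIdeal := Ideal.Quotient.eq.1 hxx
    rw [← hP, Ideal.mem_comap, map_sub] at h3
    have h4 : φ (Quotient.out x) - φ (Quotient.out x') ∈ P.asIdeal := by
      have h5 := P.asIdeal.add_mem (P.asIdeal.sub_mem (hg (Quotient.out x)) (hg (Quotient.out x'))) h3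
      have h6 : φ (Quotient.out x) - algebraMap (𝓞 L) (𝓞 F) (g (Quotient.out x)) -
          (φ (Quotient.out x') - algebraMap (𝓞 L) (𝓞 F) (g (Quotient.out x'))) +
          (algebraMap (𝓞 L) (𝓞 F) (g (Quotient.out x)) - algebraMap (𝓞 L) (𝓞 F) (g (Quotient.out x'))) =
          φ (Quotient.out x) - φ (Quotient.out x') := by ring
      rwa [h6] at h5
    have h7 := h2 _ _ h4
    have h8 : Ideal.Quotient.mk P.asIdeal (Quotient.out x) = Ideal.Quotient.mk P.asIdeal (Quotient.out x') :=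
      Ideal.Quotient.eq.2 h7
    have h9 : ∀ z : 𝓞 F ⧸ P.asIdeal, Ideal.Quotient.mk P.asIdeal (Quotient.out z) = z :=
      fun z => Quotient.out_eq z
    rw [h9, h9] at h8
    exact h8
  have : Finite (𝓞 L ⧸ v.asIdeal) := Ideal.finiteQuotientOfFreeOfNeBot _ v.ne_bot
  have hc := Nat.card_le_card_of_injective _ hinj
  have hq := TK.s1_q v
  rw [absNorm_apply, absNorm_apply, Submodule.cardQuot_apply, Submodule.cardQuot_apply] at hn
  rw [absNorm_apply, Submodule.cardQuot_apply] at hq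
  rw [hn] at hc
  have h3 : Nat.card (𝓞 L ⧸ v.asIdeal) < Nat.card (𝓞 L ⧸ v.asIdeal) ^ 2 := by
    rw [sq]
    exact lt_mul_of_one_lt_right (by omega) hq
  omega

/-- a separating element gives a discriminant which is a unit -/
theorem e7u_sep {v : HeightOneSpectrum (𝓞 L)} {P : HeightOneSpectrum (𝓞 F)}
    (hP : P.asIdeal.comap (algebraMap (𝓞 L) (𝓞 F)) = v.asIdeal) {θ : 𝓞 F}
    (hθ : θ - Q.cjO θ ∉ P.asIdeal) : Ur v Q.e := by
  obtain ⟨t, ht⟩ := e7u_tr Q θ
  obtain ⟨n, hn⟩ := q2_exists_nm Q θ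
  obtain ⟨a, b, hab⟩ := Q.gen (θ : F)
  have hδ : t ^ 2 + 4 * (-n) ∉ v.asIdeal := by
    intro h1
    rw [← hP, Ideal.mem_comap] at h1
    have h2 : algebraMap (𝓞 L) (𝓞 F) (t ^ 2 + 4 * (-n)) = (θ - Q.cjO θ) ^ 2 := by
      rw [map_add, map_mul, map_pow, map_neg, map_ofNat, ht, hn]
      ring
    rw [h2] at h1
    exact hθ (P.isPrime.mem_of_pow_mem _ h1)
  have hcj : Q.cj (θ : F) = algebraMap L F a - algebraMap L F b * Q.s := by
    rw [hab, map_add, map_mul, AlgHom.commutes, AlgHom.commutes, Q.cj_s]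
    ring
  have htF : algebraMap L F (t : L) = (θ : F) + Q.cj (θ : F) := by
    have h3 := congrArg (fun z : 𝓞 F => (z : F)) ht
    exact h3
  have hnF : algebraMap L F (n : L) = (θ : F) * Q.cj (θ : F) := by
    have h3 := congrArg (fun z : 𝓞 F => (z : F)) hn
    exact h3
  have hval : ((t ^ 2 + 4 * (-n) : 𝓞 L) : L) = 4 * b ^ 2 * Q.e := by
    apply (algebraMap L F).injective
    have h4 : ((t ^ 2 + 4 * (-n) : 𝓞 L) : L) = (t : L) ^ 2 + 4 * (-(n : L)) := by
      simp only [map_add, map_mul, map_pow, map_neg, map_ofNat]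
    rw [h4]
    simp only [map_add, map_mul, map_pow, map_neg, map_ofNat]
    rw [htF, hnF, hcj, hab, ← Q.hs]
    ring
  have hb : b ≠ 0 := by
    rintro rfl
    apply hδ
    have h5 : (t ^ 2 + 4 * (-n) : 𝓞 L) = 0 := by
      apply RingOfIntegers.ext
      rw [hval]
      simp
    rw [h5]
    exact v.asIdeal.zero_mem
  refine ⟨1 / (2 * b), t, -n, one_div_ne_zero (mul_ne_zero two_ne_zero hb), ?_, hδ⟩
  rw [hval]
  field_simp
  ring

/-- [TRY-E7u] unramified at a prime above 2 (or any prime). PROOF. `Q.efg v` (TU/Q2.lean). The third case (`P.valuation = (v.valuation)²`) gives `Ramified F v` (as `ramified_of_od`). In the two other cases there is `θ ∈ 𝓞 F` with `θ - Q.cjO θ ∉ P`, `P` above `v`: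
two primes `P ≠ P'`: `θ ∈ P'`, `θ ∉ P` hmm: choose `θ ∈ 𝓞 F` with `θ ≡ 1 mod P`, `θ ≡ 0 mod P'` (Chinese remainder theorem; `Ideal.IsMaximal` coprime), `Q.cjO` exchanges `P` and `P'` (it fixes `𝓞 L`, so permutes the primes above `v`; if `Q.cjO P = P` for a split prime: by `TU.q2_two`/`TU.q2_conj` (TU/Q2.lean) this is excluded, see how `QS.efg` is proved), so `Q.cjO θ ∈ P` and `θ - Q.cjO θ ∉ P`.
One prime `P` with `N P = (N v)²`, `P.valuation = v.valuation` on `L`: the residue field of `P` is a quadratic extension of that of `v`; if `θ - Q.cjO θ ∈ P` for all `θ`, then `θ² - (θ + cjO θ) θ + θ cjO θ = 0` and modulo `P`: `2 θ² - (trace) θ ...`; rather: every `θ` satisfies `θ ≡ cjO θ`, so `θ² ≡ θ cjO θ ∈ 𝓞 L` and `2 θ ∈ 𝓞 L` modulo `P`. If `2 ∉ v`: `θ ∈ 𝓞 L + P` for all `θ`, so `N P = N v`, contradiction. If `2 ∈ v`: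
all squares of the residue field `k_P` (finite, characteristic 2, so all elements: `FiniteField`/Frobenius is bijective) are in `k_v`, contradiction to the orders. Then `t = θ + cjO θ`, `- c = θ cjO θ` are in `𝓞 L`, `δ = t² + 4 c = (θ - cjO θ)² ∉ v`, and `θ = x + y s` (`Q.gen`): `θ - cjO θ = 2 y s`, `δ = 4 y² Q.e`, `y ≠ 0`: `Q.e = (1/(2y))² δ`. -/
theorem ur_of_unram {v : HeightOneSpectrum (𝓞 L)} (h : ¬ Ramified F v) : Ur v Q.e := by
  rcases Q.efg v with ⟨P, hu, h1, h2⟩ | ⟨P, P', hne, hconj, hu, h1, h2, h3, h4⟩ | ⟨P, hu, h1, h2⟩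
  · have hP := (hu P).2 rfl
    by_contra hcon
    have hall : ∀ θ : 𝓞 F, θ - Q.cjO θ ∈ P.asIdeal := by
      intro θ
      by_contra h3
      exact hcon (e7u_sep Q hP h3)
    by_cases h20 : (2 : 𝓞 F) ∈ P.asIdeal
    · refine e7u_inert hP h1 (fun x => x ^ 2) ?_ ?_
      · intro x
        obtain ⟨n, hn⟩ := q2_exists_nm Q x
        refine ⟨n, ?_⟩
        rw [hn]
        have h5 : x ^ 2 - x * Q.cjO x = x * (x - Q.cjO x) := by ring
        change x ^ 2 - x * Q.cjO x ∈ P.asIdeal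
        rw [h5]
        exact P.asIdeal.mul_mem_left _ (hall x)
      · intro x x' hx
        have hx2 : x ^ 2 - x' ^ 2 ∈ P.asIdeal := hx
        have h5 : (x - x') ^ 2 = (x ^ 2 - x' ^ 2) + 2 * (x' * (x' - x)) := by ring
        have h6 : (x - x') ^ 2 ∈ P.asIdeal := by
          rw [h5]
          exact P.asIdeal.add_mem hx2 (P.asIdeal.mul_mem_right _ h20)
        exact P.isPrime.mem_of_pow_mem _ h6
    · refine e7u_inert hP h1 (fun x => 2 * x) ?_ ?_
      · intro x
        obtain ⟨t, ht⟩ := e7u_tr Q x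
        refine ⟨t, ?_⟩
        rw [ht]
        have h5 : 2 * x - (x + Q.cjO x) = x - Q.cjO x := by ring
        change 2 * x - (x + Q.cjO x) ∈ P.asIdeal
        rw [h5]
        exact hall x
      · intro x x' hx
        have hx2 : 2 * (x - x') ∈ P.asIdeal := by
          have h5 : 2 * (x - x') = 2 * x - 2 * x' := by ring
          rw [h5]
          exact hx
        exact (P.isPrime.mem_or_mem hx2).resolve_left h20
  · have hP := (hu P).2 (Or.inl rfl)
    have hnle : ¬ P'.asIdeal ≤ P.asIdeal := by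
      intro hle
      apply hne
      have hm : P'.asIdeal.IsMaximal := P'.isMaximal
      exact HeightOneSpectrum.ext (hm.eq_of_le P.isPrime.ne_top hle).symm
    obtain ⟨θ, hθ1, hθ2⟩ := SetLike.not_le_iff_exists.1 hnle
    refine e7u_sep Q hP (θ := θ) fun h5 => hθ2 ?_
    rw [hconj, Ideal.mem_comap] at hθ1
    have h6 := P.asIdeal.add_mem h5 hθ1
    have h7 : θ - Q.cjO θ + Q.cjO θ = θ := by ring
    rwa [h7] at h6
  · exfalso
    apply h
    refine ⟨P, ?_⟩
    rw [Ideal.map_le_iff_le_comap]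
    intro a ha
    rw [Ideal.mem_comap, ← q3_pow]
    have h5 : v.valuation L (a : L) ≤ WithZero.exp (-(1 : ℕ) : ℤ) := by
      rw [q3_pow, pow_one]
      exact ha
    have h6 : (((algebraMap (𝓞 L) (𝓞 F) a : 𝓞 F)) : F) = algebraMap L F (a : L) := rfl
    rw [h6, h2]
    calc v.valuation L (a : L) ^ 2 ≤ WithZero.exp (-(1 : ℕ) : ℤ) ^ 2 := pow_le_pow_left₀ zero_le h5 2
      _ = WithZero.exp (-(2 : ℕ) : ℤ) := by
        rw [← WithZero.exp_nsmul]
        rfl

end

end TRY
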