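import Pool.Agent.TRY.E7
import Pool.Agent.TRY.E1b
import Pool.Agent.TRX.C1b
import Pool.Agent.TTS.Fin

set_option autoImplicit false

open NumberField Ideal IsDedekindDomain
open scoped Classical

/-! # [TRY-E8] fields `F` with many ramified primes -/

namespace TRY

open TR TU TTS TRX

/-- [TRY-E8] PROOF. `XTS.infinite_nice hL` (TTS/Fin.lean): infinitely many prime numbers `p` such that all `v ∋ p` are nice. For each `p` choose `v_p ∋ p` (`p` is not a unit of `𝓞 L`: its norm is `p^g`; `Ideal.exists_le_maximal`); `p ↦ v_p` is injective (`p, p' ∈ v` with `p ≠ p'` gives `1 ∈ v`). Take `N` primes `p ≠ 7` among them; `7 ∉ v_p` (as `p ≠ 7`), so `XTS.nice_iff` gives `NiceSet`. -/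
theorem exists_niceSet {L : Type} [Field L] [NumberField L] (hL : XTR.Admissible L) (N : ℕ) :
    ∃ T : Finset (HeightOneSpectrum (𝓞 L)), NiceSet T ∧ N ≤ T.card := by
  have hinf := (XTS.infinite_nice hL).sdiff (Set.finite_singleton 7)
  obtain ⟨P, hP, hcard⟩ := hinf.exists_subset_card_eq N
  have hab : ∀ p : ℕ, ∃ v : HeightOneSpectrum (𝓞 L), p.Prime → (p : 𝓞 L) ∈ v.asIdeal := by
    intro p
    by_cases hp : p.Prime
    · obtain ⟨v, hv⟩ := TRS.n1a_above L hp
      exact ⟨v, fun _ => hv⟩
    · obtain ⟨v, -⟩ := TRS.n1a_above L Nat.prime_two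
      exact ⟨v, fun h => absurd h hp⟩
  choose w hw using hab
  have hone : ∀ (v : HeightOneSpectrum (𝓞 L)) (p q : ℕ), p.Prime → q.Prime → (p : 𝓞 L) ∈ v.asIdeal →
      (q : 𝓞 L) ∈ v.asIdeal → p = q := by
    intro v p q hp hq h1 h2
    by_contra hne
    have hco : IsCoprime (p : ℤ) (q : ℤ) := Nat.isCoprime_iff_coprime.2 ((Nat.coprime_primes hp hq).2 hne)
    obtain ⟨a, b, hab⟩ := hco
    apply v.isPrime.ne_top
    rw [Ideal.eq_top_iff_one]
    have e : (1 : 𝓞 L) = (a : 𝓞 L) * (p : 𝓞 L) + (b : 𝓞 L) * (q : 𝓞 L) := by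
      have := congrArg (fun z : ℤ => (z : 𝓞 L)) hab
      push_cast at this
      exact this.symm
    rw [e]
    exact Ideal.add_mem _ (Ideal.mul_mem_left _ _ h1) (Ideal.mul_mem_left _ _ h2)
  have key : ∀ v ∈ P.image w, absNorm v.asIdeal % 4 = 1 ∧ c7 (absNorm v.asIdeal) = -1 := by
    intro v hv
    obtain ⟨p, hp, rfl⟩ := Finset.mem_image.1 hv
    obtain ⟨⟨hpp, -, h3⟩, h7⟩ := hP hp
    have h1 := hw p hpp
    rcases XTS.nice_iff.1 (h3 (w p) h1) with h4 | h4
    · exfalso
      apply h7
      have h5 := hone (w p) p 7 hpp (by norm_num) h1 (by exact_mod_cast h4)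
      exact h5
    · exact h4
  refine ⟨P.image w, ⟨fun v hv => (key v hv).1, fun v hv => (key v hv).2⟩, ?_⟩
  rw [Finset.card_image_of_injOn, hcard]
  intro p hp q hq hpq
  obtain ⟨⟨hpp, -⟩, -⟩ := hP hp
  obtain ⟨⟨hqp, -⟩, -⟩ := hP hq
  refine hone (w p) p q hpp hqp (hw p hpp) ?_
  have h2 := hw q hqp
  rw [← hpq] at h2
  exact h2

section
variable {L M : Type} [Field L] [NumberField L] [Field M] [NumberField M] [Algebra L M] [IsTotallyReal L] (D : Dat L M)
include D

/-- [TRY-E8] PROOF. `c` with `Star T c` (`exists_star D`, TRX/C1b.lean); `c` is not a square (`v ∈ T`: `Od.val`), `exists_QS_of c` (E1b; or `QTC.exists_sqrt_field`, QTB/H1d.lean): `F`, `Q`, `Q.e = c`. `Ramified F v` implies `v ∈ T` (`not_ramified`, `Star.ur`), and `v ∈ T` implies `Ramified F v` (`ramified_of_od`).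
`x² = -7` in `F`: as in (`exists_N`) `-7 = (x₀ + y₀ s)²` gives `x₀ = 0` (`-7` is not a square in the real field `L`) and `-7 = y₀² c`, so `c` is a square in `M`, `T = ∅` (`Star.eq_empty D`), contradiction. -/
theorem exists_field {T : Finset (HeightOneSpectrum (𝓞 L))} (hT : NiceSet T) (hne : T.Nonempty) :
    ∃ (F : Type) (_ : Field F) (_ : NumberField F) (_ : Algebra L F), Module.finrank L F = 2 ∧
      (∀ v : HeightOneSpectrum (𝓞 L), Ramified F v ↔ v ∈ T) ∧ ∀ x : F, x ^ 2 ≠ -7 := by
  obtain ⟨c, hc⟩ := exists_star D hT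
  have hns : ¬ IsSquare c := by
    rintro ⟨b, hb⟩
    obtain ⟨v, hv⟩ := hne
    exact (hc.od v hv).val ⟨v.valuation L b, by rw [hb, map_mul]⟩
  obtain ⟨F, _, _, _, Q, hQ⟩ := exists_QS_of c hns
  refine ⟨F, inferInstance, inferInstance, inferInstance, Q.finrank_eq, ?_, ?_⟩
  · intro v
    constructor
    · intro h1
      by_contra h2
      exact not_ramified Q (by rw [hQ]; exact hc.ur v h2) h1
    · intro h1
      exact ramified_of_od Q (by rw [hQ]; exact hc.od v h1)
  · intro x hx
    have hnsM : ¬ IsSquare (algebraMap L M Q.e) := by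
      intro h
      rw [hQ] at h
      have := hc.eq_empty D hT h
      rw [this] at hne
      exact Finset.not_nonempty_empty hne
    obtain ⟨a, b, rfl⟩ := Q.gen x
    have h1 : algebraMap L F (a ^ 2 + b ^ 2 * Q.e) + algebraMap L F (2 * a * b) * Q.s
        = algebraMap L F (-7) + algebraMap L F 0 * Q.s := by
      have hs := Q.hs
      simp only [map_add, map_mul, map_pow, map_neg, map_ofNat, map_zero]
      linear_combination hx - (algebraMap L F b) ^ 2 * hs
    obtain ⟨h2, h3⟩ := Q.repr_unique h1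
    have h4 : a = 0 ∨ b = 0 := by
      rcases mul_eq_zero.mp h3 with h | h
      · left
        rcases mul_eq_zero.mp h with h | h
        · norm_num at h
        · exact h
      · exact Or.inr h
    rcases h4 with h | h
    · have hb : b ≠ 0 := by
        intro hb
        rw [h, hb] at h2
        norm_num at h2
      apply hnsM
      refine ⟨algebraMap L M b⁻¹ * D.r, ?_⟩
      have h5 : Q.e = -7 * (b⁻¹) ^ 2 := by
        rw [h] at h2
        field_simp
        linear_combination h2
      rw [h5]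
      have hr := D.hr
      simp only [map_mul, map_neg, map_pow, map_ofNat]
      linear_combination (-(algebraMap L M b⁻¹) ^ 2) * hr
    · have h5 : a ^ 2 = -7 := by
        rw [h] at h2
        linear_combination h2
      obtain ⟨j⟩ := nonempty_real L
      have h6 : (j a) ^ 2 = -7 := by rw [← map_pow, h5, map_neg, map_ofNat]
      nlinarith [sq_nonneg (j a)]

end

end TRY
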