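import Pool.Agent.TRY.E6
import Pool.Agent.TRY.E7
import Pool.Agent.TRY.E8
import Pool.Agent.TTS.Fin
import Pool.Agent.QTB.H1a
import Pool.Agent.SHP.W9
import Pool.Agent.TTS.W0

set_option autoImplicit false

open NumberField Ideal IsDedekindDomain
open scoped Classical

/-! # [TRY-Fin] the theorem for nice curves over quadratic extensions of admissible fields -/

namespace TRY

open TR TU TTS TRX

theorem main_ext {L : Type} [Field L] [NumberField L] (hL : XTR.Admissible L) {E : WeierstrassCurve L}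
    (hE : XTS.NiceCurve E) {F : Type} [Field F] [NumberField F] [Algebra L F] (hF : Module.finrank L F = 2)
    (hram : ∀ v : HeightOneSpectrum (𝓞 L), Ramified F v → XTS.Nice v) (hM : ∀ x : F, x ^ 2 ≠ -7) :
    ∃ m : ℕ, m = {v : HeightOneSpectrum (𝓞 L) | Ramified F v ∧ (7 : 𝓞 L) ∉ v.asIdeal}.ncard ∧ 1 ≤ m ∧
      TwoPart (E.baseChange F) (2 * ((m - 1) / 2)) ∧
      ∀ (K : Type) [Field K] [NumberField K] [Algebra F K], Module.finrank F K = 2 → (∃ ρ : K, ρ ^ 2 = -7) →
        TwoPart ((E.baseChange F).baseChange K) (2 * (2 * ((m - 1) / 2))) := by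
  have : IsTotallyReal L := hL.real
  obtain ⟨M, _, _, _, r, hr, gen⟩ := TR.exists_sqrt L
  let D : TR.Dat L M := hL.good.dat hL.inert M r hr gen
  obtain ⟨hell, hj⟩ := hE.j_eq
  obtain ⟨d, k, t, c, S, C, C', hNF, hk, h1, h2⟩ := TTS.exists_NF D E hj hE.hgood
  have hd : SP L d S := hNF.sp D
  obtain ⟨QF⟩ := QTC.exists_QS L F hF
  obtain ⟨T, ha, hT⟩ := exists_SP D QF fun v hv => XTS.nice_iff.1 (hram v hv)
  obtain ⟨hne, hns⟩ := nonempty_of_SP D QF ha hM
  have hset : {v : HeightOneSpectrum (𝓞 L) | Ramified F v ∧ (7 : 𝓞 L) ∉ v.asIdeal} = (T : Set (HeightOneSpectrum (𝓞 L))) := by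
    ext v
    exact (hT v).symm
  have hF1 : ∀ (φ : L →+* F), E.map φ = C.map φ • Ws (φ d) := fun φ => by
    rw [h1, ← WeierstrassCurve.map_variableChange, TTS.Ws_map]
  have hF2 : ∀ (φ : L →+* F), E.map φ = C'.map φ • Wd (φ d) := fun φ => by
    rw [h2, ← WeierstrassCurve.map_variableChange, TU.Wd_map]
  refine ⟨T.card, ?_, hne.card_pos, ?_, ?_⟩
  · rw [hset, Set.ncard_coe_finset]
  · obtain ⟨N, _, _, _, _, Q, Q', hQ, -, hs, hcomp⟩ := exists_N D QF hns
    exact main_F D QF Q Q' hQ hs hcomp hd ha hne _ _ (hF1 _) (hF2 _)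
  · intro K _ _ _ hK hr
    obtain ⟨_, Q, Q', hQ, -, -, hcomp⟩ := exists_QS_MK D QF hns hK hr
    have e1 : (E.baseChange F).baseChange K =
        (C.map (algebraMap L F)).map (algebraMap F K) • Ws (algebraMap M K (algebraMap L M d)) := by
      rw [← hcomp]
      change (E.map (algebraMap L F)).map (algebraMap F K) = _
      rw [hF1, ← WeierstrassCurve.map_variableChange, TTS.Ws_map]
    have e2 : (E.baseChange F).baseChange K =
        (C'.map (algebraMap L F)).map (algebraMap F K) • Wd (algebraMap M K (algebraMap L M d)) := by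
      rw [← hcomp]
      change (E.map (algebraMap L F)).map (algebraMap F K) = _
      rw [hF2, ← WeierstrassCurve.map_variableChange, TU.Wd_map]
    exact main_N D Q hQ hd ha hne _ _ e1 e2

/-- there are such fields for each number `n + 1` of ramified prime ideals -/
theorem many_fields {L : Type} [Field L] [NumberField L] (hL : XTR.Admissible L) (n : ℕ) :
    ∃ (F : Type) (_ : Field F) (_ : NumberField F) (_ : Algebra L F), Module.finrank L F = 2 ∧
      (∀ v : HeightOneSpectrum (𝓞 L), Ramified F v → XTS.Nice v) ∧ (∀ x : F, x ^ 2 ≠ -7) ∧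
      {v : HeightOneSpectrum (𝓞 L) | Ramified F v ∧ (7 : 𝓞 L) ∉ v.asIdeal}.ncard = n + 1 := by
  have : IsTotallyReal L := hL.real
  obtain ⟨M, _, _, _, r, hr, gen⟩ := TR.exists_sqrt L
  let D : TR.Dat L M := hL.good.dat hL.inert M r hr gen
  obtain ⟨T', hT', hn'⟩ := exists_niceSet hL (n + 1)
  obtain ⟨T, hTT', hn⟩ := Finset.exists_subset_card_eq hn'
  have hT : NiceSet T := hT'.subset hTT'
  have hne : T.Nonempty := by
    rw [← Finset.card_pos]
    omega
  obtain ⟨F, i1, i2, i3, h2, hram, hM⟩ := exists_field D hT hne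
  refine ⟨F, i1, i2, i3, h2, fun v hv => ?_, hM, ?_⟩
  · have hv' := (hram v).1 hv
    exact XTS.nice_iff.2 (Or.inr ⟨hT.four v hv', hT.seven v hv'⟩)
  · have hset : {v : HeightOneSpectrum (𝓞 L) | Ramified F v ∧ (7 : 𝓞 L) ∉ v.asIdeal} = (T : Set (HeightOneSpectrum (𝓞 L))) := by
      ext v
      refine ⟨fun h => (hram v).1 h.1, fun h => ⟨(hram v).2 h, ?_⟩⟩
      exact n1_seven D (hT.seven v h)
    rw [hset, Set.ncard_coe_finset, hn]

/-- no odd part: `TwoPartRankZero` is `TwoPart` with `e = 0` -/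
theorem twoPart_zero {F : Type} [Field F] [NumberField F] {E : WeierstrassCurve F}
    (h : SBSD2.TwoPartRankZero E) : TwoPart E 0 := by
  obtain ⟨h1, h2, Z, h3, h4, h5, h6, q, h7, h8, h9⟩ := h
  have key : ∀ x : SBSD.Sha E, 2 • x = 0 → x = 0 := fun x hx => h6 x 1 (by rwa [pow_one])
  refine ⟨h1, h2, Z, h3, h4, h5, fun x k hx => ?_, ?_, q, h7, ?_, h9⟩
  · rw [h6 x k hx, smul_zero]
  · have : Unique {x : SBSD.Sha E // 2 • x = 0} :=
      ⟨⟨⟨0, smul_zero 2⟩⟩, fun x => Subtype.ext (key x.1 x.2)⟩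
    rw [Nat.card_unique, pow_zero]
  · rw [h8]
    rfl

/-- The number of the prime ideals `v` of `L` which are ramified in `F` and do not contain `7`. -/
noncomputable def ramCount (L F : Type) [Field L] [NumberField L] [Field F] [NumberField F] [Algebra L F] : ℕ :=
  {v : HeightOneSpectrum (𝓞 L) | Ramified F v ∧ (7 : 𝓞 L) ∉ v.asIdeal}.ncard

theorem ramCount_zero {L F : Type} [Field L] [NumberField L] [Field F] [NumberField F] [Algebra L F]
    [IsTotallyReal L] (hF : Module.finrank L F = 2) {x : F} (hx : x ^ 2 = -7) : ramCount L F = 0 := by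
  obtain ⟨Q⟩ := QTC.exists_QS L F hF
  obtain ⟨u, w, rfl⟩ := Q.gen x
  have h1 : algebraMap L F (u ^ 2 + w ^ 2 * Q.e) + algebraMap L F (2 * u * w) * Q.s
      = algebraMap L F (-7) + algebraMap L F 0 * Q.s := by
    have hs := Q.hs
    simp only [map_add, map_mul, map_pow, map_neg, map_ofNat, map_zero]
    linear_combination hx - (algebraMap L F w) ^ 2 * hs
  obtain ⟨h2, h3⟩ := Q.repr_unique h1
  have hw : w ≠ 0 := by
    rintro rfl
    apply TR.no_sqrt_real u
    linear_combination h2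
  have hu : u = 0 := by
    rcases mul_eq_zero.1 h3 with h | h
    · rcases mul_eq_zero.1 h with h | h
      · norm_num at h
      · exact h
    · exact absurd h hw
  have he : Q.e = (w⁻¹) ^ 2 * (-7) := by
    rw [hu] at h2
    field_simp
    linear_combination h2
  unfold ramCount
  have hset : {v : HeightOneSpectrum (𝓞 L) | Ramified F v ∧ (7 : 𝓞 L) ∉ v.asIdeal} = ∅ := by
    rw [Set.eq_empty_iff_forall_notMem]
    rintro v ⟨h4, h5⟩
    refine not_ramified Q ?_ h4
    rw [he, ur_sq_mul (inv_ne_zero hw)]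
    exact ur_neg_seven h5
  rw [hset, Set.ncard_empty]

/-- THEOREM. -/
theorem main_all {L : Type} [Field L] [NumberField L] (hL : XTR.Admissible L) {E : WeierstrassCurve L}
    (hE : XTS.NiceCurve E) {F : Type} [Field F] [NumberField F] [Algebra L F] (hF : Module.finrank L F = 2)
    (hram : ∀ v : HeightOneSpectrum (𝓞 L), Ramified F v → XTS.Nice v) :
    TwoPart (E.baseChange F) (2 * ((ramCount L F - 1) / 2)) ∧
      ((∀ x : F, x ^ 2 ≠ -7) → ∀ (K : Type) [Field K] [NumberField K] [Algebra F K],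
        Module.finrank F K = 2 → (∃ ρ : K, ρ ^ 2 = -7) →
        TwoPart ((E.baseChange F).baseChange K) (4 * ((ramCount L F - 1) / 2))) := by
  have : IsTotallyReal L := hL.real
  by_cases hM : ∀ x : F, x ^ 2 ≠ -7
  · obtain ⟨m, hm, -, h1, h2⟩ := main_ext hL hE hF hram hM
    have hm' : ramCount L F = m := hm.symm
    rw [hm']
    refine ⟨h1, fun _ K _ _ _ hK hr => ?_⟩
    have h3 := h2 K hK hr
    have e : 2 * (2 * ((m - 1) / 2)) = 4 * ((m - 1) / 2) := by ring
    rwa [e] at h3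
  · refine ⟨?_, fun h => absurd h hM⟩
    push Not at hM
    obtain ⟨x, hx⟩ := hM
    rw [ramCount_zero hF hx]
    exact twoPart_zero (XTS.main_sqrt hL hE F hF ⟨x, hx⟩)

/-- THEOREM, the form of the results files. -/
theorem main_pair {L : Type} [Field L] [NumberField L] (hL : XTR.Admissible L) {E : WeierstrassCurve L}
    (hE : XTS.NiceCurve E) {F : Type} [Field F] [NumberField F] [Algebra L F] (hF : Module.finrank L F = 2)
    (hram : ∀ v : HeightOneSpectrum (𝓞 L), Ramified F v → XTS.Nice v) (hM : ∀ x : F, x ^ 2 ≠ -7) :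
    1 ≤ ramCount L F ∧ TwoPart (E.baseChange F) (2 * ((ramCount L F - 1) / 2)) ∧
      ∀ (K : Type) [Field K] [NumberField K] [Algebra F K], Module.finrank F K = 2 → (∃ ρ : K, ρ ^ 2 = -7) →
        TwoPart ((E.baseChange F).baseChange K) (4 * ((ramCount L F - 1) / 2)) := by
  obtain ⟨m, hm, hm1, h1, h2⟩ := main_ext hL hE hF hram hM
  have hm' : ramCount L F = m := hm.symm
  rw [hm']
  refine ⟨hm1, h1, fun K _ _ _ hK hr => ?_⟩
  have h3 := h2 K hK hr
  have e : 2 * (2 * ((m - 1) / 2)) = 4 * ((m - 1) / 2) := by ring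
  rwa [e] at h3

/-- The conjecture for `A = Res_{F/ℚ} E` up to the primes `≠ 2`, with `|Ш(A)[2^∞]| = 2 ^ e`, for the finite
set of primes `S` -/
def SurfaceTwoPart {F : Type} [Field F] [NumberField F] (E : WeierstrassCurve F) (S : Finset ℕ) (e : ℕ) : Prop :=
  Finite (WeilRes.RatPt E) ∧ ∃ L : ℂ → ℂ, WR.IsEntireL E S L ∧
    analyticOrderAt L 1 = Module.finrank ℤ (WeilRes.RatPt E) ∧ L 1 ≠ 0 ∧
    (∀ (x : WeilRes.Sha E (AlgebraicClosure ℚ)) (k : ℕ), 2 ^ k • x = 0 → 2 • x = 0) ∧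
    Nat.card {x : WeilRes.Sha E (AlgebraicClosure ℚ) // 2 • x = 0} = 2 ^ e ∧
    ∃ q : ℚ, q ≠ 0 ∧ padicValRat 2 q = e ∧ WeilRes.bsdQuotient E S (L 1) = q

/-- for all finite sets of primes which contain the bad primes, and there is such a set -/
def Formula {F : Type} [Field F] [NumberField F] (E : WeierstrassCurve F) (e : ℕ) : Prop :=
  (∃ S : Finset ℕ, WR.IsBadSet E S) ∧ ∀ S : Finset ℕ, WR.IsBadSet E S → SurfaceTwoPart E S e

theorem formula_of {F : Type} [Field F] [NumberField F] {E : WeierstrassCurve F} {e : ℕ}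
    (h : TwoPart E e) : Formula E e := by
  obtain ⟨hell, hfin, L, hL, -, hL3, hexp, hcard, q, hq, hq2, hq1⟩ := h
  exact ⟨TTS.exists_badSet _ E.isUnit_Δ.ne_zero, fun S' hS' =>
    SHP.res_of _ S' hS' hfin L hL hL3 hexp hcard q hq hq2 hq1⟩

end TRY
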